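import Pool.Agent.H67.Tent.Defs

/-!
TE-2. Averages over words.

`second_moment`: write `A_w(s) = ‖(mul w).2.1‖ * s + ‖(off w).2.1‖` and
`E_n(s) = wsum n (fun w => |(mul w).1|⁻¹ * A_w(s)^2)`. Since
`mul (c :: w) = mul w * letr c` and `off (c :: w) = off w + mul w * loff c`,
`A_{false::w}(s) = A_w(‖a2‖ s)` and `A_{true::w}(s) ≤ A_w(‖b2‖ (s + N))`, hence
`E_{n+1}(s) ≤ a1⁻¹ E_n(‖a2‖ s) + b1⁻¹ E_n(‖b2‖ (s + N))`. By induction on `n` (for all `s ≥ 0`)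
`E_n(s) ≤ κ^n s^2 + N^2 * ∑ i < n, κ^i` with `κ = 24/25`; the step uses
`a1⁻¹ ‖a2‖² s² + b1⁻¹ ‖b2‖² (s + N)² ≤ κ s² + N²`, which follows from `S.kap` (≤ 0.945) and
`b1⁻¹ ‖b2‖² ≤ (1/5) * (7/25)`: the rest `0.056 * (2 s N + N²) ≤ 0.015 s² + N²`.
Finally `∑ κ^i ≤ 25`.

`lam_moment`: exactly multiplicative, use `S.lam`.
-/

set_option autoImplicit false

namespace Pool.Agent.H67.Tent

theorem avg_quad (S : Sys) (N : ℕ) (s : ℝ) :
    (S.a.1)⁻¹ * (‖S.a.2.1‖ * s) ^ 2 + (S.b.1)⁻¹ * (‖S.b.2.1‖ * (s + N)) ^ 2 ≤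
      24 / 25 * s ^ 2 + (N : ℝ) ^ 2 := by
  have hk := S.kap
  have hb0 : 0 < S.b.1 := b1_pos S
  set P := (S.a.1)⁻¹ * ‖S.a.2.1‖ ^ 2 with hP
  set Q := (S.b.1)⁻¹ * ‖S.b.2.1‖ ^ 2 with hQ
  have hQ0 : 0 ≤ Q := by positivity
  have hQ1 : Q ≤ 7 / 125 := by
    have h1 : (S.b.1)⁻¹ ≤ 1 / 5 := by
      rw [← one_div]
      exact one_div_le_one_div_of_le (by norm_num) S.b1_gt.le
    have h2 := mul_le_mul h1 S.b2_le (sq_nonneg _) (by norm_num)
    linarith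
  have e : (S.a.1)⁻¹ * (‖S.a.2.1‖ * s) ^ 2 + (S.b.1)⁻¹ * (‖S.b.2.1‖ * (s + N)) ^ 2 =
      P * s ^ 2 + Q * (s + N) ^ 2 := by rw [hP, hQ]; ring
  rw [e]
  have h3 : P * s ^ 2 ≤ (189 / 200 - Q) * s ^ 2 :=
    mul_le_mul_of_nonneg_right (by linarith) (sq_nonneg _)
  have h4 : Q * (2 * s * N + (N : ℝ) ^ 2) ≤ Q * (s ^ 2 / 4 + 5 * (N : ℝ) ^ 2) := by
    refine mul_le_mul_of_nonneg_left ?_ hQ0
    nlinarith [sq_nonneg (s / 2 - 2 * N)]
  have h5 : Q * (s ^ 2 / 4 + 5 * (N : ℝ) ^ 2) ≤ 7 / 125 * (s ^ 2 / 4 + 5 * (N : ℝ) ^ 2) :=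
    mul_le_mul_of_nonneg_right hQ1 (by positivity)
  nlinarith [sq_nonneg s, sq_nonneg (N : ℝ)]

theorem avg_aux (S : Sys) (N n : ℕ) (s : ℝ) (hs : 0 ≤ s) :
    wsum n (fun w => |(mul S w).1|⁻¹ *
      (‖(mul S w).2.1‖ * s + ‖(off S N w).2.1‖) ^ 2) ≤
      (24 / 25) ^ n * s ^ 2 + (∑ i ∈ Finset.range n, (24 / 25 : ℝ) ^ i) * (N : ℝ) ^ 2 := by
  induction n generalizing s with
  | zero => simp [wsum, mul, off]
  | succ n ih =>
    have ha0 : 0 < S.a.1 := a1_pos S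
    have hb0 : 0 < S.b.1 := b1_pos S
    have i1 := ih (‖S.a.2.1‖ * s) (by positivity)
    have i2 := ih (‖S.b.2.1‖ * (s + N)) (by positivity)
    have e1 : wsum n (fun w => |(mul S (false :: w)).1|⁻¹ *
        (‖(mul S (false :: w)).2.1‖ * s + ‖(off S N (false :: w)).2.1‖) ^ 2) =
        (S.a.1)⁻¹ * wsum n (fun w => |(mul S w).1|⁻¹ *
          (‖(mul S w).2.1‖ * (‖S.a.2.1‖ * s) + ‖(off S N w).2.1‖) ^ 2) := by
      rw [← wsum_const_mul]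
      congr 1
      funext w
      have : mul S (false :: w) = mul S w * S.a := rfl
      rw [this]
      have : off S N (false :: w) = off S N w := by
        show off S N w + mul S w * loff S N false = off S N w
        simp [loff]
      rw [this, Prod.fst_mul, abs_mul, abs_of_pos ha0, mul_inv, Prod.snd_mul, Prod.fst_mul,
        norm_mul]
      ring
    have e2 : wsum n (fun w => |(mul S (true :: w)).1|⁻¹ *
        (‖(mul S (true :: w)).2.1‖ * s + ‖(off S N (true :: w)).2.1‖) ^ 2) ≤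
        (S.b.1)⁻¹ * wsum n (fun w => |(mul S w).1|⁻¹ *
          (‖(mul S w).2.1‖ * (‖S.b.2.1‖ * (s + N)) + ‖(off S N w).2.1‖) ^ 2) := by
      rw [← wsum_const_mul]
      refine wsum_mono fun w _ => ?_
      have : mul S (true :: w) = mul S w * (-S.b) := rfl
      rw [this]
      have : off S N (true :: w) = off S N w + mul S w * ((N : E) * S.b) := rfl
      rw [this, Prod.fst_mul, abs_mul, Prod.fst_neg, abs_neg, abs_of_pos hb0, mul_inv,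
        Prod.snd_mul, Prod.fst_mul, norm_mul, Prod.snd_neg, Prod.fst_neg, norm_neg]
      have h1 : ‖(off S N w + mul S w * ((N : E) * S.b)).2.1‖ ≤
          ‖(off S N w).2.1‖ + ‖(mul S w).2.1‖ * (N * ‖S.b.2.1‖) := by
        rw [Prod.snd_add, Prod.fst_add]
        refine (norm_add_le _ _).trans ?_
        rw [Prod.snd_mul, Prod.fst_mul, norm_mul, Prod.snd_mul, Prod.fst_mul, norm_mul]
        have : ‖((N : E)).2.1‖ = N := by simp
        rw [this]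
      have h2 : ‖(mul S w).2.1‖ * ‖S.b.2.1‖ * s + ‖(off S N w + mul S w * ((N : E) * S.b)).2.1‖ ≤
          ‖(mul S w).2.1‖ * (‖S.b.2.1‖ * (s + N)) + ‖(off S N w).2.1‖ := by
        nlinarith
      have h3 : (‖(mul S w).2.1‖ * ‖S.b.2.1‖ * s +
          ‖(off S N w + mul S w * ((N : E) * S.b)).2.1‖) ^ 2 ≤
          (‖(mul S w).2.1‖ * (‖S.b.2.1‖ * (s + N)) + ‖(off S N w).2.1‖) ^ 2 :=
        pow_le_pow_left₀ (by positivity) h2 2
      calc |(mul S w).1|⁻¹ * (S.b.1)⁻¹ * (‖(mul S w).2.1‖ * ‖S.b.2.1‖ * s +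
          ‖(off S N w + mul S w * ((N : E) * S.b)).2.1‖) ^ 2
          ≤ |(mul S w).1|⁻¹ * (S.b.1)⁻¹ * (‖(mul S w).2.1‖ * (‖S.b.2.1‖ * (s + N)) +
            ‖(off S N w).2.1‖) ^ 2 := mul_le_mul_of_nonneg_left h3 (by positivity)
        _ = _ := by ring
    have hq := avg_quad S N s
    have hsum := S.inv_add
    have hG0 : 0 ≤ (∑ i ∈ Finset.range n, (24 / 25 : ℝ) ^ i) * (N : ℝ) ^ 2 :=
      mul_nonneg (Finset.sum_nonneg fun i _ => by positivity) (sq_nonneg _)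
    set G := (∑ i ∈ Finset.range n, (24 / 25 : ℝ) ^ i) * (N : ℝ) ^ 2 with hG
    have j1 := mul_le_mul_of_nonneg_left i1 (inv_pos.2 ha0).le
    have j2 := mul_le_mul_of_nonneg_left i2 (inv_pos.2 hb0).le
    have j3 : (24 / 25 : ℝ) ^ n * ((S.a.1)⁻¹ * (‖S.a.2.1‖ * s) ^ 2 +
        (S.b.1)⁻¹ * (‖S.b.2.1‖ * (s + N)) ^ 2) ≤
        (24 / 25 : ℝ) ^ n * (24 / 25 * s ^ 2 + (N : ℝ) ^ 2) :=
      mul_le_mul_of_nonneg_left hq (by positivity)
    have j4 : (S.a.1)⁻¹ * G + (S.b.1)⁻¹ * G = G := by rw [← add_mul, hsum, one_mul]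
    show wsum n (fun w => |(mul S (false :: w)).1|⁻¹ *
        (‖(mul S (false :: w)).2.1‖ * s + ‖(off S N (false :: w)).2.1‖) ^ 2) +
      wsum n (fun w => |(mul S (true :: w)).1|⁻¹ *
        (‖(mul S (true :: w)).2.1‖ * s + ‖(off S N (true :: w)).2.1‖) ^ 2) ≤ _
    rw [e1, Finset.sum_range_succ, add_mul, ← hG, pow_succ]
    linarith

theorem second_moment (S : Sys) (N n : ℕ) (s : ℝ) (hs : 0 ≤ s) :
    wsum n (fun w => |(mul S w).1|⁻¹ *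
      (‖(mul S w).2.1‖ * s + ‖(off S N w).2.1‖) ^ 2) ≤ (24 / 25) ^ n * s ^ 2 + 25 * N ^ 2 := by
  refine (avg_aux S N n s hs).trans ?_
  have h1 : ∑ i ∈ Finset.range n, (24 / 25 : ℝ) ^ i ≤ 25 := by
    rw [geom_sum_eq (by norm_num)]
    have : (0 : ℝ) < (24 / 25) ^ n := by positivity
    rw [div_le_iff_of_neg (by norm_num)]
    linarith
  have h2 := mul_le_mul_of_nonneg_right h1 (sq_nonneg (N : ℝ))
  linarith

theorem lam_moment (S : Sys) (n : ℕ) :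
    wsum n (fun w => |(mul S w).1|⁻¹ * (‖(mul S w).2.2‖ / ‖(mul S w).2.1‖)) ≤
      (193 / 200) ^ n := by
  induction n with
  | zero => simp [wsum, mul]
  | succ n ih =>
    have ha0 : 0 < S.a.1 := a1_pos S
    have hb0 : 0 < S.b.1 := b1_pos S
    have e1 : wsum n (fun w => |(mul S (false :: w)).1|⁻¹ *
        (‖(mul S (false :: w)).2.2‖ / ‖(mul S (false :: w)).2.1‖)) =
        (S.a.1)⁻¹ * (‖S.a.2.2‖ / ‖S.a.2.1‖) * wsum n (fun w => |(mul S w).1|⁻¹ *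
          (‖(mul S w).2.2‖ / ‖(mul S w).2.1‖)) := by
      rw [← wsum_const_mul]
      congr 1
      funext w
      have : mul S (false :: w) = mul S w * S.a := rfl
      rw [this, Prod.fst_mul, abs_mul, abs_of_pos ha0, mul_inv, Prod.snd_mul, Prod.fst_mul,
        norm_mul, Prod.snd_mul, norm_mul, mul_div_mul_comm]
      ring
    have e2 : wsum n (fun w => |(mul S (true :: w)).1|⁻¹ *
        (‖(mul S (true :: w)).2.2‖ / ‖(mul S (true :: w)).2.1‖)) =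
        (S.b.1)⁻¹ * (‖S.b.2.2‖ / ‖S.b.2.1‖) * wsum n (fun w => |(mul S w).1|⁻¹ *
          (‖(mul S w).2.2‖ / ‖(mul S w).2.1‖)) := by
      rw [← wsum_const_mul]
      congr 1
      funext w
      have : mul S (true :: w) = mul S w * (-S.b) := rfl
      rw [this, Prod.fst_mul, abs_mul, Prod.fst_neg, abs_neg, abs_of_pos hb0, mul_inv,
        Prod.snd_mul, Prod.fst_mul, norm_mul, Prod.snd_mul, norm_mul, Prod.snd_neg, Prod.fst_neg,
        Prod.snd_neg, norm_neg, norm_neg, mul_div_mul_comm]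
      ring
    show wsum n (fun w => |(mul S (false :: w)).1|⁻¹ *
        (‖(mul S (false :: w)).2.2‖ / ‖(mul S (false :: w)).2.1‖)) +
      wsum n (fun w => |(mul S (true :: w)).1|⁻¹ *
        (‖(mul S (true :: w)).2.2‖ / ‖(mul S (true :: w)).2.1‖)) ≤ _
    rw [e1, e2, ← add_mul, pow_succ]
    have h0 : 0 ≤ (S.a.1)⁻¹ * (‖S.a.2.2‖ / ‖S.a.2.1‖) + (S.b.1)⁻¹ * (‖S.b.2.2‖ / ‖S.b.2.1‖) := by
      positivity
    calc _ ≤ ((S.a.1)⁻¹ * (‖S.a.2.2‖ / ‖S.a.2.1‖) + (S.b.1)⁻¹ * (‖S.b.2.2‖ / ‖S.b.2.1‖)) *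
          (193 / 200) ^ n := mul_le_mul_of_nonneg_left ih h0
      _ ≤ 193 / 200 * (193 / 200) ^ n := mul_le_mul_of_nonneg_right S.lam (by positivity)
      _ = _ := by ring

end Pool.Agent.H67.Tent
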