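import Pool.Agent.H67.Tent.Defs

/-!
TE-1. Counting lattice points in a box (upper bound).

Proof. Put `ε = 1 / (4 √δ ρ2)`. Send `y ∈ Y` to the pair of integers
`(⌊(y.2.2 - c3).re / ε⌋, ⌊(y.2.2 - c3).im / ε⌋)`. Two points `y ≠ y'` with the same image
satisfy `|y.1 - y'.1| ≤ δ`, `‖y.2.1 - y'.2.1‖ ≤ 2 ρ2`, `‖y.2.2 - y'.2.2‖ ^ 2 ≤ 2 ε ^ 2`, so the
product `|.| * ‖.‖^2 * ‖.‖^2` for `y - y' ∈ Lam` is at most `δ * 4 ρ2 ^ 2 * 2 ε ^ 2 = 1 / 2 < 1`,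
against `S.norm_ge`. The image lies in `[-m, m]²`-like box: both integers are in
`Icc ⌊-ρ3/ε⌋ ⌊ρ3/ε⌋`, which has at most `2 ρ3 / ε + 2` elements. Hence
`#Y ≤ (2 ρ3 / ε + 2) ^ 2 = (8 √δ ρ2 ρ3 + 2) ^ 2 ≤ 128 δ ρ2² ρ3² + 8`.
-/

set_option autoImplicit false

namespace Pool.Agent.H67.Tent

theorem count_abs {z : ℂ} {r : ℝ} (h : ‖z‖ ≤ r) {K : ℝ} (hK : 0 < K) :
    ⌊z.re * K⌋ ∈ Finset.Icc ⌊-(r * K)⌋ ⌊r * K⌋ ∧ ⌊z.im * K⌋ ∈ Finset.Icc ⌊-(r * K)⌋ ⌊r * K⌋ := by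
  have h1 := (Complex.abs_re_le_norm z).trans h
  have h2 := (Complex.abs_im_le_norm z).trans h
  rw [abs_le] at h1 h2
  refine ⟨Finset.mem_Icc.2 ⟨Int.floor_le_floor ?_, Int.floor_le_floor ?_⟩,
    Finset.mem_Icc.2 ⟨Int.floor_le_floor ?_, Int.floor_le_floor ?_⟩⟩
  · nlinarith [h1.1]
  · nlinarith [h1.2]
  · nlinarith [h2.1]
  · nlinarith [h2.2]

theorem count_card (t : ℝ) (ht : 0 ≤ t) :
    ((Finset.Icc ⌊-t⌋ ⌊t⌋).card : ℝ) ≤ 2 * t + 2 := by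
  rw [Int.card_Icc]
  have h1 : ⌊-t⌋ ≤ ⌊t⌋ := Int.floor_le_floor (by linarith)
  have h2 : (((⌊t⌋ + 1 - ⌊-t⌋).toNat : ℤ) : ℝ) = (⌊t⌋ : ℝ) + 1 - ⌊-t⌋ := by
    rw [Int.toNat_of_nonneg (by omega)]
    push_cast
    ring
  have h3 : (((⌊t⌋ + 1 - ⌊-t⌋).toNat : ℕ) : ℝ) = (⌊t⌋ : ℝ) + 1 - ⌊-t⌋ := by
    rw [← h2]
    norm_cast
  rw [h3]
  have h4 := Int.floor_le t
  have h5 := Int.lt_floor_add_one (-t)
  linarith

theorem count_box (S : Sys) (Y : Finset E) (u δ ρ2 ρ3 : ℝ) (c2 c3 : ℂ) (hδ : 0 < δ)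
    (h2 : 0 < ρ2) (h3 : 0 ≤ ρ3)
    (hY : ∀ y ∈ Y, y ∈ S.Lam ∧ u ≤ y.1 ∧ y.1 ≤ u + δ ∧ ‖y.2.1 - c2‖ ≤ ρ2 ∧
      ‖y.2.2 - c3‖ ≤ ρ3) :
    (Y.card : ℝ) ≤ 128 * δ * ρ2 ^ 2 * ρ3 ^ 2 + 18 := by
  classical
  set s : ℝ := Real.sqrt δ with hs
  have hs0 : 0 < s := Real.sqrt_pos.2 hδ
  have hs2 : s ^ 2 = δ := Real.sq_sqrt hδ.le
  set K : ℝ := 4 * s * ρ2 with hK
  have hK0 : 0 < K := by positivity
  have hK2 : K ^ 2 = 16 * δ * ρ2 ^ 2 := by rw [hK, ← hs2]; ring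
  let φ : E → ℤ × ℤ := fun y => (⌊(y.2.2 - c3).re * K⌋, ⌊(y.2.2 - c3).im * K⌋)
  set I : Finset ℤ := Finset.Icc ⌊-(ρ3 * K)⌋ ⌊ρ3 * K⌋ with hI
  have hmaps : ∀ y ∈ Y, φ y ∈ I ×ˢ I := by
    intro y hy
    have h := count_abs (hY y hy).2.2.2.2 hK0
    exact Finset.mem_product.2 ⟨h.1, h.2⟩
  have hinj : Set.InjOn φ Y := by
    intro y hy y' hy' hφ
    by_contra hne
    have e1 : ⌊(y.2.2 - c3).re * K⌋ = ⌊(y'.2.2 - c3).re * K⌋ := congrArg Prod.fst hφ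
    have e2 : ⌊(y.2.2 - c3).im * K⌋ = ⌊(y'.2.2 - c3).im * K⌋ := congrArg Prod.snd hφ
    have a1 := Int.abs_sub_lt_one_of_floor_eq_floor e1
    have a2 := Int.abs_sub_lt_one_of_floor_eq_floor e2
    obtain ⟨l, b1, b2, b3, b4⟩ := hY y hy
    obtain ⟨l', b1', b2', b3', b4'⟩ := hY y' hy'
    have hn := S.norm_ge (y - y') (S.Lam.sub_mem l l') (sub_ne_zero.2 hne)
    have hp : |(y - y').1| ≤ δ := by
      rw [abs_le, Prod.fst_sub]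
      constructor <;> linarith
    have hq : ‖(y - y').2.1‖ ≤ 2 * ρ2 := by
      have : (y - y').2.1 = (y.2.1 - c2) - (y'.2.1 - c2) := by
        rw [Prod.snd_sub, Prod.fst_sub]
        ring
      rw [this]
      refine (norm_sub_le _ _).trans ?_
      linarith
    have hr : ‖(y - y').2.2‖ ^ 2 * K ^ 2 < 2 := by
      have h1 : ‖(y - y').2.2‖ ^ 2 = ((y.2.2 - c3).re - (y'.2.2 - c3).re) ^ 2 +
          ((y.2.2 - c3).im - (y'.2.2 - c3).im) ^ 2 := by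
        rw [← Complex.normSq_eq_norm_sq, Complex.normSq_apply, Prod.snd_sub, Prod.snd_sub]
        simp only [Complex.sub_re, Complex.sub_im]
        ring
      have h2' : ((y.2.2 - c3).re * K - (y'.2.2 - c3).re * K) ^ 2 < 1 := by
        rw [← sq_abs]
        nlinarith [abs_nonneg ((y.2.2 - c3).re * K - (y'.2.2 - c3).re * K)]
      have h3' : ((y.2.2 - c3).im * K - (y'.2.2 - c3).im * K) ^ 2 < 1 := by
        rw [← sq_abs]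
        nlinarith [abs_nonneg ((y.2.2 - c3).im * K - (y'.2.2 - c3).im * K)]
      rw [h1]
      nlinarith
    have hq2 : ‖(y - y').2.1‖ ^ 2 ≤ (2 * ρ2) ^ 2 := pow_le_pow_left₀ (norm_nonneg _) hq 2
    have hpq : |(y - y').1| * ‖(y - y').2.1‖ ^ 2 ≤ δ * (2 * ρ2) ^ 2 :=
      mul_le_mul hp hq2 (by positivity) hδ.le
    have hfin : |(y - y').1| * ‖(y - y').2.1‖ ^ 2 * ‖(y - y').2.2‖ ^ 2 ≤
        δ * (2 * ρ2) ^ 2 * ‖(y - y').2.2‖ ^ 2 :=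
      mul_le_mul_of_nonneg_right hpq (by positivity)
    have : δ * (2 * ρ2) ^ 2 * ‖(y - y').2.2‖ ^ 2 = ‖(y - y').2.2‖ ^ 2 * K ^ 2 / 4 := by
      rw [hK2]
      ring
    linarith
  have hcard := Finset.card_le_card_of_injOn φ hmaps hinj
  rw [Finset.card_product] at hcard
  have hI2 := count_card (ρ3 * K) (by positivity)
  rw [← hI] at hI2
  have hc : (Y.card : ℝ) ≤ (I.card : ℝ) * I.card := by exact_mod_cast hcard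
  have hI0 : (0 : ℝ) ≤ I.card := Nat.cast_nonneg _
  have h5 : (I.card : ℝ) * I.card ≤ (2 * (ρ3 * K) + 2) * (2 * (ρ3 * K) + 2) :=
    mul_le_mul hI2 hI2 hI0 (by positivity)
  have h6 : (ρ3 * K) ^ 2 = 16 * (δ * ρ2 ^ 2 * ρ3 ^ 2) := by
    rw [mul_pow, hK2]
    ring
  nlinarith [sq_nonneg (2 * (ρ3 * K) - 2)]

end Pool.Agent.H67.Tent
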