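import Mathlib

/-!
TE-11. The norm of a nonzero element of `ℤ[x]/(x^5 - x^3 - 1)` is a nonzero integer.

Proof. The five roots `r = ![α, z2, conj z2, z3, conj z3]` are distinct (`α` real, positive
imaginary parts, and `z2 ≠ z3` because the norms differ). Let `M` be the integer companion
matrix, `M (j+1) j = 1` for `j < 4`, `M 0 4 = 1`, `M 3 4 = 1`, else `0`, and
`V = Matrix.vandermonde r`, `V i j = r i ^ j`. Then `V * M = diagonal r * V` (the last column is
`r^5 = r^3 + 1`), hence `V * (∑ c_i M^i) = diagonal (∑ c_i r^i) * V`. As `det V ≠ 0`,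
`∏_j P(r_j) = det (∑ c_i M^i)` is an integer; `P(conj z) = conj P(z)` for integer coefficients, so
the absolute value of this integer is `|P α| ‖P z2‖² ‖P z3‖²`. It is nonzero: `x^5 - x^3 - 1` is
irreducible (for example modulo 2: no root and not divisible by `x² + x + 1`; or: for
`c ≠ 0` divide by a power of 2 until some `c_i` is odd and check with `decide` over
`Fin 5 → ZMod 2` that `det (∑ c_i M^i) ≠ 0` modulo 2 for `c ≠ 0`, for example by
exhibiting an inverse). Any other route is fine (`Polynomial.resultant`, `Algebra.norm`, …).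
-/

set_option autoImplicit false

namespace Pool.Agent.H67.Tent

open ComplexConjugate

/-- the companion matrix -/
def nmM : Matrix (Fin 5) (Fin 5) ℤ :=
  ![![0, 0, 0, 0, 1], ![1, 0, 0, 0, 0], ![0, 1, 0, 0, 0], ![0, 0, 1, 0, 1], ![0, 0, 0, 1, 0]]

/-- the companion matrix modulo 2 -/
def nm2 : Matrix (Fin 5) (Fin 5) (ZMod 2) := nmM.map (Int.cast)

theorem nm2_pow : nm2 ^ 5 = nm2 ^ 3 + 1 := by decide +kernel

/-- shift -/
def nmSh (v : Fin 5 → ZMod 2) : Fin 5 → ZMod 2 := ![v 4, v 0, v 1, v 2 + v 4, v 3]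

theorem nm_dec : ∀ v : Fin 5 → ZMod 2, v ≠ 0 → ∃ k : Fin 31, nmSh^[(k : ℕ)] ![1, 0, 0, 0, 0] = v := by
  decide +kernel

/-- the polynomial in the matrix, modulo 2 -/
def nmP (v : Fin 5 → ZMod 2) : Matrix (Fin 5) (Fin 5) (ZMod 2) := ∑ i, v i • nm2 ^ (i : ℕ)

theorem nmP_sh (v : Fin 5 → ZMod 2) : nmP (nmSh v) = nm2 * nmP v := by
  unfold nmP nmSh
  rw [Finset.mul_sum]
  simp only [Fin.sum_univ_five, mul_smul_comm, ← pow_succ']
  have h5 : nm2 ^ (4 + 1) = nm2 ^ 3 + 1 := nm2_pow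
  simp only [Fin.isValue, Matrix.cons_val_zero, Matrix.cons_val_one, Matrix.cons_val,
    Fin.val_zero, Fin.val_one, Fin.val_two, pow_zero]
  have e3 : ((3 : Fin 5) : ℕ) = 3 := rfl
  have e4 : ((4 : Fin 5) : ℕ) = 4 := rfl
  rw [e3, e4, h5, smul_add]
  simp only [add_smul, zero_add, Nat.reduceAdd]
  abel

theorem nm_unit2 : IsUnit nm2 := by
  have h : nm2 * (nm2 ^ 4 - nm2 ^ 2) = 1 := by
    rw [mul_sub, ← pow_succ', ← pow_succ', nm2_pow]
    abel
  exact IsUnit.of_mul_eq_one _ h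

theorem nm_unit (v : Fin 5 → ZMod 2) (hv : v ≠ 0) : IsUnit (nmP v) := by
  obtain ⟨k, hk⟩ := nm_dec v hv
  have h1 : nmP ![1, 0, 0, 0, 0] = 1 := by
    unfold nmP
    simp [Fin.sum_univ_five]
  have h2 : ∀ k : ℕ, nmP (nmSh^[k] ![1, 0, 0, 0, 0]) = nm2 ^ k := by
    intro k
    induction k with
    | zero => simpa using h1
    | succ k ih => rw [Function.iterate_succ_apply', nmP_sh, ih, pow_succ']
  rw [← hk, h2]
  exact nm_unit2.pow _

/-- the polynomial in the integer matrix -/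
def nmQ (c : Fin 5 → ℤ) : Matrix (Fin 5) (Fin 5) ℤ := ∑ i, c i • nmM ^ (i : ℕ)

theorem nmQ_map (c : Fin 5 → ℤ) :
    (nmQ c).map (Int.cast : ℤ → ZMod 2) = nmP (fun i => (c i : ZMod 2)) := by
  have h : (nmQ c).map (Int.cast : ℤ → ZMod 2) =
      (Int.castRingHom (ZMod 2)).mapMatrix (nmQ c) := rfl
  rw [h]
  unfold nmQ nmP nm2
  rw [map_sum]
  refine Finset.sum_congr rfl fun i _ => ?_
  rw [zsmul_eq_mul, map_mul, map_pow, map_intCast]
  have h2 : (Int.castRingHom (ZMod 2)).mapMatrix nmM = nmM.map Int.cast := rfl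
  rw [h2]
  have h3 : ((c i : ℤ) : Matrix (Fin 5) (Fin 5) (ZMod 2)) =
      ((c i : ZMod 2)) • (1 : Matrix (Fin 5) (Fin 5) (ZMod 2)) := by
    rw [← zsmul_one]
    ext a b
    simp
  rw [h3, smul_mul_assoc, one_mul]

theorem nm_det (c : Fin 5 → ℤ) (hc : c ≠ 0) : (nmQ c).det ≠ 0 := by
  classical
  obtain ⟨g, hg1, hg2⟩ := Finset.extract_gcd c (s := Finset.univ) Finset.univ_nonempty
  set t := (Finset.univ : Finset (Fin 5)).gcd c with ht
  have ht0 : t ≠ 0 := by
    intro h0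
    apply hc
    funext i
    rw [hg1 i (Finset.mem_univ i), h0, zero_mul]; rfl
  have hQ : nmQ c = t • nmQ g := by
    unfold nmQ
    rw [Finset.smul_sum]
    refine Finset.sum_congr rfl fun i _ => ?_
    rw [hg1 i (Finset.mem_univ i), mul_smul]
  rw [hQ, Matrix.det_smul]
  refine mul_ne_zero (pow_ne_zero _ ht0) ?_
  intro h0
  have hg : (fun i => (g i : ZMod 2)) ≠ 0 := by
    intro h1
    have h2 : (2 : ℤ) ∣ (Finset.univ : Finset (Fin 5)).gcd g := by
      refine Finset.dvd_gcd fun i _ => ?_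
      have := congrFun h1 i
      exact (ZMod.intCast_zmod_eq_zero_iff_dvd (g i) 2).1 this
    rw [hg2] at h2
    norm_num at h2
  have h3 := nm_unit _ hg
  rw [← nmQ_map] at h3
  have h4 : ((nmQ g).map (Int.cast : ℤ → ZMod 2)).det = ((nmQ g).det : ZMod 2) := by
    have := (Int.castRingHom (ZMod 2)).map_det (nmQ g)
    exact this.symm
  rw [Matrix.isUnit_iff_isUnit_det, h4, h0] at h3
  simp at h3

theorem nm_comp (z : ℂ) (hz : z ^ 5 = z ^ 3 + 1) (j : Fin 5) :
    ∑ k : Fin 5, z ^ (k : ℕ) * ((nmM k j : ℤ) : ℂ) = z * z ^ (j : ℕ) := by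
  fin_cases j <;> simp [Fin.sum_univ_five, nmM] <;>
    first | ring1 | linear_combination hz | linear_combination -hz

theorem nm_vand (r : Fin 5 → ℂ) (hr : ∀ i, r i ^ 5 = r i ^ 3 + 1) :
    Matrix.vandermonde r * nmM.map (Int.cast : ℤ → ℂ) =
      Matrix.diagonal r * Matrix.vandermonde r := by
  ext i j
  rw [Matrix.mul_apply, Matrix.diagonal_mul]
  simp only [Matrix.vandermonde_apply, Matrix.map_apply]
  exact nm_comp (r i) (hr i) j

theorem nm_prod (r : Fin 5 → ℂ) (hr : ∀ i, r i ^ 5 = r i ^ 3 + 1) (hinj : Function.Injective r)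
    (c : Fin 5 → ℤ) : ((nmQ c).det : ℂ) = ∏ i, ∑ j, (c j : ℂ) * r i ^ (j : ℕ) := by
  have hV : (Matrix.vandermonde r).det ≠ 0 := Matrix.det_vandermonde_ne_zero_iff.2 hinj
  have hpow : ∀ k : ℕ, Matrix.vandermonde r * (nmM.map (Int.cast : ℤ → ℂ)) ^ k =
      Matrix.diagonal r ^ k * Matrix.vandermonde r := by
    intro k
    induction k with
    | zero => simp
    | succ k ih => rw [pow_succ, ← mul_assoc, ih, mul_assoc, nm_vand r hr, ← mul_assoc, ← pow_succ]
  have hQ : (nmQ c).map (Int.cast : ℤ → ℂ) =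
      ∑ j, (c j : ℂ) • (nmM.map (Int.cast : ℤ → ℂ)) ^ (j : ℕ) := by
    have h : (nmQ c).map (Int.cast : ℤ → ℂ) =
        (Int.castRingHom ℂ).mapMatrix (nmQ c) := rfl
    rw [h]
    unfold nmQ
    rw [map_sum]
    refine Finset.sum_congr rfl fun i _ => ?_
    rw [zsmul_eq_mul, map_mul, map_pow, map_intCast]
    have h2 : (Int.castRingHom ℂ).mapMatrix nmM = nmM.map Int.cast := rfl
    rw [h2]
    have h3 : ((c i : ℤ) : Matrix (Fin 5) (Fin 5) ℂ) =
        ((c i : ℂ)) • (1 : Matrix (Fin 5) (Fin 5) ℂ) := by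
      rw [← zsmul_one]
      ext a b
      simp
    rw [h3, smul_mul_assoc, one_mul]
  have h1 : Matrix.vandermonde r * (nmQ c).map (Int.cast : ℤ → ℂ) =
      Matrix.diagonal (fun i => ∑ j, (c j : ℂ) * r i ^ (j : ℕ)) * Matrix.vandermonde r := by
    rw [hQ, Finset.mul_sum]
    have h2 : ∀ j ∈ (Finset.univ : Finset (Fin 5)), Matrix.vandermonde r *
        ((c j : ℂ) • (nmM.map (Int.cast : ℤ → ℂ)) ^ (j : ℕ)) =
        ((c j : ℂ) • Matrix.diagonal r ^ (j : ℕ)) * Matrix.vandermonde r := by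
      intro j _
      rw [mul_smul_comm, hpow, smul_mul_assoc]
    rw [Finset.sum_congr rfl h2, ← Finset.sum_mul]
    congr 1
    ext a b
    rw [Matrix.sum_apply]
    simp only [Matrix.smul_apply, Matrix.diagonal_pow, Matrix.diagonal_apply, Pi.pow_apply,
      smul_eq_mul, mul_ite, mul_zero]
    by_cases hab : a = b
    · simp [hab]
    · simp [hab]
  have h3 := congrArg Matrix.det h1
  rw [Matrix.det_mul, Matrix.det_mul, Matrix.det_diagonal, mul_comm] at h3
  have h4 := mul_right_cancel₀ hV h3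
  rw [← h4]
  exact ((Int.castRingHom ℂ).map_det (nmQ c))

theorem norm_int (α : ℝ) (z2 z3 : ℂ)
    (hf : ∀ z : ℂ, z ^ 5 - z ^ 3 - 1 =
      (z - (α : ℂ)) * (z - z2) * (z - conj z2) * (z - z3) * (z - conj z3))
    (h2 : 0 < z2.im) (h3 : 0 < z3.im) (h23 : z2 ≠ z3) (c : Fin 5 → ℤ) (hc : c ≠ 0) :
    1 ≤ |∑ i, (c i : ℝ) * α ^ (i : ℕ)| * ‖∑ i, (c i : ℂ) * z2 ^ (i : ℕ)‖ ^ 2 *
      ‖∑ i, (c i : ℂ) * z3 ^ (i : ℕ)‖ ^ 2 := by
  have hroot : ∀ z : ℂ, (z = (α : ℂ) ∨ z = z2 ∨ z = conj z2 ∨ z = z3 ∨ z = conj z3) →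
      z ^ 5 = z ^ 3 + 1 := by
    intro z hz
    have h := hf z
    have h0 : (z - (α : ℂ)) * (z - z2) * (z - conj z2) * (z - z3) * (z - conj z3) = 0 := by
      rcases hz with h | h | h | h | h <;> rw [h] <;> ring
    rw [h0] at h
    linear_combination h
  let r : Fin 5 → ℂ := ![(α : ℂ), z2, conj z2, z3, conj z3]
  have hr : ∀ i, r i ^ 5 = r i ^ 3 + 1 := by
    intro i
    apply hroot
    fin_cases i <;> simp [r]
  have hi : (α : ℂ).im = 0 := Complex.ofReal_im α
  have hc2 : (conj z2).im = - z2.im := Complex.conj_im z2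
  have hc3 : (conj z3).im = - z3.im := Complex.conj_im z3
  have key : ∀ a b : Fin 5, a < b → r a ≠ r b := by
    have e01 : (α : ℂ) ≠ z2 := fun h => by rw [h] at hi; linarith
    have e02 : (α : ℂ) ≠ conj z2 := fun h => by rw [h, hc2] at hi; linarith
    have e03 : (α : ℂ) ≠ z3 := fun h => by rw [h] at hi; linarith
    have e04 : (α : ℂ) ≠ conj z3 := fun h => by rw [h, hc3] at hi; linarith
    have e12 : z2 ≠ conj z2 := fun h => by
      have := congrArg Complex.im h; rw [hc2] at this; linarith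
    have e14 : z2 ≠ conj z3 := fun h => by
      have := congrArg Complex.im h; rw [hc3] at this; linarith
    have e23 : conj z2 ≠ z3 := fun h => by
      have := congrArg Complex.im h; rw [hc2] at this; linarith
    have e24 : conj z2 ≠ conj z3 := fun h => h23 ((starRingEnd ℂ).injective h)
    have e34 : z3 ≠ conj z3 := fun h => by
      have := congrArg Complex.im h; rw [hc3] at this; linarith
    intro a b hab
    fin_cases a <;> fin_cases b <;> first
      | exact absurd hab (by decide)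
      | exact e01
      | exact e02
      | exact e03
      | exact e04
      | exact e12
      | exact h23
      | exact e14
      | exact e23
      | exact e24
      | exact e34
  have hinj : Function.Injective r := by
    intro a b hab
    rcases lt_trichotomy a b with h | h | h
    · exact absurd hab (key a b h)
    · exact h
    · exact absurd hab.symm (key b a h)
  have hp := nm_prod r hr hinj c
  have hconj : ∀ z : ℂ, ∑ j, (c j : ℂ) * (conj z) ^ (j : ℕ) =
      conj (∑ j, (c j : ℂ) * z ^ (j : ℕ)) := by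
    intro z
    rw [map_sum]
    refine Finset.sum_congr rfl fun j _ => ?_
    rw [map_mul, map_pow, map_intCast]
  have hreal : ∑ j, (c j : ℂ) * (α : ℂ) ^ (j : ℕ) =
      ((∑ j, (c j : ℝ) * α ^ (j : ℕ) : ℝ) : ℂ) := by
    push_cast
    rfl
  have hn := congrArg norm hp
  rw [Fin.prod_univ_five] at hn
  have hn2 : ‖((nmQ c).det : ℂ)‖ = |∑ i, (c i : ℝ) * α ^ (i : ℕ)| *
      ‖∑ i, (c i : ℂ) * z2 ^ (i : ℕ)‖ ^ 2 * ‖∑ i, (c i : ℂ) * z3 ^ (i : ℕ)‖ ^ 2 := by
    rw [hn]
    change ‖(∑ j, (c j : ℂ) * (α : ℂ) ^ (j : ℕ)) * (∑ j, (c j : ℂ) * z2 ^ (j : ℕ)) *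
      (∑ j, (c j : ℂ) * (conj z2) ^ (j : ℕ)) * (∑ j, (c j : ℂ) * z3 ^ (j : ℕ)) *
      (∑ j, (c j : ℂ) * (conj z3) ^ (j : ℕ))‖ = _
    rw [hconj, hconj, hreal, norm_mul, norm_mul, norm_mul, norm_mul, RCLike.norm_conj,
      RCLike.norm_conj, Complex.norm_real, Real.norm_eq_abs]
    ring
  rw [← hn2, Complex.norm_intCast]
  have h5 : 1 ≤ |(nmQ c).det| := Int.one_le_abs (nm_det c hc)
  exact_mod_cast h5

end Pool.Agent.H67.Tent
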