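import Mathlib

/-!
TE-10. The roots of `x^5 - x^3 - 1`.

Numerically `α = 1.2365057`, `z2 = -0.9590477 + 0.4283660 i`, `z3 = 0.3407949 + 0.7854231 i`,
`‖z2‖² = 1.1032699`, `‖z3‖² = 0.7330306`, `‖z2 - 1‖² = 4.021365`, `‖z3 - 1‖² = 1.051441`.

Proof. `x^5 - x^3 - 1 = (x - α) q(x)` with
`q(x) = x^4 + α x^3 + (α² - 1) x² + α (α² - 1) x + α² (α² - 1)` (note `α^3 (α² - 1) = 1`).
Factor `q(x) = (x² - u x + v)(x² - u' x + v')`: `u + u' = -α`, `v + v' + u u' = α² - 1`,
`u v' + u' v = -α (α² - 1)`, `v v' = α² (α² - 1) = 1 / α`. With `s = v + v'` the resolvent is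
`s³ - (α²-1) s² + (α² (α²-1) - 4/α) s + (4 (α²-1)/α - α² (α²-1)² - α) = 0`
(`s = 1.8363005`): take a root `s` in a tiny interval by the intermediate value theorem, let
`v > v'` be the roots of `t² - s t + 1/α`, and `u = (α(α²-1) - α v)/(v - v')`-like from the two
linear equations. (`u = -1.9180954`, `u' = 0.6815897`, `v = 1.1032699`, `v' = 0.7330306`.)
Any other route is fine. Then `z2 = (u + i √(4 v - u²))/2`, `‖z2‖² = v`,
`‖z2 - 1‖² = 1 - u + v`, and the same for `z3`.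
-/

set_option autoImplicit false

namespace Pool.Agent.H67.Tent

open ComplexConjugate

theorem roots_alpha (α : ℝ) (hα : α ^ 5 - α ^ 3 - 1 = 0) :
    1.2365057 < α ∧ α < 1.23650571 := by
  have h0 : 0 < α := by
    by_contra h
    push Not at h
    have h1 : α ^ 3 * (α ^ 2 - 1) = 1 := by linear_combination hα
    obtain ⟨t, ht⟩ : ∃ t : ℝ, t = -α := ⟨_, rfl⟩
    have ht0 : 0 ≤ t := by linarith
    have e : t ^ 3 * (1 - t ^ 2) = 1 := by
      rw [ht]; linear_combination h1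
    rcases le_or_gt 1 t with h2 | h2
    · have : t ^ 3 * (1 - t ^ 2) ≤ 0 :=
        mul_nonpos_of_nonneg_of_nonpos (by positivity) (by nlinarith)
      linarith
    · have h3 : t ^ 3 < 1 := pow_lt_one₀ ht0 h2 (by norm_num)
      have h4 : 1 - t ^ 2 ≤ 1 := by nlinarith
      have h5 : 0 ≤ t ^ 3 := by positivity
      nlinarith
  have h1 : 1 < α := by
    by_contra h
    push Not at h
    have h1 : α ^ 3 * (α ^ 2 - 1) = 1 := by linear_combination hα
    have : α ^ 3 * (α ^ 2 - 1) ≤ 0 :=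
      mul_nonpos_of_nonneg_of_nonpos (by positivity) (by nlinarith)
    linarith
  have h2 : α ^ 3 * (α ^ 2 - 1) = 1 := by linear_combination hα
  constructor
  · by_contra h
    push Not at h
    have : α ^ 3 * (α ^ 2 - 1) ≤ (1.2365057 : ℝ) ^ 3 * ((1.2365057 : ℝ) ^ 2 - 1) := by
      refine mul_le_mul (pow_le_pow_left₀ h0.le h 3) ?_ (by nlinarith) (by positivity)
      have := pow_le_pow_left₀ h0.le h 2
      linarith
    norm_num at this
    linarith
  · by_contra h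
    push Not at h
    have : (1.23650571 : ℝ) ^ 3 * ((1.23650571 : ℝ) ^ 2 - 1) ≤ α ^ 3 * (α ^ 2 - 1) := by
      refine mul_le_mul (pow_le_pow_left₀ (by norm_num) h 3) ?_ (by norm_num) (by positivity)
      have := pow_le_pow_left₀ (show (0 : ℝ) ≤ 1.23650571 by norm_num) h 2
      linarith
    norm_num at this
    linarith

/-- the resolvent has a root near `1.8363005` -/
theorem roots_resolvent (α c p : ℝ) (h1 : 1.2365057 < α) (h2 : α < 1.23650571)
    (hc : c = α ^ 2 - 1) (hp : α * p = 1) :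
    0.5289463 < c ∧ c < 0.5289464 ∧ 0.80873059 < p ∧ p < 0.80873061 ∧
    ∃ s : ℝ, 1.8363 ≤ s ∧ s ≤ 1.836301 ∧ s ^ 3 - c * s ^ 2 - 3 * p * s + 3 * p * c - α = 0 := by
  have c1 : 0.5289463 < c := by rw [hc]; nlinarith
  have c2 : c < 0.5289464 := by rw [hc]; nlinarith
  have p1 : 0.80873059 < p := by nlinarith
  have p2 : p < 0.80873061 := by nlinarith
  refine ⟨c1, c2, p1, p2, ?_⟩
  have c3 : 0.52894634 < c := by rw [hc]; nlinarith
  have c4 : c < 0.52894638 := by rw [hc]; nlinarith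
  set g : ℝ → ℝ := fun s => s ^ 3 - c * s ^ 2 - 3 * p * s + 3 * p * c - α with hg
  have hcont : ContinuousOn g (Set.Icc 1.8363 1.836301) := by
    rw [hg]; fun_prop
  have hpc1 : 0.80873059 * 0.52894634 < p * c := mul_lt_mul'' p1 c3 (by norm_num) (by norm_num)
  have hpc2 : p * c < 0.80873061 * 0.52894638 := mul_lt_mul'' p2 c4 (by linarith) (by linarith)
  have g1 : g 1.8363 ≤ 0 := by
    rw [hg]
    norm_num at *
    linarith
  have g2 : 0 ≤ g 1.836301 := by
    rw [hg]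
    norm_num at *
    linarith
  obtain ⟨s, hs, hs0⟩ := intermediate_value_Icc (by norm_num) hcont ⟨g1, g2⟩
  exact ⟨s, hs.1, hs.2, hs0⟩

theorem roots_pair (u v : ℝ) (h : 0 < 4 * v - u ^ 2) : ∃ z : ℂ, 0 < z.im ∧ ‖z‖ ^ 2 = v ∧
    ‖z - 1‖ ^ 2 = 1 - u + v ∧ z + conj z = (u : ℂ) ∧ z * conj z = (v : ℂ) := by
  have hsq : Real.sqrt (4 * v - u ^ 2) ^ 2 = 4 * v - u ^ 2 := Real.sq_sqrt h.le
  have hpos : 0 < Real.sqrt (4 * v - u ^ 2) := Real.sqrt_pos.2 h
  refine ⟨⟨u / 2, Real.sqrt (4 * v - u ^ 2) / 2⟩, by simpa using hpos, ?_, ?_, ?_, ?_⟩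
  · rw [Complex.sq_norm, Complex.normSq_apply]
    simp only
    nlinarith
  · rw [Complex.sq_norm, Complex.normSq_apply]
    simp only [Complex.sub_re, Complex.one_re, Complex.sub_im, Complex.one_im]
    nlinarith
  · apply Complex.ext <;> simp
  · rw [Complex.mul_conj]
    congr 1
    rw [Complex.normSq_apply]
    simp only
    nlinarith

theorem roots (α : ℝ) (hα : α ^ 5 - α ^ 3 - 1 = 0) :
    1.2365 < α ∧ α < 1.2366 ∧ ∃ z2 z3 : ℂ,
      (∀ z : ℂ, z ^ 5 - z ^ 3 - 1 =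
        (z - (α : ℂ)) * (z - z2) * (z - conj z2) * (z - z3) * (z - conj z3)) ∧
      0 < z2.im ∧ 0 < z3.im ∧
      1.1032 ≤ ‖z2‖ ^ 2 ∧ ‖z2‖ ^ 2 ≤ 1.1034 ∧ 0.7329 ≤ ‖z3‖ ^ 2 ∧ ‖z3‖ ^ 2 ≤ 0.7332 ∧
      4.021 ≤ ‖z2 - 1‖ ^ 2 ∧ ‖z2 - 1‖ ^ 2 ≤ 4.022 ∧
      1.051 ≤ ‖z3 - 1‖ ^ 2 ∧ ‖z3 - 1‖ ^ 2 ≤ 1.052 := by
  obtain ⟨a1, a2⟩ := roots_alpha α hα
  obtain ⟨c, hc⟩ : ∃ c, c = α ^ 2 - 1 := ⟨_, rfl⟩
  obtain ⟨p, hp⟩ : ∃ p, p = α ^ 2 * c := ⟨_, rfl⟩
  have hap : α * p = 1 := by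
    rw [hp, hc]; linear_combination hα
  obtain ⟨c1, c2, p1, p2, s, s1, s2, hs⟩ := roots_resolvent α c p a1 a2 hc hap
  have hs0 : (0 : ℝ) ≤ s := le_trans (by norm_num) s1
  have hd1 : (0.37023 : ℝ) ^ 2 ≤ s ^ 2 - 4 * p := by
    have := pow_le_pow_left₀ (by norm_num) s1 2
    norm_num at this ⊢
    linarith
  have hd2 : s ^ 2 - 4 * p ≤ (0.37025 : ℝ) ^ 2 := by
    have := pow_le_pow_left₀ hs0 s2 2
    norm_num at this ⊢
    linarith
  obtain ⟨w, hw⟩ : ∃ w, w = Real.sqrt (s ^ 2 - 4 * p) := ⟨_, rfl⟩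
  have hw2 : w ^ 2 = s ^ 2 - 4 * p := by
    rw [hw]; exact Real.sq_sqrt (le_trans (by norm_num) hd1)
  have w1 : 0.37023 ≤ w := by rw [hw]; exact Real.le_sqrt_of_sq_le hd1
  have w2 : w ≤ 0.37025 := by
    rw [hw]; exact Real.sqrt_le_iff.2 ⟨by norm_num, hd2⟩
  have hw0 : w ≠ 0 := by intro h; rw [h] at w1; norm_num at w1
  obtain ⟨v, hv⟩ : ∃ v, v = (s + w) / 2 := ⟨_, rfl⟩
  obtain ⟨v', hv'⟩ : ∃ v', v' = (s - w) / 2 := ⟨_, rfl⟩
  obtain ⟨u, hu⟩ : ∃ u, u = α * (c - v) / w := ⟨_, rfl⟩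
  obtain ⟨u', hu'⟩ : ∃ u', u' = -α - u := ⟨_, rfl⟩
  have hU : u * w = α * (c - v) := by rw [hu]; field_simp
  have v1 : 1.103265 ≤ v := by rw [hv]; linarith
  have v2 : v ≤ 1.1032755 := by rw [hv]; linarith
  have v1' : 0.733025 ≤ v' := by rw [hv']; linarith
  have v2' : v' ≤ 0.7330355 := by rw [hv']; linarith
  have q1 : -0.710163 ≤ α * (c - v) := by
    have h1 : α * (v - c) ≤ 1.23650571 * 0.5743292 :=
      mul_le_mul a2.le (by linarith) (by linarith) (by norm_num)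
    norm_num at h1
    linarith
  have q2 : α * (c - v) ≤ -0.710147 := by
    have h1 : 1.2365057 * 0.5743186 ≤ α * (v - c) :=
      mul_le_mul a1.le (by linarith) (by norm_num) (by linarith)
    norm_num at h1
    linarith
  have u1 : -1.9182 ≤ u := by
    by_contra h
    push Not at h
    have h1 : 1.9182 * 0.37023 ≤ (-u) * w :=
      mul_le_mul (by linarith) w1 (by norm_num) (by linarith)
    norm_num at h1
    linarith
  have u2 : u ≤ -1.918 := by
    by_contra h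
    push Not at h
    have h1 : (-u) * w ≤ 1.918 * 0.37025 :=
      mul_le_mul (by linarith) w2 (by linarith) (by norm_num)
    norm_num at h1
    linarith
  have i1 : u + u' = -α := by rw [hu']; ring
  have i4 : v * v' = p := by
    rw [hv, hv']; linear_combination (-1 / 4) * hw2
  have i3 : u * v' + u' * v = -(α * c) := by
    rw [hu', hv']; rw [hv] at hU ⊢; linear_combination (-1) * hU
  have i2 : v + v' + u * u' = c := by
    have h0 : (s - c + u * (-α - u)) * w ^ 2 = 0 := by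
      rw [hv] at hU
      linear_combination (-(α * w + u * w + α * (c - (s + w) / 2))) * hU +
        ((s - c) + α ^ 2 / 4) * hw2 + hs + (c - s) * hp - α * hap
    have h1 : s - c + u * (-α - u) = 0 := by
      rcases mul_eq_zero.1 h0 with h | h
      · exact h
      · exact absurd h (pow_ne_zero 2 hw0)
    rw [hu', hv, hv']
    linear_combination h1
  have hd : 0 < 4 * v - u ^ 2 := by
    have : u ^ 2 ≤ (1.9182 : ℝ) ^ 2 := sq_le_sq' (by linarith) (by linarith)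
    norm_num at this
    linarith
  have hd' : 0 < 4 * v' - u' ^ 2 := by
    have e1 : 0.68 ≤ u' := by rw [hu']; linarith
    have e2 : u' ≤ 0.69 := by rw [hu']; linarith
    have : u' ^ 2 ≤ (0.69 : ℝ) ^ 2 := sq_le_sq' (by linarith) e2
    norm_num at this
    linarith
  obtain ⟨z2, y1, y2, y3, y4, y5⟩ := roots_pair u v hd
  obtain ⟨z3, x1, x2, x3, x4, x5⟩ := roots_pair u' v' hd'
  refine ⟨by linarith, by linarith, z2, z3, ?_, y1, x1, ?_, ?_, ?_, ?_, ?_, ?_, ?_, ?_⟩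
  · intro z
    have e2 : (z - z2) * (z - conj z2) = z ^ 2 - u * z + v := by
      linear_combination (-z) * y4 + y5
    have e3 : (z - z3) * (z - conj z3) = z ^ 2 - u' * z + v' := by
      linear_combination (-z) * x4 + x5
    have e : (z - (α : ℂ)) * (z - z2) * (z - conj z2) * (z - z3) * (z - conj z3) =
        (z - (α : ℂ)) * ((z - z2) * (z - conj z2)) * ((z - z3) * (z - conj z3)) := by ring
    rw [e, e2, e3]
    have j1 : (u : ℂ) + u' = -α := by exact_mod_cast congrArg Complex.ofReal i1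
    have j2 : (v : ℂ) + v' + u * u' = c := by exact_mod_cast congrArg Complex.ofReal i2
    have j3 : (u : ℂ) * v' + u' * v = -(α * c) := by exact_mod_cast congrArg Complex.ofReal i3
    have j4 : (v : ℂ) * v' = p := by exact_mod_cast congrArg Complex.ofReal i4
    have j5 : (c : ℂ) = α ^ 2 - 1 := by exact_mod_cast congrArg Complex.ofReal hc
    have j6 : (α : ℂ) * p = 1 := by exact_mod_cast congrArg Complex.ofReal hap
    have j7 : (p : ℂ) = α ^ 2 * c := by exact_mod_cast congrArg Complex.ofReal hp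
    linear_combination (z - α) * (z ^ 3 * j1 - z ^ 2 * j2 + z * j3 - j4) - z ^ 3 * j5 - z * j7 + j6
  all_goals first
    | rw [y2]; linarith
    | rw [x2]; linarith
    | rw [y3]; linarith
    | rw [x3, hu']; linarith

end Pool.Agent.H67.Tent
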