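import Pool.Agent.H67.Tent.Defs
import Pool.Agent.H67.Tent.Roots
import Pool.Agent.H67.Tent.Norm

/-!
TE-12. The system attached to `α`.

Proof. `z2, z3` from `roots`; `a = (α, z2, z3)`, `b = a^4 + a^3 + 1`. At every root `z`:
`z^3 (z - 1) (z + 1) = 1`, so `1/(z-1) = z^4 + z^3` and `z/(z-1) = z^5 + z^4 = z^4 + z^3 + 1`;
thus `b.1 = α/(α-1)`, `b.2.1 = z2/(z2-1)`, `b.2.2 = z3/(z3-1)`. `Lam` is the range of the
additive homomorphism `c ↦ ∑ c_i a^i` from `Fin 5 → ℤ`; it is closed under multiplication by `a`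
because `a^5 = a^3 + 1`, hence also under multiplication by `b`. `norm_ge` is `norm_int`
(`c ≠ 0` as `z ≠ 0`). `prod_a`: evaluate the factorisation at `z = 0`; `prod_b`: evaluate at
`z = 0` and `z = 1` (`(α-1) ‖z2-1‖² ‖z3-1‖² = 1`). The inequalities are numerical, from the
bounds of `roots` (`‖b2‖² = ‖z2‖²/‖z2-1‖² = 0.27435`, `‖b3‖² = 0.69717`,
`a1⁻¹ ‖a2‖² + b1⁻¹ ‖b2‖² = 0.94472 ≤ 0.945`,
`a1⁻¹ ‖a3‖/‖a2‖ + b1⁻¹ ‖b3‖/‖b2‖ = 0.96411 ≤ 0.965`; the quotients of norms are square roots of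
`0.66442` and `2.5412`). The last clause: `norm_int`.
-/

set_option autoImplicit false

namespace Pool.Agent.H67.Tent

open ComplexConjugate

/-- The additive homomorphism `c ↦ ∑ c_i a^i`. -/
noncomputable def instHom (a : E) : (Fin 5 → ℤ) →+ E where
  toFun c := ∑ i, (c i : E) * a ^ (i : ℕ)
  map_zero' := by simp
  map_add' c d := by
    rw [← Finset.sum_add_distrib]
    refine Finset.sum_congr rfl fun i _ => ?_
    rw [Pi.add_apply]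
    push_cast
    ring

theorem instHom_apply (α : ℝ) (z2 z3 : ℂ) (c : Fin 5 → ℤ) :
    instHom (α, z2, z3) c = (∑ i, (c i : ℝ) * α ^ (i : ℕ),
      ∑ i, (c i : ℂ) * z2 ^ (i : ℕ), ∑ i, (c i : ℂ) * z3 ^ (i : ℕ)) := by
  show ∑ i, (c i : E) * ((α, z2, z3) : E) ^ (i : ℕ) = _
  refine Prod.ext ?_ (Prod.ext ?_ ?_)
  · rw [Prod.fst_sum]; rfl
  · rw [Prod.snd_sum, Prod.fst_sum]; rfl
  · rw [Prod.snd_sum, Prod.snd_sum]; rfl

theorem inst_a_mul {a : E} (ha : a ^ 5 = a ^ 3 + 1) (z : E) (hz : z ∈ (instHom a).range) :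
    a * z ∈ (instHom a).range := by
  obtain ⟨c, rfl⟩ := hz
  refine ⟨![c 4, c 0, c 1, c 2 + c 4, c 3], ?_⟩
  show ∑ i, ((![c 4, c 0, c 1, c 2 + c 4, c 3] : Fin 5 → ℤ) i : E) * a ^ (i : ℕ) =
    a * ∑ i, (c i : E) * a ^ (i : ℕ)
  simp only [Fin.sum_univ_five]
  simp only [Matrix.cons_val_zero, Matrix.cons_val_one, Matrix.cons_val, Fin.val_zero,
    Fin.val_one, Fin.val_two]
  have h3 : ((3 : Fin 5) : ℕ) = 3 := rfl
  have h4 : ((4 : Fin 5) : ℕ) = 4 := rfl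
  rw [h3, h4]
  push_cast
  linear_combination (-(c 4 : E)) * ha

theorem inst_b_mul {a : E} (ha : a ^ 5 = a ^ 3 + 1) (z : E) (hz : z ∈ (instHom a).range) :
    (a ^ 4 + a ^ 3 + 1) * z ∈ (instHom a).range := by
  have h1 := inst_a_mul ha z hz
  have h2 := inst_a_mul ha _ h1
  have h3 := inst_a_mul ha _ h2
  have h4 := inst_a_mul ha _ h3
  have := add_mem (add_mem h4 h3) hz
  have e : (a ^ 4 + a ^ 3 + 1) * z = a * (a * (a * (a * z))) + a * (a * (a * z)) + z := by ring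
  rw [e]
  exact this

theorem exists_sys (α : ℝ) (hα : α ^ 5 - α ^ 3 - 1 = 0) : ∃ S : Sys,
    S.a.1 = α ∧ S.b.1 = α / (α - 1) ∧
    (∀ z : E, z ∈ S.Lam ↔ ∃ c : Fin 5 → ℤ, z = (∑ i, (c i : ℝ) * α ^ (i : ℕ),
      ∑ i, (c i : ℂ) * S.a.2.1 ^ (i : ℕ), ∑ i, (c i : ℂ) * S.a.2.2 ^ (i : ℕ))) ∧
    (∀ z : ℂ, z ^ 5 - z ^ 3 - 1 = 0 ↔
      z = α ∨ z = S.a.2.1 ∨ z = conj S.a.2.1 ∨ z = S.a.2.2 ∨ z = conj S.a.2.2) ∧
    (∀ c : Fin 5 → ℤ, ∑ i, (c i : ℝ) * α ^ (i : ℕ) = 0 → c = 0) := by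
  obtain ⟨ha1, ha2, z2, z3, hf, him2, him3, l2, u2, l3, u3, l2', u2', l3', u3'⟩ := roots α hα
  have h23 : z2 ≠ z3 := by
    rintro rfl
    linarith
  have hz2 : z2 ^ 5 - z2 ^ 3 - 1 = 0 := by rw [hf]; ring
  have hz3 : z3 ^ 5 - z3 ^ 3 - 1 = 0 := by rw [hf]; ring
  have hapos : 0 < α := by linarith
  have ha1pos : 0 < α - 1 := by linarith
  set A : E := (α, z2, z3) with hA
  have hA5 : A ^ 5 = A ^ 3 + 1 := by
    refine Prod.ext ?_ (Prod.ext ?_ ?_)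
    · show α ^ 5 = α ^ 3 + 1
      linarith
    · show z2 ^ 5 = z2 ^ 3 + 1
      linear_combination hz2
    · show z3 ^ 5 = z3 ^ 3 + 1
      linear_combination hz3
  have hb1 : α ^ 4 + α ^ 3 + 1 = α / (α - 1) := by
    rw [eq_div_iff ha1pos.ne']
    linear_combination hα
  have hb2 : (z2 ^ 4 + z2 ^ 3 + 1) * (z2 - 1) = z2 := by linear_combination hz2
  have hb3 : (z3 ^ 4 + z3 ^ 3 + 1) * (z3 - 1) = z3 := by linear_combination hz3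
  have n2 : ‖z2 ^ 4 + z2 ^ 3 + 1‖ ^ 2 * ‖z2 - 1‖ ^ 2 = ‖z2‖ ^ 2 := by
    rw [← mul_pow, ← norm_mul, hb2]
  have n3 : ‖z3 ^ 4 + z3 ^ 3 + 1‖ ^ 2 * ‖z3 - 1‖ ^ 2 = ‖z3‖ ^ 2 := by
    rw [← mul_pow, ← norm_mul, hb3]
  have B2u : ‖z2 ^ 4 + z2 ^ 3 + 1‖ ^ 2 ≤ 0.27442 := by
    nlinarith [sq_nonneg ‖z2 ^ 4 + z2 ^ 3 + 1‖]
  have B2l : 0.27428 ≤ ‖z2 ^ 4 + z2 ^ 3 + 1‖ ^ 2 := by
    nlinarith [sq_nonneg ‖z2 ^ 4 + z2 ^ 3 + 1‖]
  have B3u : ‖z3 ^ 4 + z3 ^ 3 + 1‖ ^ 2 ≤ 0.69764 := by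
    nlinarith [sq_nonneg ‖z3 ^ 4 + z3 ^ 3 + 1‖]
  have hprod0 : α * ‖z2‖ ^ 2 * ‖z3‖ ^ 2 = 1 := by
    have h := hf 0
    have e2 : z2 * conj z2 = ((‖z2‖ ^ 2 : ℝ) : ℂ) := by
      rw [Complex.mul_conj, Complex.normSq_eq_norm_sq]
    have e3 : z3 * conj z3 = ((‖z3‖ ^ 2 : ℝ) : ℂ) := by
      rw [Complex.mul_conj, Complex.normSq_eq_norm_sq]
    have : ((α * ‖z2‖ ^ 2 * ‖z3‖ ^ 2 : ℝ) : ℂ) = 1 := by
      rw [Complex.ofReal_mul, Complex.ofReal_mul, ← e2, ← e3]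
      linear_combination h
    exact_mod_cast this
  have hprod1 : (α - 1) * ‖z2 - 1‖ ^ 2 * ‖z3 - 1‖ ^ 2 = 1 := by
    have h := hf 1
    have e2 : (z2 - 1) * (conj z2 - 1) = ((‖z2 - 1‖ ^ 2 : ℝ) : ℂ) := by
      rw [← Complex.normSq_eq_norm_sq, ← Complex.mul_conj, map_sub, map_one]
    have e3 : (z3 - 1) * (conj z3 - 1) = ((‖z3 - 1‖ ^ 2 : ℝ) : ℂ) := by
      rw [← Complex.normSq_eq_norm_sq, ← Complex.mul_conj, map_sub, map_one]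
    have : (((α - 1) * ‖z2 - 1‖ ^ 2 * ‖z3 - 1‖ ^ 2 : ℝ) : ℂ) = 1 := by
      rw [Complex.ofReal_mul, Complex.ofReal_mul, ← e2, ← e3]
      push_cast
      linear_combination h
    exact_mod_cast this
  have hainv : α⁻¹ ≤ 0.80874 := by
    rw [inv_le_comm₀ hapos (by norm_num)]
    linarith [show (0.80874 : ℝ)⁻¹ ≤ 1.2365 by norm_num]
  have hainv0 : 0 < α⁻¹ := inv_pos.2 hapos
  have hbinv : (α / (α - 1))⁻¹ = 1 - α⁻¹ := by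
    rw [inv_div]
    field_simp
  have hbinvu : (α / (α - 1))⁻¹ ≤ 0.19134 := by
    rw [hbinv]
    have : (0.80866 : ℝ) ≤ α⁻¹ := by
      rw [le_inv_comm₀ (by norm_num) hapos]
      linarith [show (1.2366 : ℝ) ≤ (0.80866 : ℝ)⁻¹ by norm_num]
    linarith
  have hbinv0 : 0 < (α / (α - 1))⁻¹ := inv_pos.2 (div_pos hapos ha1pos)
  have nz2 : 0 ≤ ‖z2‖ := norm_nonneg _
  have nz3 : 0 ≤ ‖z3‖ := norm_nonneg _
  have nb2 : 0 ≤ ‖z2 ^ 4 + z2 ^ 3 + 1‖ := norm_nonneg _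
  have nb3 : 0 ≤ ‖z3 ^ 4 + z3 ^ 3 + 1‖ := norm_nonneg _
  have hz2ge : 1 ≤ ‖z2‖ := by nlinarith
  have hb2ge : 1 / 2 ≤ ‖z2 ^ 4 + z2 ^ 3 + 1‖ := by nlinarith
  have q1 : ‖z3‖ / ‖z2‖ ≤ 0.8153 := by
    rw [div_le_iff₀ (by linarith)]
    refine (sq_le_sq₀ (by positivity) (by positivity)).1 ?_
    rw [mul_pow]
    nlinarith
  have q2 : ‖z3 ^ 4 + z3 ^ 3 + 1‖ / ‖z2 ^ 4 + z2 ^ 3 + 1‖ ≤ 1.595 := by
    rw [div_le_iff₀ (by linarith)]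
    refine (sq_le_sq₀ (by positivity) (by positivity)).1 ?_
    rw [mul_pow]
    nlinarith
  let S : Sys :=
    { a := A
      b := A ^ 4 + A ^ 3 + 1
      Lam := (instHom A).range
      one_mem := by
        refine ⟨![1, 0, 0, 0, 0], ?_⟩
        show ∑ i, ((![1, 0, 0, 0, 0] : Fin 5 → ℤ) i : E) * A ^ (i : ℕ) = 1
        simp [Fin.sum_univ_five]
      a_mul_mem := inst_a_mul hA5
      b_mul_mem := inst_b_mul hA5
      norm_ge := by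
        rintro z ⟨c, rfl⟩ hz
        rw [hA, instHom_apply] at hz ⊢
        apply norm_int α z2 z3 hf him2 him3 h23 c
        rintro rfl
        apply hz
        simp
      a1_gt := by show 6 / 5 < α; linarith
      a1_lt := by show α < 5 / 4; linarith
      b1_gt := by
        show 5 < α ^ 4 + α ^ 3 + 1
        rw [hb1, lt_div_iff₀ ha1pos]; linarith
      b1_lt := by
        show α ^ 4 + α ^ 3 + 1 < 53 / 10
        rw [hb1, div_lt_iff₀ ha1pos]; linarith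
      inv_add := by
        show α⁻¹ + (α ^ 4 + α ^ 3 + 1)⁻¹ = 1
        rw [hb1, hbinv]; ring
      prod_a := hprod0
      prod_b := by
        show (α ^ 4 + α ^ 3 + 1) * ‖z2 ^ 4 + z2 ^ 3 + 1‖ ^ 2 * ‖z3 ^ 4 + z3 ^ 3 + 1‖ ^ 2 = 1
        have h1 : (α ^ 4 + α ^ 3 + 1) * (α - 1) = α := by linear_combination hα
        calc _ = (α ^ 4 + α ^ 3 + 1) * ‖z2 ^ 4 + z2 ^ 3 + 1‖ ^ 2 * ‖z3 ^ 4 + z3 ^ 3 + 1‖ ^ 2 *
              ((α - 1) * ‖z2 - 1‖ ^ 2 * ‖z3 - 1‖ ^ 2) := by rw [hprod1, mul_one]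
          _ = ((α ^ 4 + α ^ 3 + 1) * (α - 1)) * (‖z2 ^ 4 + z2 ^ 3 + 1‖ ^ 2 * ‖z2 - 1‖ ^ 2) *
              (‖z3 ^ 4 + z3 ^ 3 + 1‖ ^ 2 * ‖z3 - 1‖ ^ 2) := by ring
          _ = 1 := by rw [h1, n2, n3, hprod0]
      a2_ge := hz2ge
      b2_ge := hb2ge
      b2_le := by
        show ‖z2 ^ 4 + z2 ^ 3 + 1‖ ^ 2 ≤ 7 / 25
        linarith
      a3_le := by
        show ‖z3‖ ≤ 6 / 7
        refine (sq_le_sq₀ (by positivity) (by norm_num)).1 ?_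
        linarith [show (0.7332 : ℝ) ≤ (6 / 7) ^ 2 by norm_num]
      b3_le := by
        show ‖z3 ^ 4 + z3 ^ 3 + 1‖ ≤ 6 / 7
        refine (sq_le_sq₀ (by positivity) (by norm_num)).1 ?_
        linarith [show (0.69764 : ℝ) ≤ (6 / 7) ^ 2 by norm_num]
      kap := by
        show α⁻¹ * ‖z2‖ ^ 2 + (α ^ 4 + α ^ 3 + 1)⁻¹ * ‖z2 ^ 4 + z2 ^ 3 + 1‖ ^ 2 ≤ 189 / 200
        rw [hb1]
        have e1 : α⁻¹ * ‖z2‖ ^ 2 ≤ 0.80874 * 1.1034 :=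
          mul_le_mul hainv u2 (sq_nonneg _) (by norm_num)
        have e2 : (α / (α - 1))⁻¹ * ‖z2 ^ 4 + z2 ^ 3 + 1‖ ^ 2 ≤ 0.19134 * 0.27442 :=
          mul_le_mul hbinvu B2u (sq_nonneg _) (by norm_num)
        linarith [show (0.80874 : ℝ) * 1.1034 + 0.19134 * 0.27442 ≤ 189 / 200 by norm_num]
      lam := by
        show α⁻¹ * (‖z3‖ / ‖z2‖) + (α ^ 4 + α ^ 3 + 1)⁻¹ *
          (‖z3 ^ 4 + z3 ^ 3 + 1‖ / ‖z2 ^ 4 + z2 ^ 3 + 1‖) ≤ 193 / 200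
        rw [hb1]
        have e1 : α⁻¹ * (‖z3‖ / ‖z2‖) ≤ 0.80874 * 0.8153 :=
          mul_le_mul hainv q1 (by positivity) (by norm_num)
        have e2 : (α / (α - 1))⁻¹ * (‖z3 ^ 4 + z3 ^ 3 + 1‖ / ‖z2 ^ 4 + z2 ^ 3 + 1‖) ≤
            0.19134 * 1.595 := mul_le_mul hbinvu q2 (by positivity) (by norm_num)
        linarith [show (0.80874 : ℝ) * 0.8153 + 0.19134 * 1.595 ≤ 193 / 200 by norm_num] }
  refine ⟨S, rfl, hb1, fun z => ?_, fun z => ?_, fun c hc => ?_⟩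
  · show z ∈ (instHom A).range ↔ _
    rw [AddMonoidHom.mem_range]
    constructor
    · rintro ⟨c, rfl⟩
      exact ⟨c, by rw [hA, instHom_apply]⟩
    · rintro ⟨c, rfl⟩
      exact ⟨c, by rw [hA, instHom_apply]⟩
  · show _ ↔ z = α ∨ z = z2 ∨ z = conj z2 ∨ z = z3 ∨ z = conj z3
    rw [hf z]
    simp only [mul_eq_zero, sub_eq_zero, or_assoc]
  · by_contra hne
    have := norm_int α z2 z3 hf him2 him3 h23 c hne
    rw [hc] at this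
    norm_num at this

end Pool.Agent.H67.Tent
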