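import Mathlib

/-!
TE-13. Lower bound for the number of lattice points (pigeonhole).

Proof. All roots have absolute value at most `2` (`|z|^5 ≤ |z|^3 + 1`), also `1 < α < 2`. Let
`M = ⌊R / 64⌋₊`. The `(M+1)^5` vectors `c` with entries in `{0, …, M}` have
`∑ c_i α^i ∈ [0, 31 M]`. Cover `[0, 31 M]` by the `31 M + 1`
intervals `[m, m+1)`; one of them contains the values of at least `(M+1)^5 / (31 M + 1)`
vectors. Let `c0` be one of them with the smallest value; the differences `c - c0` are distinct,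
`0 ≤ ∑ (c - c0)_i α^i ≤ 1` and `‖∑ (c - c0)_i z^i‖ ≤ 31 M ≤ R`. And
`(M+1)^5/(31 M + 1) ≥ (M+1)^4 / 31 ≥ (R/64)^4 / 31`.
-/

set_option autoImplicit false

namespace Pool.Agent.H67.Tent

theorem total_norm (z : ℂ) (hz : z ^ 5 - z ^ 3 - 1 = 0) : ‖z‖ ≤ 2 := by
  by_contra hcon
  push Not at hcon
  have h1 : z ^ 5 = z ^ 3 + 1 := by linear_combination hz
  have h2 : ‖z‖ ^ 5 ≤ ‖z‖ ^ 3 + 1 := by
    calc ‖z‖ ^ 5 = ‖z ^ 5‖ := (norm_pow _ _).symm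
      _ = ‖z ^ 3 + 1‖ := by rw [h1]
      _ ≤ ‖z ^ 3‖ + ‖(1 : ℂ)‖ := norm_add_le _ _
      _ = ‖z‖ ^ 3 + 1 := by rw [norm_pow, norm_one]
  have h3 : (4 : ℝ) ≤ ‖z‖ ^ 2 := by nlinarith
  have h4 : (8 : ℝ) ≤ ‖z‖ ^ 3 := by
    have : (2 : ℝ) ^ 3 ≤ ‖z‖ ^ 3 := pow_le_pow_left₀ (by norm_num) hcon.le 3
    linarith
  have h5 : ‖z‖ ^ 5 = ‖z‖ ^ 2 * ‖z‖ ^ 3 := by ring
  nlinarith

theorem total_alpha (α : ℝ) (hα : α ^ 5 - α ^ 3 - 1 = 0) : 0 ≤ α ∧ α ≤ 2 := by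
  have h1 := total_norm (α : ℂ) (by exact_mod_cast congrArg (fun t : ℝ => (t : ℂ)) hα)
  rw [Complex.norm_real, Real.norm_eq_abs, abs_le] at h1
  refine ⟨?_, h1.2⟩
  by_contra hneg
  push Not at hneg
  -- b = -α > 0, b^3 - b^5 = 1
  have h2 : (-α) ^ 3 * (1 - (-α) ^ 2) = 1 := by linear_combination -hα * (-1)
  have hpos : 0 < -α := by linarith
  have h3 : 0 < (-α) ^ 3 := by positivity
  have h4 : 0 < 1 - (-α) ^ 2 := by
    by_contra h5
    push Not at h5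
    nlinarith
  have h5 : (-α) ^ 2 < 1 := by linarith
  have h6 : -α < 1 := by nlinarith
  have h7 : (-α) ^ 3 ≤ 1 := pow_le_one₀ (by linarith) h6.le
  have h8 : 0 < (-α) ^ 2 := by positivity
  nlinarith

theorem total (α : ℝ) (hα : α ^ 5 - α ^ 3 - 1 = 0) : ∃ C : ℝ, 0 < C ∧ ∀ R : ℝ, 1 ≤ R →
    ∃ X : Finset (Fin 5 → ℤ), R ^ 4 / C ≤ (X.card : ℝ) ∧
      ∀ c ∈ X, 0 ≤ ∑ i, (c i : ℝ) * α ^ (i : ℕ) ∧ ∑ i, (c i : ℝ) * α ^ (i : ℕ) ≤ 1 ∧
        ∀ z : ℂ, z ^ 5 - z ^ 3 - 1 = 0 → ‖∑ i, (c i : ℂ) * z ^ (i : ℕ)‖ ≤ R := by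
  classical
  obtain ⟨ha0, ha2⟩ := total_alpha α hα
  refine ⟨64 ^ 4 * 31, by norm_num, fun R hR => ?_⟩
  set M : ℕ := ⌊R / 64⌋₊ with hM
  have hM1 : (M : ℝ) ≤ R / 64 := Nat.floor_le (by positivity)
  have hM2 : R / 64 < M + 1 := Nat.lt_floor_add_one _
  have hM0 : (0 : ℝ) ≤ M := Nat.cast_nonneg _
  let f : (Fin 5 → Fin (M + 1)) → ℝ := fun c => ∑ i, ((c i : ℕ) : ℝ) * α ^ (i : ℕ)
  have hf0 : ∀ c, 0 ≤ f c := fun c =>
    Finset.sum_nonneg fun i _ => mul_nonneg (Nat.cast_nonneg _) (pow_nonneg ha0 _)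
  have hcM : ∀ (c : Fin 5 → Fin (M + 1)) i, ((c i : ℕ) : ℝ) ≤ M := by
    intro c i
    exact_mod_cast Nat.lt_succ_iff.mp (c i).isLt
  have hf1 : ∀ c, f c ≤ 31 * M := by
    intro c
    have h1 : f c ≤ ∑ i : Fin 5, (M : ℝ) * 2 ^ (i : ℕ) := by
      refine Finset.sum_le_sum fun i _ => ?_
      exact mul_le_mul (hcM c i) (pow_le_pow_left₀ ha0 ha2 _) (pow_nonneg ha0 _) hM0
    refine h1.trans (le_of_eq ?_)
    rw [Fin.sum_univ_five]
    simp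
    ring
  have hmaps : ∀ c ∈ (Finset.univ : Finset (Fin 5 → Fin (M + 1))),
      ⌊f c⌋₊ ∈ Finset.range (31 * M + 1) := by
    intro c _
    rw [Finset.mem_range, Nat.lt_succ_iff]
    have h1 : (⌊f c⌋₊ : ℝ) ≤ f c := Nat.floor_le (hf0 c)
    have h2 := hf1 c
    have h3 : (⌊f c⌋₊ : ℝ) ≤ ((31 * M : ℕ) : ℝ) := by push_cast; linarith
    exact_mod_cast h3
  have hcard : (Finset.univ : Finset (Fin 5 → Fin (M + 1))).card = (M + 1) ^ 5 := by
    rw [Finset.card_univ, Fintype.card_fun, Fintype.card_fin, Fintype.card_fin]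
  have hpos : (0 : ℝ) < 31 * M + 1 := by positivity
  obtain ⟨y, _, hy⟩ := Finset.exists_le_card_fiber_of_nsmul_le_card_of_maps_to
    (s := (Finset.univ : Finset (Fin 5 → Fin (M + 1)))) (t := Finset.range (31 * M + 1))
    (f := fun c => ⌊f c⌋₊) (b := ((M : ℝ) + 1) ^ 5 / (31 * M + 1)) hmaps ⟨0, by simp⟩ (by
      rw [Finset.card_range, nsmul_eq_mul, hcard]
      push_cast
      rw [mul_div_cancel₀ _ hpos.ne'])
  set S := (Finset.univ : Finset (Fin 5 → Fin (M + 1))).filter (fun c => ⌊f c⌋₊ = y) with hS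
  have hSpos : (0 : ℝ) < S.card := lt_of_lt_of_le (by positivity) hy
  have hSne : S.Nonempty := by
    rw [← Finset.card_pos]
    exact_mod_cast hSpos
  obtain ⟨c0, hc0, hmin⟩ := S.exists_min_image f hSne
  let g : (Fin 5 → Fin (M + 1)) → (Fin 5 → ℤ) := fun c i => ((c i : ℕ) : ℤ) - ((c0 i : ℕ) : ℤ)
  have hg : Function.Injective g := by
    intro c c' h
    funext i
    have h1 := congrFun h i
    simp only [g] at h1
    apply Fin.ext
    omega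
  refine ⟨S.image g, ?_, ?_⟩
  · rw [Finset.card_image_of_injective S hg]
    refine le_trans ?_ hy
    rw [div_le_div_iff₀ (by norm_num) hpos]
    have h1 : (R / 64) ^ 4 ≤ ((M : ℝ) + 1) ^ 4 := pow_le_pow_left₀ (by positivity) hM2.le 4
    have h2 : R ^ 4 ≤ 64 ^ 4 * ((M : ℝ) + 1) ^ 4 := by
      have e : R ^ 4 = 64 ^ 4 * (R / 64) ^ 4 := by ring
      rw [e]
      exact mul_le_mul_of_nonneg_left h1 (by norm_num)
    have h3 : 31 * (M : ℝ) + 1 ≤ 31 * (M + 1) := by linarith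
    calc R ^ 4 * (31 * (M : ℝ) + 1) ≤ 64 ^ 4 * ((M : ℝ) + 1) ^ 4 * (31 * (M + 1)) :=
          mul_le_mul h2 h3 hpos.le (by positivity)
      _ = ((M : ℝ) + 1) ^ 5 * (64 ^ 4 * 31) := by ring
  · intro c' hc'
    rw [Finset.mem_image] at hc'
    obtain ⟨c, hc, rfl⟩ := hc'
    have e : ∑ i, (g c i : ℝ) * α ^ (i : ℕ) = f c - f c0 := by
      simp only [f, g]
      rw [← Finset.sum_sub_distrib]
      refine Finset.sum_congr rfl fun i _ => ?_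
      push_cast
      ring
    rw [e]
    have h1 : (⌊f c⌋₊ : ℝ) ≤ f c := Nat.floor_le (hf0 c)
    have h2 : f c < ⌊f c⌋₊ + 1 := Nat.lt_floor_add_one _
    have h3 : (⌊f c0⌋₊ : ℝ) ≤ f c0 := Nat.floor_le (hf0 c0)
    rw [(Finset.mem_filter.mp hc).2] at h1 h2
    rw [(Finset.mem_filter.mp hc0).2] at h3
    refine ⟨sub_nonneg.mpr (hmin c hc), by linarith, fun z hz => ?_⟩
    have hz2 := total_norm z hz
    refine (norm_sum_le _ _).trans ?_
    have h4 : ∀ i : Fin 5, ‖((g c i : ℤ) : ℂ) * z ^ (i : ℕ)‖ ≤ (M : ℝ) * 2 ^ (i : ℕ) := by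
      intro i
      rw [norm_mul, norm_pow, Complex.norm_intCast]
      refine mul_le_mul ?_ (pow_le_pow_left₀ (norm_nonneg _) hz2 _) (by positivity) hM0
      simp only [g]
      push_cast
      rw [abs_le]
      have h5 := hcM c i
      have h6 := hcM c0 i
      have h7 : (0 : ℝ) ≤ ((c i : ℕ) : ℝ) := Nat.cast_nonneg _
      have h8 : (0 : ℝ) ≤ ((c0 i : ℕ) : ℝ) := Nat.cast_nonneg _
      constructor <;> linarith
    refine (Finset.sum_le_sum fun i _ => h4 i).trans ?_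
    rw [Fin.sum_univ_five]
    simp
    linarith

end Pool.Agent.H67.Tent
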