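import Pool.Agent.H67.Tent.Defs

/-!
TE-3. First passage in the second coordinate: bounds for slope and offset.

`off2_le`: induction on `n` for all `z`. `itin (n+1) z = dig z :: itin n (T z)`, so with
`w = itin n (T z)`: `off (itin (n+1) z) = off w + mul w * loff (dig z)`. `FP s n (T z)` holds,
so `‖(off w).2.1‖ ≤ 2 N n`. If `n ≥ 1` then `s < ‖(T z).2.1‖` and, by `iter_eq`,
`‖(mul w).2.1‖ * ‖(T z).2.1‖ ≤ s + 2 N n ≤ 2 s`, so `‖(mul w).2.1‖ ≤ 2`; if `n = 0`, `mul w = 1`.
Finally `‖(loff c).2.1‖ ≤ N ‖b2‖ ≤ N` (`S.b2_le`).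

`mul2_ge`: `n = m + 1`, `v = T^[m] z` has `s < ‖v.2.1‖`, and `T v = a * v` or `b * (N - v)`, so
`‖(T v).2.1‖ ≥ (s - N) / 2` (`S.a2_ge`, `S.b2_ge`). With `iter_eq` and `off2_le`,
`‖(mul w).2.1‖ * R ≥ (s - N) / 2 - 2 N n ≥ s / 4`.

`mul3_le`: each letter contributes at most `6/7`. `off3_le`: show
`‖(off w).2.2‖ ≤ 6 N (1 - (6/7)^w.length)` by induction.
-/

set_option autoImplicit false

namespace Pool.Agent.H67.Tent

/-- First passage (of the second coordinate) below `s` at time `n`. -/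
def FP (S : Sys) (N : ℕ) (s : ℝ) (n : ℕ) (z : E) : Prop :=
  (∀ t < n, s < ‖((T S N)^[t] z).2.1‖) ∧ ‖((T S N)^[n] z).2.1‖ ≤ s

theorem pass_b2 (S : Sys) : ‖S.b.2.1‖ ≤ 1 := by
  have h := S.b2_le
  have h0 := norm_nonneg S.b.2.1
  nlinarith

theorem pass_loff2 (S : Sys) (N : ℕ) (c : Bool) : ‖(loff S N c).2.1‖ ≤ N := by
  unfold loff
  cases c
  · simp
  · simp only [if_true, Prod.snd_mul, Prod.fst_mul, Prod.snd_natCast, Prod.fst_natCast, norm_mul,
      Complex.norm_natCast]
    have h := pass_b2 S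
    have h0 : (0 : ℝ) ≤ N := Nat.cast_nonneg N
    nlinarith

theorem pass_loff3 (S : Sys) (N : ℕ) (c : Bool) : ‖(loff S N c).2.2‖ ≤ N * (6 / 7) := by
  unfold loff
  cases c
  · simp only [Bool.false_eq_true, if_false, Prod.snd_zero, norm_zero]
    positivity
  · simp only [if_true, Prod.snd_mul, Prod.snd_natCast, norm_mul, Complex.norm_natCast]
    exact mul_le_mul_of_nonneg_left S.b3_le (Nat.cast_nonneg N)

theorem off2_le (S : Sys) (N : ℕ) (s : ℝ) (n : ℕ) (z : E) (h : FP S N s n z)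
    (hs : 2 * N * n ≤ s) : ‖(off S N (itin S N n z)).2.1‖ ≤ 2 * N * n := by
  induction n generalizing z with
  | zero => simp [itin, off]
  | succ n ih =>
    have hN0 : (0 : ℝ) ≤ N := Nat.cast_nonneg N
    have hn0 : (0 : ℝ) ≤ n := Nat.cast_nonneg n
    push_cast at hs ⊢
    have hFP : FP S N s n (T S N z) := by
      refine ⟨fun t ht => ?_, ?_⟩
      · have := h.1 (t + 1) (by omega)
        rwa [Function.iterate_succ_apply] at this
      · have := h.2
        rwa [Function.iterate_succ_apply] at this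
    have hs' : 2 * (N : ℝ) * n ≤ s := by nlinarith
    have h1 := ih (T S N z) hFP hs'
    have h2 : (off S N (itin S N (n + 1) z)).2.1 = (off S N (itin S N n (T S N z))).2.1 +
        (mul S (itin S N n (T S N z))).2.1 * (loff S N (dig S N z)).2.1 := by
      rw [itin, off]
      rfl
    have h3 : ‖(mul S (itin S N n (T S N z))).2.1‖ ≤ 2 := by
      rcases Nat.eq_zero_or_pos n with h0 | h0
      · subst h0
        simp [itin, mul]
      · have h4 : s < ‖(T S N z).2.1‖ := hFP.1 0 h0
        have h5 : ((T S N)^[n] (T S N z)).2.1 =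
            (mul S (itin S N n (T S N z))).2.1 * (T S N z).2.1 +
              (off S N (itin S N n (T S N z))).2.1 := by
          rw [iter_eq]
          rfl
        have h6 : ‖(mul S (itin S N n (T S N z))).2.1‖ * ‖(T S N z).2.1‖ ≤ s + 2 * N * n := by
          rw [← norm_mul]
          have h7 : (mul S (itin S N n (T S N z))).2.1 * (T S N z).2.1 =
              ((T S N)^[n] (T S N z)).2.1 - (off S N (itin S N n (T S N z))).2.1 := by
            rw [h5]; ring
          rw [h7]
          exact (norm_sub_le _ _).trans (add_le_add hFP.2 h1)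
        have h8 : 0 < ‖(T S N z).2.1‖ := by
          have : 0 ≤ 2 * (N : ℝ) * n := by positivity
          linarith
        by_contra h9
        push Not at h9
        have h10 : 2 * ‖(T S N z).2.1‖ <
            ‖(mul S (itin S N n (T S N z))).2.1‖ * ‖(T S N z).2.1‖ :=
          mul_lt_mul_of_pos_right h9 h8
        linarith
    rw [h2]
    calc _ ≤ ‖(off S N (itin S N n (T S N z))).2.1‖ +
          ‖(mul S (itin S N n (T S N z))).2.1‖ * ‖(loff S N (dig S N z)).2.1‖ := by
          rw [← norm_mul]; exact norm_add_le _ _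
      _ ≤ 2 * N * n + 2 * N :=
          add_le_add h1 (mul_le_mul h3 (pass_loff2 S N _) (norm_nonneg _) (by norm_num))
      _ = _ := by ring

theorem mul2_ge (S : Sys) (N : ℕ) (s R : ℝ) (n : ℕ) (z : E) (hn : 1 ≤ n) (hN : 1 ≤ N)
    (h : FP S N s n z) (hs : 10 * N * n ≤ s) (hR : ‖z.2.1‖ ≤ R) :
    s ≤ 4 * R * ‖(mul S (itin S N n z)).2.1‖ := by
  have hN1 : (1 : ℝ) ≤ N := by exact_mod_cast hN
  have hn1 : (1 : ℝ) ≤ n := by exact_mod_cast hn
  have hNn : (N : ℝ) ≤ N * n := by nlinarith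
  have h1 := off2_le S N s n z h (by nlinarith)
  obtain ⟨m, rfl⟩ : ∃ m, n = m + 1 := ⟨n - 1, by omega⟩
  have h2 : s < ‖((T S N)^[m] z).2.1‖ := h.1 m (by omega)
  have h3 : (s - N) / 2 ≤ ‖((T S N)^[m + 1] z).2.1‖ := by
    rw [Function.iterate_succ_apply']
    generalize (T S N)^[m] z = v at h2
    unfold T
    split_ifs with h4
    · rw [Prod.snd_mul, Prod.fst_mul, norm_mul]
      have := S.a2_ge
      have h5 := norm_nonneg v.2.1
      nlinarith
    · rw [Prod.snd_mul, Prod.fst_mul, norm_mul]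
      have h5 := S.b2_ge
      have h6 : s - N ≤ ‖((N : E) - v).2.1‖ := by
        have h7 : ((N : E) - v).2.1 = (N : ℂ) - v.2.1 := rfl
        rw [h7]
        have h8 := norm_sub_norm_le v.2.1 (N : ℂ)
        rw [Complex.norm_natCast] at h8
        rw [norm_sub_rev]
        linarith
      have h9 := norm_nonneg ((N : E) - v).2.1
      nlinarith
  have h4 : ((T S N)^[m + 1] z).2.1 = (mul S (itin S N (m + 1) z)).2.1 * z.2.1 +
      (off S N (itin S N (m + 1) z)).2.1 := by
    rw [iter_eq]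
    rfl
  rw [h4] at h3
  have h5 : ‖(mul S (itin S N (m + 1) z)).2.1 * z.2.1 + (off S N (itin S N (m + 1) z)).2.1‖ ≤
      ‖(mul S (itin S N (m + 1) z)).2.1‖ * R + 2 * N * ((m + 1 : ℕ) : ℝ) := by
    refine (norm_add_le _ _).trans (add_le_add ?_ h1)
    rw [norm_mul]
    exact mul_le_mul_of_nonneg_left hR (norm_nonneg _)
  nlinarith

theorem mul3_le (S : Sys) (w : List Bool) : ‖(mul S w).2.2‖ ≤ (6 / 7) ^ w.length := by
  rw [mul_norm3, ← count_add w, pow_add]
  exact mul_le_mul (pow_le_pow_left₀ (norm_nonneg _) S.a3_le _)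
    (pow_le_pow_left₀ (norm_nonneg _) S.b3_le _) (pow_nonneg (norm_nonneg _) _) (by positivity)

theorem pass_off3 (S : Sys) (N : ℕ) (w : List Bool) :
    ‖(off S N w).2.2‖ ≤ 6 * N * (1 - (6 / 7) ^ w.length) := by
  induction w with
  | nil => simp [off]
  | cons c w ih =>
    have h2 : (off S N (c :: w)).2.2 = (off S N w).2.2 + (mul S w).2.2 * (loff S N c).2.2 := rfl
    rw [h2, List.length_cons, pow_succ]
    calc _ ≤ ‖(off S N w).2.2‖ + ‖(mul S w).2.2‖ * ‖(loff S N c).2.2‖ := by
          rw [← norm_mul]; exact norm_add_le _ _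
      _ ≤ 6 * N * (1 - (6 / 7) ^ w.length) + (6 / 7) ^ w.length * (N * (6 / 7)) :=
          add_le_add ih (mul_le_mul (mul3_le S w) (pass_loff3 S N c) (norm_nonneg _)
            (by positivity))
      _ = _ := by ring

theorem off3_le (S : Sys) (N : ℕ) (w : List Bool) : ‖(off S N w).2.2‖ ≤ 6 * N := by
  refine (pass_off3 S N w).trans ?_
  have h1 : (0 : ℝ) ≤ (6 / 7) ^ w.length := by positivity
  have h2 : (0 : ℝ) ≤ N := Nat.cast_nonneg N
  nlinarith

theorem itin_add (S : Sys) (N n m : ℕ) (z : E) :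
    itin S N (n + m) z = itin S N n z ++ itin S N m ((T S N)^[n] z) := by
  induction n generalizing z with
  | zero => simp [itin]
  | succ n ih =>
    have h1 : n + 1 + m = (n + m) + 1 := by ring
    rw [h1, itin, itin, ih, Function.iterate_succ_apply]
    rfl

theorem mul_append (S : Sys) (w v : List Bool) : mul S (w ++ v) = mul S v * mul S w := by
  induction w with
  | nil => simp [mul]
  | cons c w ih => rw [List.cons_append, mul, mul, ih, mul_assoc]

end Pool.Agent.H67.Tent
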