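import Pool.Agent.H67.Tent.Count
import Pool.Agent.H67.Tent.Pass

/-!
TE-5. Pointwise bound for the number of points with a given first passage point.

Proof. If `X` is empty the left side is `0`. Otherwise `k ≤ n`, and for all `x ∈ X` the word
`w = itin S N n x` has length `n` and `k` letters `true`, so (by `mul_eq_of_count`, `count_add`)
`m = mul S w` is the same for all `x ∈ X`; `A = ‖m.2.2‖ R3 = ‖a3‖^(n-k) ‖b3‖^k R3`
(`mul_norm3`). The map `x ↦ y - m * x = off S N w` (`iter_eq`) is injective on `X` (the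
coordinates of `m` are nonzero), with values in `Lam` (`off_mem`), and
* `|off.1| ≤ |y.1| + |m.1| |x.1| ≤ 2 N |m.1|` (`G_iter`, `mul_abs1_ge_one`),
* `‖off.2.1‖ ≤ 2 N n` (`off2_le`), `‖off.2.2‖ ≤ 6 N` (`off3_le`), `‖off.2.2 - y.2.2‖ ≤ A`.
By `count_box` with `δ = 4 N |m.1|`, `ρ2 = 2 N n` and `(c3, ρ3) = (0, 6 N)` or `(y.2.2, A)`:
`#X ≤ 128 * 4 N |m.1| * (2 N n)² * μ² + 18`, `μ = min (6 N) A`. Now
`μ² (A + 6 N)² ≤ 144 N² A²` and `(A + 6 N)² ≤ (7 N)² R3² ` (as `‖m.2.2‖ ≤ 1`, `R3 ≥ 1`), so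
`#X (A + 6N)² ≤ 2048 N³ n² * 144 N² |m.1| ‖m.2.2‖² R3² + 18 * 49 N² R3²`, and
`|m.1| ‖m.2.2‖² = ‖m.2.1‖⁻² ≤ (4 R2 / s)²` (`mul_prod`, `mul2_ge`), `1 ≤ 4 (R2 / s)²`.

Status: complete (helper26).
-/

set_option autoImplicit false

namespace Pool.Agent.H67.Tent

theorem fiber_real {N n A R2 R3 s μ1 μ2 μ3 c : ℝ} (hN : 1 ≤ N) (hn : 1 ≤ n) (hR3 : 1 ≤ R3)
    (hs0 : 0 < s) (hsR : s ≤ 2 * R2) (h1 : 0 < μ1) (h2 : 0 < μ2) (h3 : 0 < μ3) (h31 : μ3 ≤ 1)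
    (hp : μ1 * μ2 ^ 2 * μ3 ^ 2 = 1) (hs2 : s ≤ 4 * R2 * μ2) (hA : A = μ3 * R3) (hc0 : 0 ≤ c)
    (hc1 : c ≤ 128 * (4 * N * μ1) * (2 * N * n) ^ 2 * (6 * N) ^ 2 + 18)
    (hc2 : c ≤ 128 * (4 * N * μ1) * (2 * N * n) ^ 2 * A ^ 2 + 18) :
    c * (A + 6 * N) ^ 2 ≤ (144 * 2048 * 16 * N ^ 5 + 2592 * 4 * N ^ 2) * n ^ 2 * (R2 / s) ^ 2 *
      R3 ^ 2 := by
  have hA0 : 0 < A := by rw [hA]; positivity
  have hAR : A ≤ R3 := by
    rw [hA]
    nlinarith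
  have hR20 : 0 < R2 := by linarith
  set D : ℝ := 2048 * N ^ 3 * n ^ 2 * μ1 with hD
  have hD0 : 0 ≤ D := by positivity
  have hc1' : c ≤ D * (6 * N) ^ 2 + 18 := by
    refine hc1.trans (le_of_eq ?_)
    rw [hD]; ring
  have hc2' : c ≤ D * A ^ 2 + 18 := by
    refine hc2.trans (le_of_eq ?_)
    rw [hD]; ring
  have hN2 : 1 ≤ N ^ 2 := one_le_pow₀ hN
  have key : c * (A + 6 * N) ^ 2 ≤ 144 * N ^ 2 * (D * A ^ 2) + 2592 * N ^ 2 * R3 ^ 2 := by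
    have hA2 : A ^ 2 ≤ R3 ^ 2 := pow_le_pow_left₀ hA0.le hAR 2
    have hR32 : 1 ≤ R3 ^ 2 := one_le_pow₀ hR3
    rcases le_or_gt A (6 * N) with h | h
    · have e1 : (A + 6 * N) ^ 2 ≤ 144 * N ^ 2 := by nlinarith
      calc c * (A + 6 * N) ^ 2 ≤ (D * A ^ 2 + 18) * (144 * N ^ 2) :=
            mul_le_mul hc2' e1 (by positivity) (by positivity)
        _ = 144 * N ^ 2 * (D * A ^ 2) + 2592 * N ^ 2 * 1 := by ring
        _ ≤ _ := by
            have : 2592 * N ^ 2 * 1 ≤ 2592 * N ^ 2 * R3 ^ 2 :=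
              mul_le_mul_of_nonneg_left hR32 (by positivity)
            linarith
    · have e1 : (A + 6 * N) ^ 2 ≤ 4 * A ^ 2 := by nlinarith
      calc c * (A + 6 * N) ^ 2 ≤ (D * (6 * N) ^ 2 + 18) * (4 * A ^ 2) :=
            mul_le_mul hc1' e1 (by positivity) (by positivity)
        _ = 144 * N ^ 2 * (D * A ^ 2) + 72 * A ^ 2 := by ring
        _ ≤ _ := by
            have q1 : 72 * A ^ 2 ≤ 72 * R3 ^ 2 := by linarith
            have q2 : 72 * R3 ^ 2 ≤ 2592 * N ^ 2 * R3 ^ 2 :=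
              mul_le_mul_of_nonneg_right (by linarith) (by positivity)
            linarith
  have hm : μ1 * μ3 ^ 2 ≤ 16 * (R2 / s) ^ 2 := by
    rw [div_pow, ← mul_div_assoc, le_div_iff₀ (by positivity)]
    have q1 : s ^ 2 ≤ (4 * R2 * μ2) ^ 2 := pow_le_pow_left₀ hs0.le hs2 2
    calc μ1 * μ3 ^ 2 * s ^ 2 ≤ μ1 * μ3 ^ 2 * (4 * R2 * μ2) ^ 2 :=
          mul_le_mul_of_nonneg_left q1 (by positivity)
      _ = 16 * R2 ^ 2 * (μ1 * μ2 ^ 2 * μ3 ^ 2) := by ring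
      _ = 16 * R2 ^ 2 := by rw [hp, mul_one]
  have h4 : 1 ≤ 4 * n ^ 2 * (R2 / s) ^ 2 := by
    have q1 : 1 / 2 ≤ R2 / s := by rw [le_div_iff₀ hs0]; linarith
    have q2 : (1 / 2) ^ 2 ≤ (R2 / s) ^ 2 := pow_le_pow_left₀ (by norm_num) q1 2
    have q3 : 1 ≤ n ^ 2 := one_le_pow₀ hn
    nlinarith
  have h5 : D * A ^ 2 = 2048 * N ^ 3 * n ^ 2 * R3 ^ 2 * (μ1 * μ3 ^ 2) := by
    rw [hD, hA]; ring
  have h6 : D * A ^ 2 ≤ 2048 * N ^ 3 * n ^ 2 * R3 ^ 2 * (16 * (R2 / s) ^ 2) := by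
    rw [h5]
    exact mul_le_mul_of_nonneg_left hm (by positivity)
  have h7 : 144 * N ^ 2 * (D * A ^ 2) ≤
      144 * N ^ 2 * (2048 * N ^ 3 * n ^ 2 * R3 ^ 2 * (16 * (R2 / s) ^ 2)) :=
    mul_le_mul_of_nonneg_left h6 (by positivity)
  have h8 : 2592 * N ^ 2 * R3 ^ 2 ≤ 2592 * N ^ 2 * R3 ^ 2 * (4 * n ^ 2 * (R2 / s) ^ 2) :=
    le_mul_of_one_le_right (by positivity) h4
  calc c * (A + 6 * N) ^ 2 ≤ _ := key
    _ ≤ 144 * N ^ 2 * (2048 * N ^ 3 * n ^ 2 * R3 ^ 2 * (16 * (R2 / s) ^ 2)) +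
        2592 * N ^ 2 * R3 ^ 2 * (4 * n ^ 2 * (R2 / s) ^ 2) := add_le_add h7 h8
    _ = _ := by ring

theorem fiber (S : Sys) (N : ℕ) (hN : 1 ≤ N) : ∃ C : ℝ, 0 < C ∧
    ∀ (s R2 R3 : ℝ) (n k : ℕ) (y : E), 1 ≤ n → 10 * N * n ≤ s → s ≤ 2 * R2 → 1 ≤ R3 →
    ∀ X : Finset E, (∀ x ∈ X, G S N x ∧ ‖x.2.1‖ ≤ R2 ∧ ‖x.2.2‖ ≤ R3 ∧
      (T S N)^[n] x = y ∧ FP S N s n x ∧ (itin S N n x).count true = k) →
    (X.card : ℝ) * (‖S.a.2.2‖ ^ (n - k) * ‖S.b.2.2‖ ^ k * R3 + 6 * N) ^ 2 ≤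
      C * n ^ 2 * (R2 / s) ^ 2 * R3 ^ 2 := by
  classical
  have hN1 : (1 : ℝ) ≤ N := by exact_mod_cast hN
  refine ⟨144 * 2048 * 16 * (N : ℝ) ^ 5 + 2592 * 4 * (N : ℝ) ^ 2, by positivity, ?_⟩
  intro s R2 R3 n k y hn hs hsR hR3 X hX
  have hn1 : (1 : ℝ) ≤ n := by exact_mod_cast hn
  rcases X.eq_empty_or_nonempty with rfl | ⟨x0, hx0⟩
  · rw [Finset.card_empty, Nat.cast_zero, zero_mul]
    positivity
  have hs0 : 0 < s := by
    have : 0 < 10 * (N : ℝ) * n := by positivity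
    linarith
  set w0 := itin S N n x0 with hw0
  have hlen : ∀ x : E, (itin S N n x).length = n := itin_length S N n
  have hcount : ∀ x ∈ X, (itin S N n x).count false = n - k ∧ (itin S N n x).count true = k := by
    intro x hx
    have h1 := count_add (itin S N n x)
    rw [hlen, (hX x hx).2.2.2.2.2] at h1
    exact ⟨by omega, (hX x hx).2.2.2.2.2⟩
  set m := mul S w0 with hm
  have hmul : ∀ x ∈ X, mul S (itin S N n x) = m := by
    intro x hx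
    exact mul_eq_of_count S (by rw [(hcount x hx).1, (hcount x0 hx0).1])
      (by rw [(hcount x hx).2, (hcount x0 hx0).2])
  set f : E → E := fun x => off S N (itin S N n x) with hf
  have hfx : ∀ x ∈ X, m * x + f x = y := by
    intro x hx
    have h1 := iter_eq S N n x
    rw [hmul x hx, (hX x hx).2.2.2.1] at h1
    exact h1.symm
  have hm1 : 0 < |m.1| := mul_abs1_pos S w0
  have hm2 : 0 < ‖m.2.1‖ := mul_norm2_pos S w0
  have hm3 : 0 < ‖m.2.2‖ := mul_norm3_pos S w0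
  have hinj : Set.InjOn f X := by
    intro x hx x' hx' hxx
    have h1 := hfx x hx
    have h2 := hfx x' hx'
    rw [← h2, hxx] at h1
    have h3 : m * x = m * x' := add_right_cancel h1
    have h4 : m.1 ≠ 0 := abs_pos.1 hm1
    have h5 : m.2.1 ≠ 0 := norm_pos_iff.1 hm2
    have h6 : m.2.2 ≠ 0 := norm_pos_iff.1 hm3
    have q1 : m.1 * x.1 = m.1 * x'.1 := congrArg (fun z : E => z.1) h3
    have q2 : m.2.1 * x.2.1 = m.2.1 * x'.2.1 := congrArg (fun z : E => z.2.1) h3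
    have q3 : m.2.2 * x.2.2 = m.2.2 * x'.2.2 := congrArg (fun z : E => z.2.2) h3
    exact Prod.ext (mul_left_cancel₀ h4 q1)
      (Prod.ext (mul_left_cancel₀ h5 q2) (mul_left_cancel₀ h6 q3))
  have hcard : ((X.image f).card : ℝ) = X.card := by
    rw [Finset.card_image_of_injOn hinj]
  have hμ3 : ‖m.2.2‖ = ‖S.a.2.2‖ ^ (n - k) * ‖S.b.2.2‖ ^ k := by
    rw [hm, mul_norm3, (hcount x0 hx0).1, (hcount x0 hx0).2]
  have hμ31 : ‖m.2.2‖ ≤ 1 :=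
    (mul3_le S w0).trans (pow_le_one₀ (by norm_num) (by norm_num))
  have hge1 : 1 ≤ |m.1| := mul_abs1_ge_one S w0
  have hgy : G S N y := by
    rw [← (hX x0 hx0).2.2.2.1]
    exact G_iter S N (hX x0 hx0).1 n
  have hb1 : ∀ x ∈ X, -(2 * N * |m.1|) ≤ (f x).1 ∧
      (f x).1 ≤ -(2 * N * |m.1|) + 4 * N * |m.1| := by
    intro x hx
    have h1 : (f x).1 = y.1 - m.1 * x.1 := by
      have := congrArg (fun z : E => z.1) (hfx x hx)
      simp only [Prod.fst_add, Prod.fst_mul] at this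
      linarith
    have h2 : |m.1 * x.1| ≤ |m.1| * N := by
      rw [abs_mul]
      apply mul_le_mul_of_nonneg_left _ (abs_nonneg _)
      rw [abs_of_nonneg (hX x hx).1.2.1]
      exact (hX x hx).1.2.2
    rw [abs_le] at h2
    have h3 : (N : ℝ) ≤ |m.1| * N := by nlinarith
    have h4 := hgy.2.1
    have h5 := hgy.2.2
    rw [h1]
    constructor <;> linarith
  have hb2 : ∀ x ∈ X, ‖(f x).2.1‖ ≤ 2 * N * n := by
    intro x hx
    exact off2_le S N s n x (hX x hx).2.2.2.2.1 (by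
      have : 0 ≤ (N : ℝ) * n := by positivity
      linarith)
  have hb3 : ∀ x ∈ X, ‖(f x).2.2 - y.2.2‖ ≤ ‖m.2.2‖ * R3 := by
    intro x hx
    have h1 : (f x).2.2 - y.2.2 = -(m.2.2 * x.2.2) := by
      have := congrArg (fun z : E => z.2.2) (hfx x hx)
      simp only [Prod.snd_add, Prod.snd_mul] at this
      rw [← this]
      ring
    rw [h1, norm_neg, norm_mul]
    exact mul_le_mul_of_nonneg_left (hX x hx).2.2.1 (norm_nonneg _)
  have hδ : 0 < 4 * (N : ℝ) * |m.1| := by positivity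
  have hρ : 0 < 2 * (N : ℝ) * n := by positivity
  have c1 := count_box S (X.image f) (-(2 * N * |m.1|)) (4 * N * |m.1|) (2 * N * n) (6 * N) 0 0
    hδ hρ (by positivity) (by
      intro z hz
      obtain ⟨x, hx, rfl⟩ := Finset.mem_image.1 hz
      refine ⟨off_mem S N _, (hb1 x hx).1, (hb1 x hx).2, ?_, ?_⟩
      · rw [sub_zero]; exact hb2 x hx
      · rw [sub_zero]; exact off3_le S N _)
  have c2 := count_box S (X.image f) (-(2 * N * |m.1|)) (4 * N * |m.1|) (2 * N * n)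
    (‖m.2.2‖ * R3) 0 y.2.2 hδ hρ (by positivity) (by
      intro z hz
      obtain ⟨x, hx, rfl⟩ := Finset.mem_image.1 hz
      refine ⟨off_mem S N _, (hb1 x hx).1, (hb1 x hx).2, ?_, hb3 x hx⟩
      rw [sub_zero]; exact hb2 x hx)
  rw [hcard] at c1 c2
  have hs2 : s ≤ 4 * R2 * ‖m.2.1‖ :=
    mul2_ge S N s R2 n x0 hn hN (hX x0 hx0).2.2.2.2.1 hs (hX x0 hx0).2.1
  rw [← hμ3]
  exact fiber_real hN1 hn1 hR3 hs0 hsR hm1 hm2 hm3 hμ31 (mul_prod S w0) hs2 rfl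
    (Nat.cast_nonneg _) c1 c2

end Pool.Agent.H67.Tent
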