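import Pool.Agent.H67.Tent.Stage
import Pool.Agent.H67.Tent.Fiber

/-!
TE-6. Number of points whose first passage below `s` (at time `n`, with `k` letters `true`)
is a bad point.

Proof. `n = 0`: `X` itself satisfies the hypothesis of `stage` with `S3 = R3` (`FP S N s 0 x`
says `‖x.2.1‖ ≤ s`), so `#X ≤ C s^(2-1/25) R3² ≤ 4 C s^(-1/25) R2² R3²` (`s ≤ 2 R2`).
`n ≥ 1`: let `Y` be the image of `X` under `T^[n]` and
`B = ‖a3‖^(n-k) ‖b3‖^k R3 + 6 N ≥ 1`. Each `y ∈ Y` is in `G` (`G_iter`), `‖y.2.1‖ ≤ s`,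
`‖y.2.2‖ ≤ ‖(mul w).2.2‖ R3 + 6 N = B` (`iter_eq`, `off3_le`, `mul_norm3`), so by `stage`
`#Y ≤ C s^(2-1/25) B²`. By `fiber`, every fibre `X_y` has `#X_y * B² ≤ C' n² (R2/s)² R3²`
(`Finset.card_eq_sum_card_fiberwise`), so
`#X * B² ≤ #Y * C' n² (R2/s)² R3² ≤ C s^(2-1/25) B² C' n² (R2/s)² R3²`; divide by `B² > 0`.
-/

set_option autoImplicit false

namespace Pool.Agent.H67.Tent

theorem cls (S : Sys) (N : ℕ) (hN : 1 ≤ N) : ∃ C : ℝ, 0 < C ∧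
    ∀ (s R2 R3 : ℝ) (n k : ℕ), 1 ≤ s → 10 * N * n ≤ s → s ≤ 2 * R2 → 1 ≤ R3 →
    ∀ X : Finset E, (∀ x ∈ X, G S N x ∧ ‖x.2.1‖ ≤ R2 ∧ ‖x.2.2‖ ≤ R3 ∧
      FP S N s n x ∧ (itin S N n x).count true = k ∧
      ∀ i ≤ nst S s, s / 2 < ‖((T S N)^[i] ((T S N)^[n] x)).2.1‖) →
    (X.card : ℝ) ≤ C * (n + 1) ^ 2 * s ^ (-(1 / 25) : ℝ) * R2 ^ 2 * R3 ^ 2 := by
  obtain ⟨C, hC, hst⟩ := stage S N hN
  obtain ⟨C', hC', hfb⟩ := fiber S N hN
  refine ⟨4 * C + C * C', by positivity, ?_⟩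
  intro s R2 R3 n k hs1 hs2 hs3 hR3 X hX
  have hs0 : 0 < s := by linarith
  have hN1 : (1 : ℝ) ≤ N := by exact_mod_cast hN
  have hpow : s ^ (2 - 1 / 25 : ℝ) = s ^ 2 * s ^ (-(1 / 25) : ℝ) := by
    rw [sub_eq_add_neg, Real.rpow_add hs0, Real.rpow_two]
  have hp0 : 0 < s ^ (-(1 / 25) : ℝ) := Real.rpow_pos_of_pos hs0 _
  rcases Nat.eq_zero_or_pos n with hn | hn
  · subst hn
    have h1 := hst s R3 hs1 hR3 X (fun y hy => by
      obtain ⟨g1, g2, g3, g4, g5, g6⟩ := hX y hy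
      exact ⟨g1, g4.2, g3, g6⟩)
    rw [hpow] at h1
    have h2 : s ^ 2 ≤ 4 * R2 ^ 2 := by nlinarith
    have h3 : C * (s ^ 2 * s ^ (-(1 / 25) : ℝ)) * R3 ^ 2 ≤
        C * ((4 * R2 ^ 2) * s ^ (-(1 / 25) : ℝ)) * R3 ^ 2 := by gcongr
    have h4 : 0 ≤ C * C' * (s ^ (-(1 / 25) : ℝ) * R2 ^ 2 * R3 ^ 2) := by positivity
    refine h1.trans (h3.trans ?_)
    simp only [Nat.cast_zero, zero_add, one_pow, mul_one]
    linarith
  · have hn1 : (1 : ℝ) ≤ n := by exact_mod_cast hn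
    classical
    set B : ℝ := ‖S.a.2.2‖ ^ (n - k) * ‖S.b.2.2‖ ^ k * R3 + 6 * N with hB
    have hB1 : 1 ≤ B := by
      have : 0 ≤ ‖S.a.2.2‖ ^ (n - k) * ‖S.b.2.2‖ ^ k * R3 := by positivity
      linarith
    set Y : Finset E := X.image (T S N)^[n] with hY
    have hYc := hst s B hs1 hB1 Y (fun y hy => by
      obtain ⟨x, hx, rfl⟩ := Finset.mem_image.1 hy
      obtain ⟨g1, g2, g3, g4, g5, g6⟩ := hX x hx
      refine ⟨G_iter S N g1 n, g4.2, ?_, g6⟩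
      have h1 : ((T S N)^[n] x).2.2 = (mul S (itin S N n x)).2.2 * x.2.2 +
          (off S N (itin S N n x)).2.2 := by
        rw [iter_eq]
        rfl
      have h2 : (itin S N n x).count false = n - k := by
        have h3 := count_add (itin S N n x)
        rw [itin_length, g5] at h3
        omega
      rw [h1]
      refine (norm_add_le _ _).trans (add_le_add ?_ (off3_le S N _))
      rw [norm_mul, mul_norm3, h2, g5]
      gcongr)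
    have hfib : ∀ y ∈ Y, ((X.filter (fun x => (T S N)^[n] x = y)).card : ℝ) * B ^ 2 ≤
        C' * n ^ 2 * (R2 / s) ^ 2 * R3 ^ 2 := by
      intro y _
      apply hfb s R2 R3 n k y hn hs2 hs3 hR3
      intro x hx
      rw [Finset.mem_filter] at hx
      obtain ⟨g1, g2, g3, g4, g5, g6⟩ := hX x hx.1
      exact ⟨g1, g2, g3, hx.2, g4, g5⟩
    have hcard : (X.card : ℝ) = ∑ y ∈ Y, ((X.filter (fun x => (T S N)^[n] x = y)).card : ℝ) := by
      rw [Finset.card_eq_sum_card_fiberwise (f := (T S N)^[n]) (t := Y)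
        (fun x hx => Finset.mem_coe.2 (Finset.mem_image_of_mem _ (Finset.mem_coe.1 hx)))]
      push_cast
      rfl
    have h5 : (X.card : ℝ) * B ^ 2 ≤ Y.card * (C' * n ^ 2 * (R2 / s) ^ 2 * R3 ^ 2) := by
      rw [hcard, Finset.sum_mul, ← nsmul_eq_mul]
      exact Finset.sum_le_card_nsmul _ _ _ hfib
    have h6 : 0 ≤ C' * n ^ 2 * (R2 / s) ^ 2 * R3 ^ 2 := by positivity
    have h7 : (X.card : ℝ) * B ^ 2 ≤
        (C * (s ^ 2 * s ^ (-(1 / 25) : ℝ)) * (C' * n ^ 2 * (R2 / s) ^ 2 * R3 ^ 2)) * B ^ 2 := by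
      refine h5.trans ((mul_le_mul_of_nonneg_right hYc h6).trans (le_of_eq ?_))
      rw [hpow]
      ring
    have h8 : (X.card : ℝ) ≤
        C * (s ^ 2 * s ^ (-(1 / 25) : ℝ)) * (C' * n ^ 2 * (R2 / s) ^ 2 * R3 ^ 2) :=
      le_of_mul_le_mul_right h7 (by positivity)
    refine h8.trans ?_
    have h9 : C * (s ^ 2 * s ^ (-(1 / 25) : ℝ)) * (C' * n ^ 2 * (R2 / s) ^ 2 * R3 ^ 2) =
        (C * C') * (n ^ 2) * s ^ (-(1 / 25) : ℝ) * R2 ^ 2 * R3 ^ 2 := by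
      field_simp
    rw [h9]
    have h10 : (n : ℝ) ^ 2 ≤ ((n : ℝ) + 1) ^ 2 := by nlinarith
    have h11 : C * C' ≤ 4 * C + C * C' := by linarith
    gcongr

end Pool.Agent.H67.Tent
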