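import Pool.Agent.H67.Tent.Count
import Pool.Agent.H67.Tent.Avg
import Pool.Agent.H67.Tent.Pass

/-!
TE-8. Few points have a small second coordinate before the third coordinate has contracted.

Proof. Let `R' = R^(39/40)`.
(1) The `x ∈ X` with `‖x.2.1‖ ≤ R'`: by `count_box` (`u = 0`, `δ = N`, `ρ2 = R'`, `ρ3 = R`,
`c2 = c3 = 0`) at most `128 N R'² R² + 18 ≤ (128 N + 18) R^(4 - 1/20)`.
(2) Let `‖x.2.1‖ > R'`. Let `t` be as in the hypothesis and let `n ≤ t` be the first time with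
`‖(T^[n] x).2.1‖ ≤ r`; `n ≥ 1` as `r ≤ R^(1/100) ≤ R'`. `FP S N r n x`. By `iter_eq`, `off3_le`
at time `t`: `7 N < ‖(mul (itin t x)).2.2‖ R + 6 N`, so `1 ≤ N < ‖(mul (itin t x)).2.2‖ R
≤ ‖m.2.2‖ R` with `m = mul (itin n x)` (`itin_add`, `mul_append`, `mul3_le`). By `mul3_le`
`1 < (6/7)^n R`, so `n ≤ 7 log R` (as `log (7/6) ≥ 1/7`), in particular `10 N n ≤ r` by the
choice of `C` (`C ≥ 70 N`). `off2_le`, `mul2_ge`: `r ≤ 4 R ‖m.2.1‖` and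
`‖m.2.1‖ R' ≤ ‖m.2.1‖ ‖x.2.1‖ ≤ r + 2 N n ≤ 2 r`. So for `w = itin n x`:
  (a) `1 ≤ ‖m.2.2‖ R`, (b) `1 ≤ 2 r / (R' ‖m.2.1‖)`, (c) `r ≤ 4 R ‖m.2.1‖`, and
  `|m.1| = ‖m.2.1‖⁻² ‖m.2.2‖⁻² ≤ (4 R / r)² R² ≤ 16 R^4` (`mul_prod`).
For fixed `n` and `w` the points `x` with these data and `itin n x = w` have `x.1` in an interval
of length `N / |m.1|`, so there are at most `128 (N / |m.1|) R^4 + 18 ≤ (128 N + 288) R^4 / |m.1|`
of them, and this is at most `(128 N + 288) R^4 |m.1|⁻¹ (‖m.2.2‖ R) (2 r / (R' ‖m.2.1‖))`.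
Sum over `w` (`card_eq_wsum`, `lam_moment`): at most
`(128 N + 288) R^4 * 2 r R^(1/40) * (193/200)^n` points for each `n`. Moreover
`2^(-n) ≤ ‖m.2.1‖ ≤ 2 r / R'` (`mul_norm2`, `S.a2_ge`, `S.b2_ge`) and `(193/200)^20 ≤ 1/2`, so
`(193/200)^n ≤ (2^(-n))^(1/20) ≤ (2 r / R')^(1/20)` whenever such points exist. With
`r ≤ R^(1/100)`: `r^(21/20) R^(1/40) R^(-39/800) ≤ R^(0.0105 + 0.025 - 0.04875) = R^(-0.01325)`.
Sum over `n ≤ 7 log R` and use `log R ≤ C R^(0.003)`.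
-/

set_option autoImplicit false

namespace Pool.Agent.H67.Tent

theorem early_word (S : Sys) (N : ℕ) (hN : 1 ≤ N) (R r R' : ℝ) (hR : 2 ≤ R) (hr : 1 ≤ r)
    (hR' : 0 < R') (n : ℕ) (w : List Bool) (Y : Finset E)
    (hY : ∀ x ∈ Y, G S N x ∧ ‖x.2.1‖ ≤ R ∧ ‖x.2.2‖ ≤ R ∧ itin S N n x = w)
    (ha : 1 ≤ ‖(mul S w).2.2‖ * R) (hb : ‖(mul S w).2.1‖ * R' ≤ 2 * r)
    (hc : r ≤ 4 * R * ‖(mul S w).2.1‖) :
    (Y.card : ℝ) ≤ (128 * N + 288) * R ^ 4 * (2 * r * R / R') *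
      (|(mul S w).1|⁻¹ * (‖(mul S w).2.2‖ / ‖(mul S w).2.1‖)) := by
  have hN1 : (1 : ℝ) ≤ N := by exact_mod_cast hN
  have hR0 : (0 : ℝ) < R := by linarith
  set m := mul S w with hm
  have hm1 : 0 < |m.1| := mul_abs1_pos S w
  have hm2 : 0 < ‖m.2.1‖ := mul_norm2_pos S w
  have hm3 : 0 < ‖m.2.2‖ := mul_norm3_pos S w
  have hprod : |m.1| * ‖m.2.1‖ ^ 2 * ‖m.2.2‖ ^ 2 = 1 := mul_prod S w
  have hm16 : |m.1| ≤ 16 * R ^ 4 := by
    have h1 : 1 ≤ (4 * R * ‖m.2.1‖) ^ 2 * (‖m.2.2‖ * R) ^ 2 := by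
      have h2 : (1 : ℝ) ≤ (4 * R * ‖m.2.1‖) ^ 2 := one_le_pow₀ (hr.trans hc)
      have h3 : (1 : ℝ) ≤ (‖m.2.2‖ * R) ^ 2 := one_le_pow₀ ha
      nlinarith
    calc |m.1| = |m.1| * 1 := by ring
      _ ≤ |m.1| * ((4 * R * ‖m.2.1‖) ^ 2 * (‖m.2.2‖ * R) ^ 2) :=
          mul_le_mul_of_nonneg_left h1 hm1.le
      _ = 16 * R ^ 4 * (|m.1| * ‖m.2.1‖ ^ 2 * ‖m.2.2‖ ^ 2) := by ring
      _ = 16 * R ^ 4 := by rw [hprod, mul_one]
  -- the interval
  have hint : ∃ u : ℝ, ∀ x ∈ Y, u ≤ x.1 ∧ x.1 ≤ u + N / |m.1| := by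
    have key : ∀ x ∈ Y, 0 ≤ m.1 * x.1 + (off S N w).1 ∧ m.1 * x.1 + (off S N w).1 ≤ N := by
      intro x hx
      obtain ⟨h1, _, _, h4⟩ := hY x hx
      have h5 := G_iter S N h1 n
      rw [iter_eq, h4] at h5
      exact h5.2
    rcases lt_or_gt_of_ne (abs_pos.1 hm1) with hneg | hpos
    · refine ⟨(N - (off S N w).1) / m.1, fun x hx => ?_⟩
      obtain ⟨h1, h2⟩ := key x hx
      rw [abs_of_neg hneg]
      constructor
      · rw [div_le_iff_of_neg hneg]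
        linarith
      · have h3 : (N - (off S N w).1) / m.1 + N / -m.1 = (-(off S N w).1) / m.1 := by
          rw [div_neg]
          ring
        rw [h3, le_div_iff_of_neg hneg]
        linarith
    · refine ⟨(-(off S N w).1) / m.1, fun x hx => ?_⟩
      obtain ⟨h1, h2⟩ := key x hx
      rw [abs_of_pos hpos]
      constructor
      · rw [div_le_iff₀ hpos]
        linarith
      · rw [← add_div, le_div_iff₀ hpos]
        linarith
  obtain ⟨u, hu⟩ := hint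
  have hbox := count_box S Y u (N / |m.1|) R R 0 0 (by positivity) hR0 hR0.le (fun y hy => by
    obtain ⟨h1, h2, h3, _⟩ := hY y hy
    obtain ⟨h5, h6⟩ := hu y hy
    exact ⟨h1.1, h5, h6, by simpa using h2, by simpa using h3⟩)
  have h18 : (18 : ℝ) ≤ 288 * R ^ 4 * |m.1|⁻¹ := by
    have h1 : 1 ≤ 16 * R ^ 4 * |m.1|⁻¹ := by
      rw [← div_eq_mul_inv, le_div_iff₀ hm1, one_mul]
      exact hm16
    linarith
  have hA : (Y.card : ℝ) ≤ (128 * N + 288) * R ^ 4 * |m.1|⁻¹ := by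
    calc (Y.card : ℝ) ≤ 128 * (N / |m.1|) * R ^ 2 * R ^ 2 + 18 := hbox
      _ ≤ 128 * (N / |m.1|) * R ^ 2 * R ^ 2 + 288 * R ^ 4 * |m.1|⁻¹ := by linarith
      _ = (128 * N + 288) * R ^ 4 * |m.1|⁻¹ := by rw [div_eq_mul_inv]; ring
  have hB : 1 ≤ (‖m.2.2‖ * R) * (2 * r / (R' * ‖m.2.1‖)) := by
    have h1 : 1 ≤ 2 * r / (R' * ‖m.2.1‖) := by
      rw [le_div_iff₀ (by positivity), one_mul, mul_comm]
      exact hb
    nlinarith
  have hA0 : 0 ≤ (128 * N + 288) * R ^ 4 * |m.1|⁻¹ := by positivity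
  calc (Y.card : ℝ) ≤ (128 * N + 288) * R ^ 4 * |m.1|⁻¹ * 1 := by rw [mul_one]; exact hA
    _ ≤ (128 * N + 288) * R ^ 4 * |m.1|⁻¹ * ((‖m.2.2‖ * R) * (2 * r / (R' * ‖m.2.1‖))) :=
        mul_le_mul_of_nonneg_left hB hA0
    _ = _ := by
        field_simp

/-- what the hypotheses say about one point -/
theorem early_point (S : Sys) (N : ℕ) (hN : 1 ≤ N) (R r R' : ℝ) (hR : 2 ≤ R) (hr : 1 ≤ r)
    (hlog : 70 * N * Real.log R ≤ r) (x : E)
    (h2 : ‖x.2.1‖ ≤ R) (h2' : R' < ‖x.2.1‖) (h3 : ‖x.2.2‖ ≤ R) (t n : ℕ) (hnt : n ≤ t) (hn : 1 ≤ n)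
    (ht : 7 * N < ‖((T S N)^[t] x).2.2‖) (hFP : FP S N r n x) :
    1 ≤ ‖(mul S (itin S N n x)).2.2‖ * R ∧ ‖(mul S (itin S N n x)).2.1‖ * R' ≤ 2 * r ∧
      r ≤ 4 * R * ‖(mul S (itin S N n x)).2.1‖ ∧ (n : ℝ) ≤ 7 * Real.log R := by
  have hN1 : (1 : ℝ) ≤ N := by exact_mod_cast hN
  have hn0 : (0 : ℝ) ≤ n := Nat.cast_nonneg n
  have hR0 : (0 : ℝ) < R := by linarith
  have ha : 1 < ‖(mul S (itin S N n x)).2.2‖ * R := by
    have h4 : ((T S N)^[t] x).2.2 = (mul S (itin S N t x)).2.2 * x.2.2 +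
        (off S N (itin S N t x)).2.2 := by rw [iter_eq]; rfl
    have h5 := off3_le S N (itin S N t x)
    have h6 : ‖(mul S (itin S N t x)).2.2‖ ≤ ‖(mul S (itin S N n x)).2.2‖ := by
      obtain ⟨k, rfl⟩ := Nat.exists_eq_add_of_le hnt
      rw [itin_add, mul_append]
      have h7 : (mul S (itin S N k ((T S N)^[n] x)) * mul S (itin S N n x)).2.2 =
          (mul S (itin S N k ((T S N)^[n] x))).2.2 * (mul S (itin S N n x)).2.2 := rfl
      rw [h7, norm_mul]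
      have h8 := mul3_le S (itin S N k ((T S N)^[n] x))
      have h9 : ((6 : ℝ) / 7) ^ (itin S N k ((T S N)^[n] x)).length ≤ 1 :=
        pow_le_one₀ (by norm_num) (by norm_num)
      calc _ ≤ 1 * ‖(mul S (itin S N n x)).2.2‖ :=
            mul_le_mul_of_nonneg_right (h8.trans h9) (norm_nonneg _)
        _ = _ := one_mul _
    have h7 : ‖((T S N)^[t] x).2.2‖ ≤ ‖(mul S (itin S N n x)).2.2‖ * R + 6 * N := by
      rw [h4]
      refine (norm_add_le _ _).trans (add_le_add ?_ h5)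
      rw [norm_mul]
      exact mul_le_mul h6 h3 (norm_nonneg _) (norm_nonneg _)
    linarith
  have hnlog : (n : ℝ) ≤ 7 * Real.log R := by
    have h4 := mul3_le S (itin S N n x)
    rw [itin_length] at h4
    have h5 : 1 < (6 / 7 : ℝ) ^ n * R :=
      ha.trans_le (mul_le_mul_of_nonneg_right h4 hR0.le)
    have h6 : 0 < Real.log ((6 / 7 : ℝ) ^ n * R) := Real.log_pos h5
    rw [Real.log_mul (by positivity) hR0.ne', Real.log_pow] at h6
    have h7 : Real.log (6 / 7 : ℝ) ≤ -(1 / 7) := by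
      have := Real.log_le_sub_one_of_pos (show (0 : ℝ) < 6 / 7 by norm_num)
      linarith
    nlinarith
  have h10 : 10 * (N : ℝ) * n ≤ r := by
    have h4 : 10 * (N : ℝ) * n ≤ 10 * N * (7 * Real.log R) :=
      mul_le_mul_of_nonneg_left hnlog (by positivity)
    linarith
  have hNn : 0 ≤ (N : ℝ) * n := by positivity
  have hoff := off2_le S N r n x hFP (by linarith)
  refine ⟨ha.le, ?_, mul2_ge S N r R n x hn hN hFP h10 h2, hnlog⟩
  have h4 : (mul S (itin S N n x)).2.1 * x.2.1 = ((T S N)^[n] x).2.1 -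
      (off S N (itin S N n x)).2.1 := by
    rw [iter_eq]
    have : (mul S (itin S N n x) * x + off S N (itin S N n x)).2.1 =
      (mul S (itin S N n x)).2.1 * x.2.1 + (off S N (itin S N n x)).2.1 := rfl
    rw [this]
    ring
  have h5 : ‖(mul S (itin S N n x)).2.1‖ * ‖x.2.1‖ ≤ r + 2 * N * n := by
    rw [← norm_mul, h4]
    exact (norm_sub_le _ _).trans (add_le_add hFP.2 hoff)
  have h6 : ‖(mul S (itin S N n x)).2.1‖ * R' ≤ ‖(mul S (itin S N n x)).2.1‖ * ‖x.2.1‖ :=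
    mul_le_mul_of_nonneg_left h2'.le (norm_nonneg _)
  linarith

theorem early_pow (S : Sys) (N n : ℕ) (x : E) :
    (1 / 2 : ℝ) ^ n ≤ ‖(mul S (itin S N n x)).2.1‖ := by
  rw [mul_norm2]
  have h1 : (1 : ℝ) ≤ ‖S.a.2.1‖ ^ ((itin S N n x).count false) := one_le_pow₀ S.a2_ge
  have h2 : (1 / 2 : ℝ) ^ ((itin S N n x).count true) ≤
      ‖S.b.2.1‖ ^ ((itin S N n x).count true) :=
    pow_le_pow_left₀ (by norm_num) S.b2_ge _
  have h3 : (1 / 2 : ℝ) ^ n ≤ (1 / 2 : ℝ) ^ ((itin S N n x).count true) := by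
    refine pow_le_pow_of_le_one (by norm_num) (by norm_num) ?_
    have := count_add (itin S N n x)
    rw [itin_length] at this
    omega
  have h4 : (0 : ℝ) ≤ (1 / 2 : ℝ) ^ ((itin S N n x).count true) := by positivity
  calc (1 / 2 : ℝ) ^ n ≤ 1 * (1 / 2 : ℝ) ^ ((itin S N n x).count true) := by rw [one_mul]; exact h3
    _ ≤ _ := mul_le_mul h1 h2 h4 (by linarith)

theorem early_root (y z : ℝ) (hy : 0 ≤ y) (h : y ^ 20 ≤ z) : y ≤ z ^ (1 / 20 : ℝ) := by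
  have h1 : y = (y ^ 20) ^ (1 / 20 : ℝ) := by
    rw [← Real.rpow_natCast y 20, ← Real.rpow_mul hy]
    norm_num
  rw [h1]
  exact Real.rpow_le_rpow (by positivity) h (by norm_num)

theorem early_exp (R r : ℝ) (hR : 2 ≤ R) (hr : 1 ≤ r) (hrR : r ≤ R ^ (1 / 100 : ℝ)) :
    2 * r * R / R ^ (39 / 40 : ℝ) * (2 * r / R ^ (39 / 40 : ℝ)) ^ (1 / 20 : ℝ) ≤
      4 * R ^ (-(53 / 4000) : ℝ) := by
  have hR0 : (0 : ℝ) < R := by linarith
  have h1 : 2 * r * R / R ^ (39 / 40 : ℝ) ≤ 2 * R ^ (7 / 200 : ℝ) := by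
    rw [div_le_iff₀ (by positivity)]
    calc 2 * r * R ≤ 2 * R ^ (1 / 100 : ℝ) * R := by gcongr
      _ = 2 * (R ^ (1 / 100 : ℝ) * R ^ (1 : ℝ)) := by rw [Real.rpow_one]; ring
      _ = 2 * (R ^ (7 / 200 : ℝ) * R ^ (39 / 40 : ℝ)) := by
          rw [← Real.rpow_add hR0, ← Real.rpow_add hR0]; norm_num
      _ = _ := by ring
  have h2 : (2 * r / R ^ (39 / 40 : ℝ)) ^ (1 / 20 : ℝ) ≤ 2 * R ^ (-(193 / 4000) : ℝ) := by
    have h3 : 2 * r / R ^ (39 / 40 : ℝ) ≤ 2 * R ^ (-(193 / 200) : ℝ) := by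
      rw [div_le_iff₀ (by positivity)]
      calc 2 * r ≤ 2 * R ^ (1 / 100 : ℝ) := by gcongr
        _ = 2 * (R ^ (-(193 / 200) : ℝ) * R ^ (39 / 40 : ℝ)) := by
            rw [← Real.rpow_add hR0]; norm_num
        _ = _ := by ring
    calc (2 * r / R ^ (39 / 40 : ℝ)) ^ (1 / 20 : ℝ) ≤ (2 * R ^ (-(193 / 200) : ℝ)) ^ (1 / 20 : ℝ) :=
          Real.rpow_le_rpow (by positivity) h3 (by norm_num)
      _ = 2 ^ (1 / 20 : ℝ) * R ^ (-(193 / 4000) : ℝ) := by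
          rw [Real.mul_rpow (by norm_num) (by positivity), ← Real.rpow_mul hR0.le]
          norm_num
      _ ≤ 2 ^ (1 : ℝ) * R ^ (-(193 / 4000) : ℝ) := by
          refine mul_le_mul_of_nonneg_right ?_ (by positivity)
          exact Real.rpow_le_rpow_of_exponent_le (by norm_num) (by norm_num)
      _ = _ := by rw [Real.rpow_one]
  calc _ ≤ 2 * R ^ (7 / 200 : ℝ) * (2 * R ^ (-(193 / 4000) : ℝ)) :=
        mul_le_mul h1 h2 (by positivity) (by positivity)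
    _ = 4 * (R ^ (7 / 200 : ℝ) * R ^ (-(193 / 4000) : ℝ)) := by ring
    _ = _ := by rw [← Real.rpow_add hR0]; norm_num

theorem early_n (S : Sys) (N : ℕ) (hN : 1 ≤ N) (R r : ℝ) (hR : 2 ≤ R) (hr : 1 ≤ r)
    (hrR : r ≤ R ^ (1 / 100 : ℝ)) (n : ℕ) (X : Finset E)
    (hX : ∀ x ∈ X, G S N x ∧ ‖x.2.1‖ ≤ R ∧ ‖x.2.2‖ ≤ R ∧
      1 ≤ ‖(mul S (itin S N n x)).2.2‖ * R ∧
      ‖(mul S (itin S N n x)).2.1‖ * R ^ (39 / 40 : ℝ) ≤ 2 * r ∧
      r ≤ 4 * R * ‖(mul S (itin S N n x)).2.1‖) :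
    (X.card : ℝ) ≤ 4 * (128 * N + 288) * R ^ 4 * R ^ (-(53 / 4000) : ℝ) := by
  classical
  have hR0 : (0 : ℝ) < R := by linarith
  rcases X.eq_empty_or_nonempty with hX0 | ⟨x0, hx0⟩
  · subst hX0
    simp only [Finset.card_empty, Nat.cast_zero]
    positivity
  have h1 := card_eq_wsum n X (itin S N n) (fun x _ => itin_length S N n x)
  have h2 : wsum n (fun w => ((X.filter (fun x => itin S N n x = w)).card : ℝ)) ≤
      wsum n (fun w => (128 * N + 288) * R ^ 4 * (2 * r * R / R ^ (39 / 40 : ℝ)) *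
        (|(mul S w).1|⁻¹ * (‖(mul S w).2.2‖ / ‖(mul S w).2.1‖))) := by
    refine wsum_mono fun w _ => ?_
    rcases (X.filter (fun x => itin S N n x = w)).eq_empty_or_nonempty with h0 | ⟨y, hy⟩
    · rw [h0]
      simp only [Finset.card_empty, Nat.cast_zero]
      positivity
    · rw [Finset.mem_filter] at hy
      obtain ⟨_, _, _, h6, h7, h8⟩ := hX y hy.1
      rw [hy.2] at h6 h7 h8
      exact early_word S N hN R r _ hR hr (by positivity) n w _ (fun x hx => by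
        rw [Finset.mem_filter] at hx
        obtain ⟨g1, g2, g3, _⟩ := hX x hx.1
        exact ⟨g1, g2, g3, hx.2⟩) h6 h7 h8
  rw [wsum_const_mul] at h2
  have h3 := lam_moment S n
  have h4 : ((193 : ℝ) / 200) ^ n ≤ (2 * r / R ^ (39 / 40 : ℝ)) ^ (1 / 20 : ℝ) := by
    refine early_root _ _ (by positivity) ?_
    have h5 : (((193 : ℝ) / 200) ^ n) ^ 20 = (((193 : ℝ) / 200) ^ 20) ^ n := by
      rw [← pow_mul, ← pow_mul, mul_comm]
    have h6 : (((193 : ℝ) / 200) ^ 20) ^ n ≤ (1 / 2) ^ n :=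
      pow_le_pow_left₀ (by positivity) (by norm_num) n
    obtain ⟨_, _, _, _, h7, _⟩ := hX x0 hx0
    have h8 := early_pow S N n x0
    rw [h5, le_div_iff₀ (by positivity)]
    calc (((193 : ℝ) / 200) ^ 20) ^ n * R ^ (39 / 40 : ℝ)
        ≤ ‖(mul S (itin S N n x0)).2.1‖ * R ^ (39 / 40 : ℝ) :=
          mul_le_mul_of_nonneg_right (h6.trans h8) (by positivity)
      _ ≤ 2 * r := h7
  have hpos : 0 ≤ (128 * (N : ℝ) + 288) * R ^ 4 * (2 * r * R / R ^ (39 / 40 : ℝ)) := by positivity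
  have h9 := early_exp R r hR hr hrR
  calc (X.card : ℝ) ≤ (128 * N + 288) * R ^ 4 * (2 * r * R / R ^ (39 / 40 : ℝ)) *
        wsum n (fun w => |(mul S w).1|⁻¹ * (‖(mul S w).2.2‖ / ‖(mul S w).2.1‖)) := by
        rw [h1]; exact h2
    _ ≤ (128 * N + 288) * R ^ 4 * (2 * r * R / R ^ (39 / 40 : ℝ)) *
        (2 * r / R ^ (39 / 40 : ℝ)) ^ (1 / 20 : ℝ) :=
        mul_le_mul_of_nonneg_left (h3.trans h4) hpos
    _ = (128 * N + 288) * R ^ 4 * (2 * r * R / R ^ (39 / 40 : ℝ) *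
        (2 * r / R ^ (39 / 40 : ℝ)) ^ (1 / 20 : ℝ)) := by ring
    _ ≤ (128 * N + 288) * R ^ 4 * (4 * R ^ (-(53 / 4000) : ℝ)) :=
        mul_le_mul_of_nonneg_left h9 (by positivity)
    _ = _ := by ring

theorem early (S : Sys) (N : ℕ) (hN : 1 ≤ N) : ∃ C : ℝ, 1 ≤ C ∧
    ∀ R r : ℝ, 2 ≤ R → 1 ≤ r → C * Real.log R ≤ r → r ≤ R ^ (1 / 100 : ℝ) →
    ∀ X : Finset E, (∀ x ∈ X, G S N x ∧ ‖x.2.1‖ ≤ R ∧ ‖x.2.2‖ ≤ R ∧
      ∃ t, ‖((T S N)^[t] x).2.1‖ ≤ r ∧ 7 * N < ‖((T S N)^[t] x).2.2‖) →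
    (X.card : ℝ) ≤ C * R ^ (4 - 1 / 100 : ℝ) := by
  classical
  have hN1 : (1 : ℝ) ≤ N := by exact_mod_cast hN
  refine ⟨(128 * N + 18) + 28 * 334 * (128 * N + 288) + 70 * N, by nlinarith, ?_⟩
  intro R r hR hr hlog hrR X hX
  have hR0 : (0 : ℝ) < R := by linarith
  have hR1 : (1 : ℝ) ≤ R := by linarith
  have hlogR : 0 < Real.log R := Real.log_pos (by linarith)
  have hlog70 : 70 * N * Real.log R ≤ r := by
    refine le_trans ?_ hlog
    refine mul_le_mul_of_nonneg_right ?_ hlogR.le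
    nlinarith
  set R' : ℝ := R ^ (39 / 40 : ℝ) with hR'def
  have hR'0 : 0 < R' := by positivity
  have hrR' : r ≤ R' := hrR.trans (Real.rpow_le_rpow_of_exponent_le hR1 (by norm_num))
  set X1 := X.filter (fun x => ‖x.2.1‖ ≤ R') with hX1
  set X2 := X.filter (fun x => ¬ ‖x.2.1‖ ≤ R') with hX2
  have hsplit : (X.card : ℝ) = X1.card + X2.card := by
    have := Finset.card_filter_add_card_filter_not (s := X) (fun x => ‖x.2.1‖ ≤ R')
    rw [← this]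
    push_cast
    rfl
  have hpow : R ^ (4 - 1 / 20 : ℝ) ≤ R ^ (4 - 1 / 100 : ℝ) :=
    Real.rpow_le_rpow_of_exponent_le hR1 (by norm_num)
  have hc1 : (X1.card : ℝ) ≤ (128 * N + 18) * R ^ (4 - 1 / 100 : ℝ) := by
    have hbox := count_box S X1 0 N R' R 0 0 (by linarith) hR'0 hR0.le (fun y hy => by
      rw [hX1, Finset.mem_filter] at hy
      obtain ⟨g, _, g3, _⟩ := hX y hy.1
      exact ⟨g.1, g.2.1, by simpa using g.2.2, by simpa using hy.2, by simpa using g3⟩)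
    have h1 : R' ^ 2 * R ^ 2 = R ^ (4 - 1 / 20 : ℝ) := by
      rw [hR'def, ← Real.rpow_natCast, ← Real.rpow_natCast, ← Real.rpow_mul hR0.le,
        ← Real.rpow_add hR0]
      norm_num
    have h2 : (1 : ℝ) ≤ R ^ (4 - 1 / 20 : ℝ) := Real.one_le_rpow hR1 (by norm_num)
    calc (X1.card : ℝ) ≤ 128 * N * R' ^ 2 * R ^ 2 + 18 := hbox
      _ = 128 * N * (R' ^ 2 * R ^ 2) + 18 := by ring
      _ ≤ (128 * N + 18) * R ^ (4 - 1 / 20 : ℝ) := by rw [h1]; linarith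
      _ ≤ _ := mul_le_mul_of_nonneg_left hpow (by positivity)
  -- first passage
  have hfirst : ∀ x ∈ X2, ∃ n : ℕ, n ∈ Finset.Icc 1 ⌊7 * Real.log R⌋₊ ∧
      1 ≤ ‖(mul S (itin S N n x)).2.2‖ * R ∧
      ‖(mul S (itin S N n x)).2.1‖ * R' ≤ 2 * r ∧
      r ≤ 4 * R * ‖(mul S (itin S N n x)).2.1‖ := by
    intro x hx
    rw [hX2, Finset.mem_filter, not_le] at hx
    obtain ⟨_, g2, g3, t, ht1, ht2⟩ := hX x hx.1
    have hex : ∃ n, ‖((T S N)^[n] x).2.1‖ ≤ r := ⟨t, ht1⟩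
    have hn1 : 1 ≤ Nat.find hex := by
      rw [Nat.one_le_iff_ne_zero]
      intro h0
      have := Nat.find_spec hex
      rw [h0] at this
      have h5 : ‖x.2.1‖ ≤ r := this
      linarith [hx.2]
    have hFP : FP S N r (Nat.find hex) x :=
      ⟨fun k hk => not_le.1 (Nat.find_min hex hk), Nat.find_spec hex⟩
    obtain ⟨p1, p2, p3, p4⟩ := early_point S N hN R r R' hR hr hlog70 x g2 hx.2 g3 t
      (Nat.find hex) (Nat.find_min' hex ht1) hn1 ht2 hFP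
    exact ⟨Nat.find hex, Finset.mem_Icc.2 ⟨hn1, Nat.le_floor p4⟩, p1, p2, p3⟩
  have hcov : X2 ⊆ (Finset.Icc 1 ⌊7 * Real.log R⌋₊).biUnion (fun n => X2.filter (fun x =>
      1 ≤ ‖(mul S (itin S N n x)).2.2‖ * R ∧
      ‖(mul S (itin S N n x)).2.1‖ * R' ≤ 2 * r ∧
      r ≤ 4 * R * ‖(mul S (itin S N n x)).2.1‖)) := by
    intro x hx
    obtain ⟨n, hn, hn'⟩ := hfirst x hx
    exact Finset.mem_biUnion.2 ⟨n, hn, Finset.mem_filter.2 ⟨hx, hn'⟩⟩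
  have hc2 : (X2.card : ℝ) ≤
      ⌊7 * Real.log R⌋₊ * (4 * (128 * N + 288) * R ^ 4 * R ^ (-(53 / 4000) : ℝ)) := by
    calc (X2.card : ℝ) ≤ ∑ n ∈ Finset.Icc 1 ⌊7 * Real.log R⌋₊, ((X2.filter (fun x =>
          1 ≤ ‖(mul S (itin S N n x)).2.2‖ * R ∧
          ‖(mul S (itin S N n x)).2.1‖ * R' ≤ 2 * r ∧
          r ≤ 4 * R * ‖(mul S (itin S N n x)).2.1‖)).card : ℝ) := by
          exact_mod_cast (Finset.card_le_card hcov).trans Finset.card_biUnion_le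
      _ ≤ ∑ n ∈ Finset.Icc 1 ⌊7 * Real.log R⌋₊,
          4 * (128 * N + 288) * R ^ 4 * R ^ (-(53 / 4000) : ℝ) := by
          refine Finset.sum_le_sum fun n _ => ?_
          refine early_n S N hN R r hR hr hrR n _ fun x hx => ?_
          rw [Finset.mem_filter] at hx
          have hxX := (Finset.mem_filter.1 hx.1).1
          obtain ⟨g1, g2, g3, _⟩ := hX x hxX
          exact ⟨g1, g2, g3, hx.2.1, hx.2.2.1, hx.2.2.2⟩
      _ = _ := by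
          rw [Finset.sum_const, Nat.card_Icc, nsmul_eq_mul, Nat.add_sub_cancel]
  have hfl : (⌊7 * Real.log R⌋₊ : ℝ) ≤ 7 * (334 * R ^ (3 / 1000 : ℝ)) := by
    have h1 := Nat.floor_le (show 0 ≤ 7 * Real.log R by positivity)
    have h2 := Real.log_le_rpow_div hR0.le (show (0 : ℝ) < 3 / 1000 by norm_num)
    have h3 : (0 : ℝ) < R ^ (3 / 1000 : ℝ) := by positivity
    have h4 : R ^ (3 / 1000 : ℝ) / (3 / 1000) ≤ 334 * R ^ (3 / 1000 : ℝ) := by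
      rw [div_le_iff₀ (by norm_num)]
      nlinarith
    linarith
  have hc2' : (X2.card : ℝ) ≤ 28 * 334 * (128 * N + 288) * R ^ (4 - 1 / 100 : ℝ) := by
    have h5 : R ^ (3 / 1000 : ℝ) * (R ^ 4 * R ^ (-(53 / 4000) : ℝ)) = R ^ (4 - 41 / 4000 : ℝ) := by
      rw [← Real.rpow_natCast, ← Real.rpow_add hR0, ← Real.rpow_add hR0]
      norm_num
    have h6 : R ^ (4 - 41 / 4000 : ℝ) ≤ R ^ (4 - 1 / 100 : ℝ) :=
      Real.rpow_le_rpow_of_exponent_le hR1 (by norm_num)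
    calc (X2.card : ℝ) ≤ ⌊7 * Real.log R⌋₊ *
          (4 * (128 * N + 288) * R ^ 4 * R ^ (-(53 / 4000) : ℝ)) := hc2
      _ ≤ 7 * (334 * R ^ (3 / 1000 : ℝ)) *
          (4 * (128 * N + 288) * R ^ 4 * R ^ (-(53 / 4000) : ℝ)) :=
          mul_le_mul_of_nonneg_right hfl (by positivity)
      _ = 28 * 334 * (128 * N + 288) *
          (R ^ (3 / 1000 : ℝ) * (R ^ 4 * R ^ (-(53 / 4000) : ℝ))) := by ring
      _ ≤ _ := by
          rw [h5]
          exact mul_le_mul_of_nonneg_left h6 (by positivity)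
  have hlast : 0 ≤ 70 * (N : ℝ) * R ^ (4 - 1 / 100 : ℝ) := by positivity
  rw [hsplit]
  calc (X1.card : ℝ) + X2.card ≤ (128 * N + 18) * R ^ (4 - 1 / 100 : ℝ) +
        28 * 334 * (128 * N + 288) * R ^ (4 - 1 / 100 : ℝ) := add_le_add hc1 hc2'
    _ ≤ (128 * N + 18) * R ^ (4 - 1 / 100 : ℝ) +
        28 * 334 * (128 * N + 288) * R ^ (4 - 1 / 100 : ℝ) +
        70 * (N : ℝ) * R ^ (4 - 1 / 100 : ℝ) := by linarith
    _ = _ := by ring

end Pool.Agent.H67.Tent
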