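import Pool.Agent.H67.Tent.Exc
import Pool.Agent.H67.Tent.Early

/-!
TE-9. Combination: both coordinates become small.

Proof. Let `C0 ≥ 1` be larger than the constants of `exc` and `early` and `r' = min r R^(1/100)`,
so `1 ≤ r'`, `r^(1/100) ≤ r'` (as `r ≤ R`). All of `X` has at most
`128 N R^4 + 18 ≤ (128 N + 18) R^4` points (`count_box`).
Case `r' < C1 (log R)²` with `C1 = 2 C0` (note `C0 log R ≤ C1 (log R)²`, `log R ≥ log 2 > 1/2`):
then `r ≤ r'^100 < (C1 (log R)²)^100`, so `r^(-1/2500) ≥ (C1 (log R)²)^(-1/25)` and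
`(log R)^8 r^(-1/2500)` is bounded below by a positive constant; the trivial bound suffices.
Case `C1 (log R)² ≤ r'`: split `X` into the `x` with `r' < ‖(T^[t] x).2.1‖` for all `t` (`exc`
with `R2 = R3 = R`, level `r'`) and the others, which satisfy the hypothesis of `early` with
`r'` (if `‖(T^[t] x).2.1‖ ≤ r' ≤ r` then `7 N < ‖(T^[t] x).2.2‖`). So
`#X ≤ C0 (log R)^8 r'^(-1/25) R^4 + C0 R^(4 - 1/100)`, `r'^(-1/25) ≤ r^(-1/2500)`,
`R^(-1/100) ≤ r^(-1/2500)`, `(log R)^8 ≥ (1/2)^8`.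
-/

set_option autoImplicit false

namespace Pool.Agent.H67.Tent

theorem comb_trivial (S : Sys) (N : ℕ) (hN : 1 ≤ N) (R : ℝ) (hR : 2 ≤ R) (X : Finset E)
    (hX : ∀ x ∈ X, G S N x ∧ ‖x.2.1‖ ≤ R ∧ ‖x.2.2‖ ≤ R) :
    (X.card : ℝ) ≤ (128 * N + 18) * R ^ 4 := by
  have hN0 : (0 : ℝ) < N := by exact_mod_cast hN
  have h := count_box S X 0 N R R 0 0 hN0 (by linarith) (by linarith) (by
    intro y hy
    obtain ⟨⟨g1, g2, g3⟩, h2, h3⟩ := hX y hy
    exact ⟨g1, g2, by linarith, by simpa using h2, by simpa using h3⟩)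
  have h4 : (1 : ℝ) ≤ R ^ 4 := one_le_pow₀ (by linarith)
  calc (X.card : ℝ) ≤ 128 * N * R ^ 2 * R ^ 2 + 18 := h
    _ ≤ 128 * N * R ^ 2 * R ^ 2 + 18 * R ^ 4 := by linarith
    _ = (128 * N + 18) * R ^ 4 := by ring

theorem comb (S : Sys) (N : ℕ) (hN : 1 ≤ N) : ∃ C : ℝ, 1 ≤ C ∧
    ∀ R r : ℝ, 2 ≤ R → 1 ≤ r → r ≤ R →
    ∀ X : Finset E, (∀ x ∈ X, G S N x ∧ ‖x.2.1‖ ≤ R ∧ ‖x.2.2‖ ≤ R ∧
      ∀ t, ‖((T S N)^[t] x).2.1‖ ≤ r → 7 * N < ‖((T S N)^[t] x).2.2‖) →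
    (X.card : ℝ) ≤ C * (Real.log R) ^ 8 * r ^ (-(1 / 2500) : ℝ) * R ^ 4 := by
  classical
  obtain ⟨Ce, hCe, he⟩ := exc S N hN
  obtain ⟨Cl, hCl, hl⟩ := early S N hN
  have hN0 : (0 : ℝ) < N := by exact_mod_cast hN
  set C1 : ℝ := 2 * (Ce + Cl) with hC1
  refine ⟨Ce + 256 * Cl + (128 * N + 18) * (64 * C1), ?_, ?_⟩
  · have : 0 ≤ (128 * (N : ℝ) + 18) * (64 * C1) := by positivity
    linarith
  intro R r hR hr hrR X hX
  have hR0 : 0 < R := by linarith
  have hr0 : 0 < r := by linarith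
  set L := Real.log R with hL
  have hL2 : 1 / 2 ≤ L := by
    have h1 : Real.log 2 ≤ L := Real.log_le_log (by norm_num) hR
    have := Real.log_two_gt_d9
    linarith
  have hL0 : 0 < L := by linarith
  have hrp : 0 < r ^ (-(1 / 2500) : ℝ) := Real.rpow_pos_of_pos hr0 _
  set r' := min r (R ^ (1 / 100 : ℝ)) with hr'
  have hr100 : 1 ≤ r ^ (1 / 100 : ℝ) := Real.one_le_rpow hr (by norm_num)
  have hr100' : r ^ (1 / 100 : ℝ) ≤ r' := by
    apply le_min
    · calc r ^ (1 / 100 : ℝ) ≤ r ^ (1 : ℝ) := Real.rpow_le_rpow_of_exponent_le hr (by norm_num)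
        _ = r := Real.rpow_one r
    · exact Real.rpow_le_rpow hr0.le hrR (by norm_num)
  have hr'1 : 1 ≤ r' := hr100.trans hr100'
  have hr'r : r' ≤ r := min_le_left _ _
  have hr'R : r' ≤ R ^ (1 / 100 : ℝ) := min_le_right _ _
  have hL8 : 1 ≤ 256 * L ^ 8 := by
    have : (1 : ℝ) ≤ (2 * L) ^ 8 := one_le_pow₀ (by linarith)
    calc (1 : ℝ) ≤ (2 * L) ^ 8 := this
      _ = 256 * L ^ 8 := by ring
  by_cases hcase : C1 * L ^ 2 ≤ r'
  · have hLL : L ≤ 2 * L ^ 2 := by nlinarith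
    have hce : Ce * L ^ 2 ≤ r' := by
      refine le_trans ?_ hcase
      have : 0 ≤ L ^ 2 := by positivity
      apply mul_le_mul_of_nonneg_right _ this
      linarith
    have hcl : Cl * L ≤ r' := by
      refine le_trans ?_ hcase
      calc Cl * L ≤ Cl * (2 * L ^ 2) := by
            apply mul_le_mul_of_nonneg_left hLL (by linarith)
        _ = 2 * Cl * L ^ 2 := by ring
        _ ≤ C1 * L ^ 2 := by
            apply mul_le_mul_of_nonneg_right _ (by positivity)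
            linarith
    set X1 := X.filter (fun x => ∀ t, r' < ‖((T S N)^[t] x).2.1‖) with hX1
    set X2 := X.filter (fun x => ¬ ∀ t, r' < ‖((T S N)^[t] x).2.1‖) with hX2
    have hcard : (X.card : ℝ) = X1.card + X2.card := by
      have := Finset.card_filter_add_card_filter_not (s := X)
        (fun x => ∀ t, r' < ‖((T S N)^[t] x).2.1‖)
      exact_mod_cast this.symm
    have b1 := he R R r' hR (by linarith) hr'1 hce X1 (by
      intro x hx
      rw [hX1, Finset.mem_filter] at hx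
      obtain ⟨h1, h2, h3, -⟩ := hX x hx.1
      exact ⟨h1, h2, h3, hx.2⟩)
    have b2 := hl R r' hR hr'1 hcl hr'R X2 (by
      intro x hx
      rw [hX2, Finset.mem_filter] at hx
      obtain ⟨h1, h2, h3, h4⟩ := hX x hx.1
      refine ⟨h1, h2, h3, ?_⟩
      have h5 := hx.2
      push Not at h5
      obtain ⟨t, ht⟩ := h5
      exact ⟨t, ht, h4 t (ht.trans hr'r)⟩)
    have e1 : r' ^ (-(1 / 25) : ℝ) ≤ r ^ (-(1 / 2500) : ℝ) := by
      calc r' ^ (-(1 / 25) : ℝ) ≤ (r ^ (1 / 100 : ℝ)) ^ (-(1 / 25) : ℝ) :=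
            Real.rpow_le_rpow_of_nonpos (by linarith) hr100' (by norm_num)
        _ = r ^ (-(1 / 2500) : ℝ) := by
            rw [← Real.rpow_mul hr0.le]
            norm_num
    have e2 : R ^ (4 - 1 / 100 : ℝ) ≤ R ^ 4 * r ^ (-(1 / 2500) : ℝ) := by
      have h1 : R ^ (4 - 1 / 100 : ℝ) = R ^ 4 * R ^ (-(1 / 100) : ℝ) := by
        rw [← Real.rpow_natCast, ← Real.rpow_add hR0]
        norm_num
      rw [h1]
      apply mul_le_mul_of_nonneg_left _ (by positivity)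
      calc R ^ (-(1 / 100) : ℝ) ≤ r ^ (-(1 / 100) : ℝ) :=
            Real.rpow_le_rpow_of_nonpos hr0 hrR (by norm_num)
        _ ≤ r ^ (-(1 / 2500) : ℝ) := Real.rpow_le_rpow_of_exponent_le hr (by norm_num)
    set ρ := r ^ (-(1 / 2500) : ℝ) with hρ
    have hpos : 0 ≤ ρ * R ^ 4 := by positivity
    calc (X.card : ℝ) = X1.card + X2.card := hcard
      _ ≤ Ce * L ^ 8 * r' ^ (-(1 / 25) : ℝ) * R ^ 2 * R ^ 2 + Cl * R ^ (4 - 1 / 100 : ℝ) :=
          add_le_add b1 b2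
      _ ≤ Ce * L ^ 8 * ρ * R ^ 2 * R ^ 2 + Cl * (R ^ 4 * ρ) := by
          gcongr
      _ = Ce * L ^ 8 * (ρ * R ^ 4) + Cl * 1 * (ρ * R ^ 4) := by ring
      _ ≤ Ce * L ^ 8 * (ρ * R ^ 4) + Cl * (256 * L ^ 8) * (ρ * R ^ 4) := by
          gcongr
      _ = (Ce + 256 * Cl) * L ^ 8 * (ρ * R ^ 4) := by ring
      _ ≤ (Ce + 256 * Cl + (128 * N + 18) * (64 * C1)) * L ^ 8 * (ρ * R ^ 4) := by
          have h5 : 0 ≤ (128 * (N : ℝ) + 18) * (64 * C1) := by positivity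
          have h6 : Ce + 256 * Cl ≤ Ce + 256 * Cl + (128 * N + 18) * (64 * C1) := by linarith
          exact mul_le_mul_of_nonneg_right
            (mul_le_mul_of_nonneg_right h6 (by positivity)) hpos
      _ = _ := by ring
  · push Not at hcase
    have b := comb_trivial S N hN R hR X (fun x hx => by
      obtain ⟨h1, h2, h3, -⟩ := hX x hx
      exact ⟨h1, h2, h3⟩)
    have e1 : r ^ (1 / 2500 : ℝ) ≤ 64 * C1 * L ^ 8 := by
      calc r ^ (1 / 2500 : ℝ) ≤ r ^ (1 / 100 : ℝ) :=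
            Real.rpow_le_rpow_of_exponent_le hr (by norm_num)
        _ ≤ r' := hr100'
        _ ≤ C1 * L ^ 2 * 1 := by rw [mul_one]; exact hcase.le
        _ ≤ C1 * L ^ 2 * (2 * L) ^ 6 := by
            have : (1 : ℝ) ≤ (2 * L) ^ 6 := one_le_pow₀ (by linarith)
            gcongr
        _ = 64 * C1 * L ^ 8 := by ring
    have e2 : 1 ≤ (64 * C1 * L ^ 8) * r ^ (-(1 / 2500) : ℝ) := by
      calc (1 : ℝ) = r ^ (1 / 2500 : ℝ) * r ^ (-(1 / 2500) : ℝ) := by
            rw [← Real.rpow_add hr0]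
            norm_num
        _ ≤ _ := mul_le_mul_of_nonneg_right e1 hrp.le
    calc (X.card : ℝ) ≤ (128 * N + 18) * R ^ 4 * 1 := by rw [mul_one]; exact b
      _ ≤ (128 * N + 18) * R ^ 4 * ((64 * C1 * L ^ 8) * r ^ (-(1 / 2500) : ℝ)) := by
          gcongr
      _ = ((128 * N + 18) * (64 * C1)) * L ^ 8 * r ^ (-(1 / 2500) : ℝ) * R ^ 4 := by ring
      _ ≤ (Ce + 256 * Cl + (128 * N + 18) * (64 * C1)) * L ^ 8 * r ^ (-(1 / 2500) : ℝ) *
          R ^ 4 := by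
          have h5 : 0 ≤ Ce + 256 * Cl := by linarith
          have h6 : (128 * (N : ℝ) + 18) * (64 * C1) ≤
            Ce + 256 * Cl + (128 * N + 18) * (64 * C1) := by linarith
          exact mul_le_mul_of_nonneg_right (mul_le_mul_of_nonneg_right
            (mul_le_mul_of_nonneg_right h6 (by positivity)) hrp.le) (by positivity)

end Pool.Agent.H67.Tent
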