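import Mathlib

/-!
# Tent map on the lattice: basic definitions

`E = ℝ × ℂ × ℂ` (the real place and the two complex places of `ℚ(α)`), with the
componentwise ring structure.  `S.a`, `S.b` are the images of `α` and `β = α / (α - 1)`,
`S.Lam` the image of `ℤ[α]`.  Everything is scaled by `N`: the point `x ∈ (1/N) ℤ[α]` is
represented by `N x`, so the tent map acts on `[0, N]`.

A word is a list of Booleans, the head is the first digit, `false` is the left branch
`z ↦ a z`, `true` the right branch `z ↦ b (N - z)`.  `mul S w`, `off S N w` are slope and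
offset of the composition (head applied first).
-/

set_option autoImplicit false

namespace Pool.Agent.H67.Tent

/-- The Minkowski space. -/
abbrev E := ℝ × ℂ × ℂ

/-- The arithmetic data. -/
structure Sys where
  a : E
  b : E
  Lam : AddSubgroup E
  one_mem : (1 : E) ∈ Lam
  a_mul_mem : ∀ z ∈ Lam, a * z ∈ Lam
  b_mul_mem : ∀ z ∈ Lam, b * z ∈ Lam
  norm_ge : ∀ z ∈ Lam, z ≠ 0 → 1 ≤ |z.1| * ‖z.2.1‖ ^ 2 * ‖z.2.2‖ ^ 2
  a1_gt : 6 / 5 < a.1
  a1_lt : a.1 < 5 / 4
  b1_gt : 5 < b.1
  b1_lt : b.1 < 53 / 10
  inv_add : (a.1)⁻¹ + (b.1)⁻¹ = 1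
  prod_a : a.1 * ‖a.2.1‖ ^ 2 * ‖a.2.2‖ ^ 2 = 1
  prod_b : b.1 * ‖b.2.1‖ ^ 2 * ‖b.2.2‖ ^ 2 = 1
  a2_ge : 1 ≤ ‖a.2.1‖
  b2_ge : 1 / 2 ≤ ‖b.2.1‖
  b2_le : ‖b.2.1‖ ^ 2 ≤ 7 / 25
  a3_le : ‖a.2.2‖ ≤ 6 / 7
  b3_le : ‖b.2.2‖ ≤ 6 / 7
  kap : (a.1)⁻¹ * ‖a.2.1‖ ^ 2 + (b.1)⁻¹ * ‖b.2.1‖ ^ 2 ≤ 189 / 200
  lam : (a.1)⁻¹ * (‖a.2.2‖ / ‖a.2.1‖) + (b.1)⁻¹ * (‖b.2.2‖ / ‖b.2.1‖) ≤ 193 / 200

variable (S : Sys) (N : ℕ)

/-- The tent map (scaled by `N`). -/
noncomputable def T (z : E) : E := if z.1 ≤ N / S.a.1 then S.a * z else S.b * ((N : E) - z)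

/-- The digit: `true` for the right branch. -/
noncomputable def dig (z : E) : Bool := !decide (z.1 ≤ N / S.a.1)

/-- Slope of one letter. -/
noncomputable def letr (c : Bool) : E := if c then -S.b else S.a

/-- Offset of one letter. -/
noncomputable def loff (c : Bool) : E := if c then (N : E) * S.b else 0

/-- Slope of a word (head applied first). -/
noncomputable def mul : List Bool → E
  | [] => 1
  | (c :: w) => mul w * letr S c

/-- Offset of a word (head applied first). -/
noncomputable def off : List Bool → E
  | [] => 0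
  | (c :: w) => off w + mul S w * loff S N c

/-- The itinerary of length `n`. -/
noncomputable def itin : ℕ → E → List Bool
  | 0, _ => []
  | (n + 1), z => dig S N z :: itin n (T S N z)

/-- Lattice points with real coordinate in `[0, N]`. -/
def G (z : E) : Prop := z ∈ S.Lam ∧ 0 ≤ z.1 ∧ z.1 ≤ N

/-- Sum over all words of length `n`. -/
noncomputable def wsum : ℕ → (List Bool → ℝ) → ℝ
  | 0, f => f []
  | (n + 1), f => wsum n (fun w => f (false :: w)) + wsum n (fun w => f (true :: w))

section basic

theorem T_eq (z : E) : T S N z = letr S (dig S N z) * z + loff S N (dig S N z) := by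
  unfold T dig letr loff
  by_cases h : z.1 ≤ N / S.a.1
  · simp [h]
  · simp only [h, if_false, decide_false, Bool.not_false, if_true]
    ring

theorem itin_length (n : ℕ) (z : E) : (itin S N n z).length = n := by
  induction n generalizing z with
  | zero => rfl
  | succ n ih => simp [itin, ih]

theorem iter_eq (n : ℕ) (z : E) :
    (T S N)^[n] z = mul S (itin S N n z) * z + off S N (itin S N n z) := by
  induction n generalizing z with
  | zero => simp [itin, mul, off]
  | succ n ih =>
    rw [Function.iterate_succ_apply, ih, itin, mul, off, T_eq S N z]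
    ring

theorem N_mem : (N : E) ∈ S.Lam := by
  have := S.Lam.nsmul_mem S.one_mem N
  rwa [nsmul_eq_mul, mul_one] at this

theorem letr_mul_mem (c : Bool) {z : E} (hz : z ∈ S.Lam) : letr S c * z ∈ S.Lam := by
  unfold letr
  cases c
  · simpa using S.a_mul_mem z hz
  · simpa using S.Lam.neg_mem (S.b_mul_mem z hz)

theorem mul_mul_mem (w : List Bool) {z : E} (hz : z ∈ S.Lam) : mul S w * z ∈ S.Lam := by
  induction w generalizing z with
  | nil => simpa [mul] using hz
  | cons c w ih =>
    rw [mul, mul_assoc]
    exact ih (letr_mul_mem S c hz)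

theorem loff_mem (c : Bool) : loff S N c ∈ S.Lam := by
  unfold loff
  cases c
  · simpa using S.Lam.zero_mem
  · have := S.b_mul_mem _ (N_mem S N)
    simpa [mul_comm] using this

theorem off_mem (w : List Bool) : off S N w ∈ S.Lam := by
  induction w with
  | nil => simpa [off] using S.Lam.zero_mem
  | cons c w ih =>
    rw [off]
    exact S.Lam.add_mem ih (mul_mul_mem S w (loff_mem S N c))

theorem a1_pos : 0 < S.a.1 := by linarith [S.a1_gt]

theorem b1_pos : 0 < S.b.1 := by linarith [S.b1_gt]

theorem T_mem {z : E} (hz : z ∈ S.Lam) : T S N z ∈ S.Lam := by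
  rw [T_eq]
  exact S.Lam.add_mem (letr_mul_mem S _ hz) (loff_mem S N _)

theorem G_T {z : E} (hz : G S N z) : G S N (T S N z) := by
  obtain ⟨h1, h2, h3⟩ := hz
  refine ⟨T_mem S N h1, ?_, ?_⟩
  · unfold T
    split_ifs with h
    · exact mul_nonneg (a1_pos S).le h2
    · exact mul_nonneg (b1_pos S).le (by simpa using h3)
  · unfold T
    split_ifs with h
    · have := mul_le_mul_of_nonneg_left h (a1_pos S).le
      rw [mul_div_cancel₀ _ (a1_pos S).ne'] at this
      exact this
    · push Not at h
      have h4 : (N : ℝ) - z.1 ≤ N * (S.b.1)⁻¹ := by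
        have h5 : (S.b.1)⁻¹ = 1 - (S.a.1)⁻¹ := by linarith [S.inv_add]
        rw [h5, mul_sub, mul_one]
        have : (N : ℝ) * (S.a.1)⁻¹ = N / S.a.1 := rfl
        linarith
      have h6 := mul_le_mul_of_nonneg_left h4 (b1_pos S).le
      have h7 : S.b.1 * ((N : ℝ) * (S.b.1)⁻¹) = N := by
        field_simp [(b1_pos S).ne']
      rw [h7] at h6
      simpa using h6

theorem G_iter {z : E} (hz : G S N z) (n : ℕ) : G S N ((T S N)^[n] z) := by
  induction n generalizing z with
  | zero => simpa using hz
  | succ n ih =>
    rw [Function.iterate_succ_apply]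
    exact ih (G_T S N hz)

theorem mul_abs1 (w : List Bool) :
    |(mul S w).1| = S.a.1 ^ (w.count false) * S.b.1 ^ (w.count true) := by
  induction w with
  | nil => simp [mul]
  | cons c w ih =>
    rw [mul, Prod.fst_mul, abs_mul, ih]
    cases c
    · simp only [letr, List.count_cons_self, Bool.false_eq_true, if_false]
      rw [List.count_cons_of_ne (by simp), abs_of_pos (a1_pos S), pow_succ]
      ring
    · simp only [letr, List.count_cons_self, if_true, Prod.fst_neg, abs_neg]
      rw [List.count_cons_of_ne (by simp), abs_of_pos (b1_pos S), pow_succ]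
      ring

theorem mul_norm2 (w : List Bool) :
    ‖(mul S w).2.1‖ = ‖S.a.2.1‖ ^ (w.count false) * ‖S.b.2.1‖ ^ (w.count true) := by
  induction w with
  | nil => simp [mul]
  | cons c w ih =>
    rw [mul, Prod.snd_mul, Prod.fst_mul, norm_mul, ih]
    cases c
    · simp only [letr, List.count_cons_self, Bool.false_eq_true, if_false]
      rw [List.count_cons_of_ne (by simp), pow_succ]
      ring
    · simp only [letr, List.count_cons_self, if_true, Prod.snd_neg, Prod.fst_neg, norm_neg]
      rw [List.count_cons_of_ne (by simp), pow_succ]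
      ring

theorem mul_norm3 (w : List Bool) :
    ‖(mul S w).2.2‖ = ‖S.a.2.2‖ ^ (w.count false) * ‖S.b.2.2‖ ^ (w.count true) := by
  induction w with
  | nil => simp [mul]
  | cons c w ih =>
    rw [mul, Prod.snd_mul, Prod.snd_mul, norm_mul, ih]
    cases c
    · simp only [letr, List.count_cons_self, Bool.false_eq_true, if_false]
      rw [List.count_cons_of_ne (by simp), pow_succ]
      ring
    · simp only [letr, List.count_cons_self, if_true, Prod.snd_neg, norm_neg]
      rw [List.count_cons_of_ne (by simp), pow_succ]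
      ring

/-- The product formula. -/
theorem mul_prod (w : List Bool) :
    |(mul S w).1| * ‖(mul S w).2.1‖ ^ 2 * ‖(mul S w).2.2‖ ^ 2 = 1 := by
  rw [mul_abs1, mul_norm2, mul_norm3]
  calc _ = (S.a.1 * ‖S.a.2.1‖ ^ 2 * ‖S.a.2.2‖ ^ 2) ^ (w.count false) *
        (S.b.1 * ‖S.b.2.1‖ ^ 2 * ‖S.b.2.2‖ ^ 2) ^ (w.count true) := by
        simp only [mul_pow, ← pow_mul]
        ring
    _ = 1 := by rw [S.prod_a, S.prod_b, one_pow, one_pow, one_mul]

theorem mul_abs1_pos (w : List Bool) : 0 < |(mul S w).1| := by
  rw [mul_abs1]
  have := a1_pos S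
  have := b1_pos S
  positivity

theorem a2_pos : 0 < ‖S.a.2.1‖ := lt_of_lt_of_le one_pos S.a2_ge

theorem b2_pos : 0 < ‖S.b.2.1‖ := lt_of_lt_of_le (by norm_num) S.b2_ge

theorem a3_pos : 0 < ‖S.a.2.2‖ := by
  rcases (norm_nonneg S.a.2.2).eq_or_lt with h | h
  · exfalso
    have := S.prod_a
    rw [← h] at this
    norm_num at this
  · exact h

theorem b3_pos : 0 < ‖S.b.2.2‖ := by
  rcases (norm_nonneg S.b.2.2).eq_or_lt with h | h
  · exfalso
    have := S.prod_b
    rw [← h] at this
    norm_num at this
  · exact h

theorem mul_norm2_pos (w : List Bool) : 0 < ‖(mul S w).2.1‖ := by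
  rw [mul_norm2]
  have := a2_pos S
  have := b2_pos S
  positivity

theorem mul_norm3_pos (w : List Bool) : 0 < ‖(mul S w).2.2‖ := by
  rw [mul_norm3]
  have := a3_pos S
  have := b3_pos S
  positivity

theorem mul_abs1_ge_one (w : List Bool) : 1 ≤ |(mul S w).1| := by
  rw [mul_abs1]
  have h1 : (1 : ℝ) ≤ S.a.1 ^ (w.count false) := one_le_pow₀ (by linarith [S.a1_gt])
  have h2 : (1 : ℝ) ≤ S.b.1 ^ (w.count true) := one_le_pow₀ (by linarith [S.b1_gt])
  nlinarith

/-- The slope is determined by the number of letters of each kind. -/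
theorem mul_eq_of_count {w w' : List Bool} (h0 : w.count false = w'.count false)
    (h1 : w.count true = w'.count true) : mul S w = mul S w' := by
  have key : ∀ v : List Bool, mul S v = S.a ^ (v.count false) * (-S.b) ^ (v.count true) := by
    intro v
    induction v with
    | nil => simp [mul]
    | cons c v ih =>
      rw [mul, ih]
      cases c
      · simp only [letr, List.count_cons_self, Bool.false_eq_true, if_false]
        rw [List.count_cons_of_ne (by simp), pow_succ]
        ring
      · simp only [letr, List.count_cons_self, if_true]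
        rw [List.count_cons_of_ne (by simp), pow_succ (-S.b)]
        ring
  rw [key, key, h0, h1]

theorem count_add (w : List Bool) : w.count false + w.count true = w.length := by
  induction w with
  | nil => rfl
  | cons c w ih =>
    cases c
    · rw [List.count_cons_self, List.count_cons_of_ne (by simp), List.length_cons]
      omega
    · rw [List.count_cons_self, List.count_cons_of_ne (by simp), List.length_cons]
      omega

theorem wsum_mono {n : ℕ} {f g : List Bool → ℝ} (h : ∀ w : List Bool, w.length = n → f w ≤ g w) :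
    wsum n f ≤ wsum n g := by
  induction n generalizing f g with
  | zero => exact h [] rfl
  | succ n ih =>
    exact add_le_add (ih fun w hw => h _ (by simp [hw])) (ih fun w hw => h _ (by simp [hw]))

theorem wsum_const_mul (n : ℕ) (c : ℝ) (f : List Bool → ℝ) :
    wsum n (fun w => c * f w) = c * wsum n f := by
  induction n generalizing f with
  | zero => rfl
  | succ n ih => simp only [wsum, ih, mul_add]

theorem wsum_add (n : ℕ) (f g : List Bool → ℝ) :
    wsum n (fun w => f w + g w) = wsum n f + wsum n g := by
  induction n generalizing f g with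
  | zero => rfl
  | succ n ih => simp only [wsum, ih]; ring

/-- Splitting a finite set according to a word of length `n`. -/
theorem card_eq_wsum {ι : Type*} (n : ℕ) (X : Finset ι) (i : ι → List Bool)
    (hi : ∀ x ∈ X, (i x).length = n) :
    (X.card : ℝ) = wsum n (fun w => ((X.filter (fun x => i x = w)).card : ℝ)) := by
  classical
  induction n generalizing X i with
  | zero =>
    simp only [wsum]
    rw [Finset.filter_true_of_mem]
    intro x hx
    exact List.length_eq_zero_iff.1 (hi x hx)
  | succ n ih =>
    simp only [wsum]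
    have key : ∀ c : Bool, ((X.filter (fun x => (i x).head? = some c)).card : ℝ) =
        wsum n (fun w => ((X.filter (fun x => i x = c :: w)).card : ℝ)) := by
      intro c
      rw [ih (X.filter (fun x => (i x).head? = some c)) (fun x => (i x).tail)]
      · congr 1
        funext w
        congr 2
        ext x
        simp only [Finset.mem_filter]
        constructor
        · rintro ⟨⟨hx, h1⟩, h2⟩
          refine ⟨hx, ?_⟩
          rw [← h2]
          exact (List.cons_head?_tail h1).symm
        · rintro ⟨hx, h1⟩
          rw [h1]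
          exact ⟨⟨hx, rfl⟩, rfl⟩
      · intro x hx
        rw [List.length_tail, hi x (Finset.mem_filter.1 hx).1]
        rfl
    rw [← key, ← key]
    have hsplit : X = X.filter (fun x => (i x).head? = some false) ∪
        X.filter (fun x => (i x).head? = some true) := by
      ext x
      simp only [Finset.mem_union, Finset.mem_filter]
      constructor
      · intro hx
        have h1 : (i x).length = n + 1 := hi x hx
        rcases h : i x with _ | ⟨c, w⟩
        · rw [h] at h1; simp at h1
        · cases c
          · left; exact ⟨hx, by simp⟩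
          · right; exact ⟨hx, by simp⟩
      · rintro (⟨hx, -⟩ | ⟨hx, -⟩) <;> exact hx
    have hdisj : Disjoint (X.filter (fun x => (i x).head? = some false))
        (X.filter (fun x => (i x).head? = some true)) := by
      rw [Finset.disjoint_left]
      intro x h1 h2
      have h3 := (Finset.mem_filter.1 h1).2
      rw [(Finset.mem_filter.1 h2).2] at h3
      simp at h3
    conv_lhs => rw [hsplit]
    rw [Finset.card_union_of_disjoint hdisj]
    push_cast
    ring

end basic

end Pool.Agent.H67.Tent
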