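import Pool.Agent.H67.Tent.Cls

/-!
TE-7. Points whose orbit never comes below level `r`.

Proof. We may assume `r ≤ R2` (otherwise `X` is empty, take `t = 0`). Levels
`s_j = r 2^j`, `j = 0, …, J`, where `J` is the least number with `R2 ≤ s_J`; so `s_J ≤ 2 R2`,
`J ≤ log R2 / log 2 + 1`. Times: `N_j = ∑_{i = j+1}^{J} nst S (s_i)`, `N_J = 0`;
`nst S (s_i) ≤ 2 log (2 R2)` (`nst_le`), so `N_j ≤ K` with `K = J * ⌊2 log (2 R2)⌋₊`-like bound
`≤ C1 (log R2)^2` (`R2 ≥ 2`). The constant `C` is chosen such that `C (log R2)^2 ≥ 10 N (K + 1)`.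

For `x ∈ X` let `j` be minimal such that `‖(T^[t] x).2.1‖ ≤ s_j` for some `t ≤ N_j`
(`j = J`, `t = 0` works); `j ≥ 1` because level `r = s_0` is never reached. Let `n ≤ N_j` be the
first such time: `FP S N s_j n x`. For `i ≤ nst S (s_j)`: `n + i ≤ N_{j-1}`, so
`s_j / 2 = s_{j-1} < ‖(T^[n+i] x).2.1‖` by minimality of `j`. So `x` lies in the set
`X_{j,n,k}` to which `cls` applies with `s = s_j`, `k = (itin S N n x).count true ≤ n`. Hence
`#X ≤ ∑_{j=1}^J ∑_{n ≤ K} ∑_{k ≤ n} C0 (n+1)² s_j^(-1/25) R2² R3²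
    ≤ C0 (K+1)^4 R2² R3² r^(-1/25) ∑_j 2^(-j/25)`, a convergent geometric series, and
`(K+1)^4 ≤ C (log R2)^8` since `log R2 ≥ log 2`.
-/

set_option autoImplicit false

namespace Pool.Agent.H67.Tent

/-- The levels. -/
noncomputable def excLev (r : ℝ) (j : ℕ) : ℝ := r * 2 ^ j

/-- The times. -/
noncomputable def excTime (S : Sys) (r : ℝ) (J j : ℕ) : ℕ :=
  ∑ i ∈ Finset.Ioc j J, nst S (excLev r i)

theorem exc_time_pred (S : Sys) (r : ℝ) {J j : ℕ} (hj : 1 ≤ j) (hJ : j ≤ J) :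
    excTime S r J (j - 1) = nst S (excLev r j) + excTime S r J j := by
  unfold excTime
  have h : Finset.Ioc (j - 1) J = insert j (Finset.Ioc j J) := by
    ext i
    simp only [Finset.mem_Ioc, Finset.mem_insert]
    omega
  rw [h, Finset.sum_insert (by simp)]

/-- The stage of a point. -/
theorem exc_stage (S : Sys) (N : ℕ) {r : ℝ} {J : ℕ} {x : E} (hJ : ‖x.2.1‖ ≤ excLev r J)
    (hx : ∀ t, r < ‖((T S N)^[t] x).2.1‖) :
    ∃ j n : ℕ, 1 ≤ j ∧ j ≤ J ∧ n ≤ excTime S r J j ∧ FP S N (excLev r j) n x ∧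
      ∀ i ≤ nst S (excLev r j), excLev r j / 2 < ‖((T S N)^[i] ((T S N)^[n] x)).2.1‖ := by
  classical
  have hex : ∃ j, ∃ t ≤ excTime S r J j, ‖((T S N)^[t] x).2.1‖ ≤ excLev r j :=
    ⟨J, 0, Nat.zero_le _, by simpa using hJ⟩
  set j := Nat.find hex with hjdef
  have hjJ : j ≤ J := Nat.find_min' hex ⟨0, Nat.zero_le _, by simpa using hJ⟩
  have hj1 : 1 ≤ j := by
    by_contra hc
    have h0 : j = 0 := by omega
    obtain ⟨t, -, ht⟩ := Nat.find_spec hex
    rw [← hjdef, h0] at ht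
    have h1 := hx t
    unfold excLev at ht
    rw [pow_zero, mul_one] at ht
    linarith
  obtain ⟨t0, ht0, ht0'⟩ := Nat.find_spec hex
  rw [← hjdef] at ht0 ht0'
  have hex2 : ∃ t, ‖((T S N)^[t] x).2.1‖ ≤ excLev r j := ⟨t0, ht0'⟩
  set n := Nat.find hex2 with hndef
  have hn : n ≤ t0 := Nat.find_min' hex2 ht0'
  refine ⟨j, n, hj1, hjJ, hn.trans ht0, ⟨fun t ht => ?_, Nat.find_spec hex2⟩, fun i hi => ?_⟩
  · exact not_le.1 (Nat.find_min hex2 ht)
  · have hnot := Nat.find_min hex (show j - 1 < Nat.find hex by rw [← hjdef]; omega)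
    push Not at hnot
    have h1 := hnot (i + n) (by
      rw [exc_time_pred S r hj1 hjJ]
      omega)
    rw [Function.iterate_add_apply] at h1
    have h2 : excLev r (j - 1) = excLev r j / 2 := by
      obtain ⟨m, hm⟩ : ∃ m, j = m + 1 := ⟨j - 1, by omega⟩
      rw [hm, Nat.add_sub_cancel]
      unfold excLev
      rw [pow_succ]
      ring
    rw [← h2]
    exact h1

theorem exc_rpow (r : ℝ) (hr : 1 ≤ r) (j : ℕ) :
    (excLev r j) ^ (-(1 / 25) : ℝ) = r ^ (-(1 / 25) : ℝ) * ((2 : ℝ) ^ (-(1 / 25) : ℝ)) ^ j := by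
  unfold excLev
  rw [Real.mul_rpow (by linarith) (by positivity)]
  congr 1
  rw [← Real.rpow_natCast, ← Real.rpow_mul (by norm_num), mul_comm, Real.rpow_mul (by norm_num),
    Real.rpow_natCast]

theorem exc_geom (r : ℝ) (hr : 1 ≤ r) (J : ℕ) :
    ∑ j ∈ Finset.Ico 1 (J + 1), (excLev r j) ^ (-(1 / 25) : ℝ) ≤
      r ^ (-(1 / 25) : ℝ) * (1 - (2 : ℝ) ^ (-(1 / 25) : ℝ))⁻¹ := by
  have hq0 : (0 : ℝ) ≤ (2 : ℝ) ^ (-(1 / 25) : ℝ) := by positivity
  have hq1 : (2 : ℝ) ^ (-(1 / 25) : ℝ) < 1 :=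
    Real.rpow_lt_one_of_one_lt_of_neg (by norm_num) (by norm_num)
  simp_rw [exc_rpow r hr, ← Finset.mul_sum]
  refine mul_le_mul_of_nonneg_left ?_ (by positivity)
  rw [← tsum_geometric_of_lt_one hq0 hq1]
  exact (summable_geometric_of_lt_one hq0 hq1).sum_le_tsum _ (fun i _ => pow_nonneg hq0 i)

theorem exc (S : Sys) (N : ℕ) (hN : 1 ≤ N) : ∃ C : ℝ, 1 ≤ C ∧
    ∀ R2 R3 r : ℝ, 2 ≤ R2 → 1 ≤ R3 → 1 ≤ r → C * (Real.log R2) ^ 2 ≤ r →
    ∀ X : Finset E, (∀ x ∈ X, G S N x ∧ ‖x.2.1‖ ≤ R2 ∧ ‖x.2.2‖ ≤ R3 ∧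
      ∀ t, r < ‖((T S N)^[t] x).2.1‖) →
    (X.card : ℝ) ≤ C * (Real.log R2) ^ 8 * r ^ (-(1 / 25) : ℝ) * R2 ^ 2 * R3 ^ 2 := by
  classical
  obtain ⟨C0, hC0, hcls⟩ := cls S N hN
  have hN' : (1 : ℝ) ≤ N := by exact_mod_cast hN
  have hq1 : (2 : ℝ) ^ (-(1 / 25) : ℝ) < 1 :=
    Real.rpow_lt_one_of_one_lt_of_neg (by norm_num) (by norm_num)
  set Q : ℝ := (1 - (2 : ℝ) ^ (-(1 / 25) : ℝ))⁻¹ with hQ
  have hQ0 : 0 < Q := inv_pos.2 (by linarith)
  refine ⟨150 * N + C0 * 15 ^ 4 * Q, ?_, ?_⟩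
  · have : 0 ≤ C0 * 15 ^ 4 * Q := by positivity
    linarith
  intro R2 R3 r hR2 hR3 hr hCr X hX
  set L := Real.log R2 with hL
  have hlog2 : (0.69 : ℝ) < Real.log 2 := by
    have := Real.log_two_gt_d9
    linarith
  have hLge : (0.69 : ℝ) < L := hlog2.trans_le (Real.log_le_log (by norm_num) hR2)
  have hRHS : 0 ≤ (150 * (N : ℝ) + C0 * 15 ^ 4 * Q) * L ^ 8 * r ^ (-(1 / 25) : ℝ) * R2 ^ 2 *
      R3 ^ 2 := by positivity
  by_cases hrR : R2 < r
  · have hempty : X = ∅ := by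
      rw [Finset.eq_empty_iff_forall_notMem]
      intro x hx
      obtain ⟨-, h2, -, h4⟩ := hX x hx
      have h5 := h4 0
      simp only [Function.iterate_zero, id_eq] at h5
      linarith
    rw [hempty, Finset.card_empty, Nat.cast_zero]
    exact hRHS
  push Not at hrR
  have hr0 : 0 < r := by linarith
  -- the number of levels
  set J := ⌈Real.log (R2 / r) / Real.log 2⌉₊ with hJ
  have hlog2' : 0 < Real.log 2 := by linarith
  have hquot : 1 ≤ R2 / r := by rwa [one_le_div hr0]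
  have hlogq : 0 ≤ Real.log (R2 / r) := Real.log_nonneg hquot
  have hJ1 : Real.log (R2 / r) ≤ J * Real.log 2 := by
    have := Nat.le_ceil (Real.log (R2 / r) / Real.log 2)
    rwa [div_le_iff₀ hlog2'] at this
  have hJ2 : (J : ℝ) < Real.log (R2 / r) / Real.log 2 + 1 :=
    Nat.ceil_lt_add_one (by positivity)
  have hlogqL : Real.log (R2 / r) ≤ L := by
    refine Real.log_le_log (by positivity) ?_
    exact div_le_self (by linarith) hr
  have hJ3 : (J : ℝ) ≤ 3 * L := by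
    have h1 : Real.log (R2 / r) / Real.log 2 ≤ L / 0.69 := by
      refine div_le_div₀ (by linarith) hlogqL (by norm_num) hlog2.le
    have h2 : (1 : ℝ) ≤ L / 0.69 := by
      rw [le_div_iff₀ (by norm_num)]
      linarith
    have h3 : L / 0.69 + L / 0.69 ≤ 3 * L := by
      rw [← add_div, div_le_iff₀ (by norm_num)]
      nlinarith
    linarith
  have hlevJ : R2 ≤ excLev r J := by
    unfold excLev
    have h1 : R2 / r ≤ 2 ^ J := by
      rw [← Real.log_le_log_iff (by positivity) (by positivity), Real.log_pow]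
      exact hJ1
    rw [div_le_iff₀ hr0] at h1
    linarith
  have hlevJ2 : excLev r J ≤ 2 * R2 := by
    unfold excLev
    have h1 : (2 : ℝ) ^ J ≤ 2 * (R2 / r) := by
      rw [← Real.log_le_log_iff (by positivity) (by positivity), Real.log_pow,
        Real.log_mul (by norm_num) (by positivity)]
      have h2 : (J : ℝ) * Real.log 2 ≤ (Real.log (R2 / r) / Real.log 2 + 1) * Real.log 2 :=
        mul_le_mul_of_nonneg_right hJ2.le hlog2'.le
      have h3 : (Real.log (R2 / r) / Real.log 2 + 1) * Real.log 2 =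
          Real.log (R2 / r) + Real.log 2 := by
        field_simp
      linarith
    have h2 : r * (2 * (R2 / r)) = 2 * R2 := by field_simp
    calc r * 2 ^ J ≤ r * (2 * (R2 / r)) := mul_le_mul_of_nonneg_left h1 hr0.le
      _ = 2 * R2 := h2
  have hlev_mono : ∀ {i j : ℕ}, i ≤ j → excLev r i ≤ excLev r j := by
    intro i j hij
    unfold excLev
    exact mul_le_mul_of_nonneg_left (pow_le_pow_right₀ (by norm_num) hij) hr0.le
  have hlev_ge : ∀ j, r ≤ excLev r j := by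
    intro j
    have := hlev_mono (Nat.zero_le j)
    unfold excLev at this ⊢
    simpa using this
  -- the bound of the times
  set K := ⌊12 * L ^ 2⌋₊ with hK
  have htime : ∀ j, excTime S r J j ≤ K := by
    intro j
    rw [hK]
    apply Nat.le_floor
    unfold excTime
    push_cast
    have h1 : ∀ i ∈ Finset.Ioc j J, (nst S (excLev r i) : ℝ) ≤ 4 * L := by
      intro i hi
      have hi' := (Finset.mem_Ioc.1 hi).2
      have h2 := nst_le S (excLev r i) (hr.trans (hlev_ge i))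
      have h3 : Real.log (excLev r i) ≤ Real.log 2 + L := by
        rw [← Real.log_mul (by norm_num) (by positivity)]
        exact Real.log_le_log (by linarith [hlev_ge i]) ((hlev_mono hi').trans hlevJ2)
      have h4 : Real.log 2 ≤ L := Real.log_le_log (by norm_num) hR2
      linarith
    refine (Finset.sum_le_sum h1).trans ?_
    rw [Finset.sum_const, Nat.card_Ioc, nsmul_eq_mul]
    have h2 : ((J - j : ℕ) : ℝ) ≤ J := by exact_mod_cast Nat.sub_le J j
    have h3 : (0 : ℝ) ≤ 4 * L := by linarith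
    nlinarith [mul_le_mul_of_nonneg_right (h2.trans hJ3) h3]
  have hK1 : (K : ℝ) + 1 ≤ 15 * L ^ 2 := by
    have h1 : (K : ℝ) ≤ 12 * L ^ 2 := Nat.floor_le (by positivity)
    nlinarith
  -- the pieces
  let P : ℕ × ℕ × ℕ → E → Prop := fun p x => FP S N (excLev r p.1) p.2.1 x ∧
    (itin S N p.2.1 x).count true = p.2.2 ∧
    ∀ i ≤ nst S (excLev r p.1), excLev r p.1 / 2 < ‖((T S N)^[i] ((T S N)^[p.2.1] x)).2.1‖
  let I : Finset (ℕ × ℕ × ℕ) :=
    Finset.Ico 1 (J + 1) ×ˢ (Finset.range (K + 1) ×ˢ Finset.range (K + 1))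
  have hcover : X ⊆ I.biUnion (fun p => X.filter (P p)) := by
    intro x hx
    obtain ⟨h1, h2, h3, h4⟩ := hX x hx
    obtain ⟨j, n, hj1, hjJ, hn, hFP, hst⟩ := exc_stage S N (h2.trans hlevJ) h4
    rw [Finset.mem_biUnion]
    refine ⟨(j, n, (itin S N n x).count true), ?_, Finset.mem_filter.2 ⟨hx, hFP, rfl, hst⟩⟩
    have hnK : n ≤ K := hn.trans (htime j)
    have hc : (itin S N n x).count true ≤ n := by
      have := List.count_le_length (a := true) (l := itin S N n x)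
      rwa [itin_length] at this
    simp only [I, Finset.mem_product, Finset.mem_Ico, Finset.mem_range]
    omega
  have hpiece : ∀ p ∈ I, ((X.filter (P p)).card : ℝ) ≤
      C0 * ((K : ℝ) + 1) ^ 2 * (excLev r p.1) ^ (-(1 / 25) : ℝ) * R2 ^ 2 * R3 ^ 2 := by
    rintro ⟨j, n, k⟩ hp
    simp only [I, Finset.mem_product, Finset.mem_Ico, Finset.mem_range] at hp
    have hnK : (n : ℝ) ≤ K := by exact_mod_cast (by omega : n ≤ K)
    have h1 := hcls (excLev r j) R2 R3 n k (hr.trans (hlev_ge j)) (by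
      have h2 : 150 * (N : ℝ) * L ^ 2 ≤ r := by
        have h3 : 0 ≤ C0 * 15 ^ 4 * Q * L ^ 2 := by positivity
        nlinarith
      have h4 : (N : ℝ) * n ≤ N * (15 * L ^ 2) :=
        mul_le_mul_of_nonneg_left (by linarith) (by linarith)
      have := hlev_ge j
      nlinarith) ((hlev_mono (by omega)).trans hlevJ2) hR3 (X.filter (P (j, n, k))) (by
      intro x hx
      obtain ⟨hxX, hP⟩ := Finset.mem_filter.1 hx
      obtain ⟨h1, h2, h3, -⟩ := hX x hxX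
      exact ⟨h1, h2, h3, hP.1, hP.2.1, hP.2.2⟩)
    refine h1.trans ?_
    have h5 : ((n : ℝ) + 1) ^ 2 ≤ ((K : ℝ) + 1) ^ 2 :=
      pow_le_pow_left₀ (by positivity) (by linarith) 2
    have h6 : 0 ≤ (excLev r j) ^ (-(1 / 25) : ℝ) :=
      Real.rpow_nonneg (by linarith [hlev_ge j]) _
    have h7 : C0 * ((n : ℝ) + 1) ^ 2 ≤ C0 * ((K : ℝ) + 1) ^ 2 :=
      mul_le_mul_of_nonneg_left h5 hC0.le
    gcongr
  have hsum : (X.card : ℝ) ≤ ∑ p ∈ I,
      C0 * ((K : ℝ) + 1) ^ 2 * (excLev r p.1) ^ (-(1 / 25) : ℝ) * R2 ^ 2 * R3 ^ 2 := by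
    calc (X.card : ℝ) ≤ ((I.biUnion (fun p => X.filter (P p))).card : ℝ) := by
          exact_mod_cast Finset.card_le_card hcover
      _ ≤ ∑ p ∈ I, ((X.filter (P p)).card : ℝ) := by
          exact_mod_cast Finset.card_biUnion_le
      _ ≤ _ := Finset.sum_le_sum hpiece
  have hsum2 : ∑ p ∈ I,
      C0 * ((K : ℝ) + 1) ^ 2 * (excLev r p.1) ^ (-(1 / 25) : ℝ) * R2 ^ 2 * R3 ^ 2 =
      (C0 * ((K : ℝ) + 1) ^ 4 * R2 ^ 2 * R3 ^ 2) *
        ∑ j ∈ Finset.Ico 1 (J + 1), (excLev r j) ^ (-(1 / 25) : ℝ) := by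
    rw [Finset.sum_product, Finset.mul_sum]
    refine Finset.sum_congr rfl fun j _ => ?_
    simp only []
    rw [Finset.sum_const, Finset.card_product, Finset.card_range, nsmul_eq_mul]
    push_cast
    ring
  rw [hsum2] at hsum
  have hgeom := exc_geom r hr J
  rw [← hQ] at hgeom
  have hK4 : ((K : ℝ) + 1) ^ 4 ≤ 15 ^ 4 * L ^ 8 := by
    calc ((K : ℝ) + 1) ^ 4 ≤ (15 * L ^ 2) ^ 4 := pow_le_pow_left₀ (by positivity) hK1 4
      _ = 15 ^ 4 * L ^ 8 := by ring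
  have hrp : 0 ≤ r ^ (-(1 / 25) : ℝ) := Real.rpow_nonneg hr0.le _
  calc (X.card : ℝ) ≤ (C0 * ((K : ℝ) + 1) ^ 4 * R2 ^ 2 * R3 ^ 2) *
        (r ^ (-(1 / 25) : ℝ) * Q) :=
        hsum.trans (mul_le_mul_of_nonneg_left hgeom (by positivity))
    _ ≤ (C0 * (15 ^ 4 * L ^ 8) * R2 ^ 2 * R3 ^ 2) * (r ^ (-(1 / 25) : ℝ) * Q) := by gcongr
    _ = (C0 * 15 ^ 4 * Q) * (L ^ 8 * r ^ (-(1 / 25) : ℝ) * R2 ^ 2 * R3 ^ 2) := by ring
    _ ≤ (150 * N + C0 * 15 ^ 4 * Q) * (L ^ 8 * r ^ (-(1 / 25) : ℝ) * R2 ^ 2 * R3 ^ 2) := by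
        refine mul_le_mul_of_nonneg_right ?_ (by positivity)
        linarith
    _ = _ := by ring

end Pool.Agent.H67.Tent
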