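import Pool.Agent.H67.Tent.Count
import Pool.Agent.H67.Tent.Avg

/-!
TE-4. One stage: few lattice points at level `s` do not descend below `s / 2` quickly.

Proof of `stage`. Let `n = nst S s`, so `b1 ^ n ≤ s ^ 2 < b1 ^ (n + 1)`. Split `Y` according to
`w = itin S N n y` (`card_eq_wsum`). For `y` in the part `Y_w`, `T^[n] y = mul w * y + off w`
has real coordinate in `[0, N]` (`G_iter`), so `y.1` lies in an interval of length
`N / |(mul w).1|`; by `count_box` (with `c2 = c3 = 0`, `ρ2 = s`, `ρ3 = S3`)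
`#Y_w ≤ 128 (N / |m1|) s² S3² + 18 ≤ (128 N + 18) s² S3² |m1|⁻¹`, since
`|m1| ≤ b1 ^ n ≤ s²` (`mul_abs1`, `a1 ≤ b1`, `count_add`). If `Y_w` is nonempty then
`s / 2 < ‖(mul w).2.1‖ s + ‖(off w).2.1‖ =: A_w`, so `1 ≤ 4 A_w² / s²` and in every case
`#Y_w ≤ (128 N + 18) S3² * 4 * |m1|⁻¹ A_w²`. Sum over `w` and use `second_moment`:
`#Y ≤ 4 (128 N + 18) S3² ((24/25)^n s² + 25 N²)`. Finally `(24/25)^(n+1) ≤ s^(-1/25)`, because
`(24/25)^50 * b1 ≤ 1` (`b1 < 5.3`), so `((24/25)^(n+1))^50 ≤ b1^(-(n+1)) ≤ s^(-2)`; and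
`25 N² ≤ 25 N² s^(2 - 1/25)` as `s ≥ 1`.

`nst_le`: `log b1 ≥ 1`.
-/

set_option autoImplicit false

namespace Pool.Agent.H67.Tent

/-- Number of steps of one stage. -/
noncomputable def nst (S : Sys) (s : ℝ) : ℕ := ⌊2 * Real.log s / Real.log S.b.1⌋₊

theorem stage_logb (S : Sys) : 1 ≤ Real.log S.b.1 := by
  have h1 : Real.exp 1 ≤ S.b.1 := by
    have := Real.exp_one_lt_d9
    have := S.b1_gt
    linarith
  calc (1 : ℝ) = Real.log (Real.exp 1) := (Real.log_exp 1).symm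
    _ ≤ Real.log S.b.1 := Real.log_le_log (Real.exp_pos 1) h1

theorem nst_le (S : Sys) (s : ℝ) (hs : 1 ≤ s) : (nst S s : ℝ) ≤ 2 * Real.log s := by
  have h1 := stage_logb S
  have h2 : 0 ≤ Real.log s := Real.log_nonneg hs
  have h3 : (nst S s : ℝ) ≤ 2 * Real.log s / Real.log S.b.1 :=
    Nat.floor_le (by positivity)
  refine h3.trans ?_
  rw [div_le_iff₀ (by linarith)]
  nlinarith

theorem stage_pow_le (S : Sys) (s : ℝ) (hs : 1 ≤ s) : S.b.1 ^ nst S s ≤ s ^ 2 := by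
  have h1 := stage_logb S
  have h2 : 0 ≤ Real.log s := Real.log_nonneg hs
  have h3 : (nst S s : ℝ) ≤ 2 * Real.log s / Real.log S.b.1 :=
    Nat.floor_le (by positivity)
  rw [le_div_iff₀ (by linarith)] at h3
  have hb := b1_pos S
  have hs0 : 0 < s := by linarith
  rw [← Real.log_le_log_iff (by positivity) (by positivity), Real.log_pow, Real.log_pow]
  exact_mod_cast h3

theorem stage_lt_pow (S : Sys) (s : ℝ) (hs : 1 ≤ s) : s ^ 2 ≤ S.b.1 ^ (nst S s + 1) := by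
  have h1 := stage_logb S
  have h3 : 2 * Real.log s / Real.log S.b.1 < (nst S s : ℝ) + 1 := Nat.lt_floor_add_one _
  rw [div_lt_iff₀ (by linarith)] at h3
  have hb := b1_pos S
  have hs0 : 0 < s := by linarith
  rw [← Real.log_le_log_iff (by positivity) (by positivity), Real.log_pow, Real.log_pow]
  push_cast
  linarith

theorem stage_decay (S : Sys) (s : ℝ) (hs : 1 ≤ s) :
    (24 / 25 : ℝ) ^ (nst S s) * s ^ 2 ≤ 25 / 24 * s ^ (2 - 1 / 25 : ℝ) := by
  have hs0 : 0 < s := by linarith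
  have hb := b1_pos S
  have h1 : (24 / 25 : ℝ) ^ (nst S s + 1) ≤ s ^ (-(1 / 25) : ℝ) := by
    have h2 : ((24 / 25 : ℝ) ^ (nst S s + 1)) ^ 50 ≤ (s ^ (-(1 / 25) : ℝ)) ^ 50 := by
      have h3 : (s ^ (-(1 / 25) : ℝ)) ^ 50 = (s ^ 2)⁻¹ := by
        rw [← Real.rpow_natCast, ← Real.rpow_mul hs0.le, ← Real.rpow_natCast, ← Real.rpow_neg hs0.le]
        norm_num
      rw [h3, ← pow_mul, mul_comm (nst S s + 1) 50, pow_mul]
      have h4 : ((24 / 25 : ℝ) ^ 50) ≤ (S.b.1)⁻¹ := by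
        rw [le_inv_comm₀ (by positivity) hb]
        have h5 := S.b1_lt
        have h6 : (53 / 10 : ℝ) ≤ ((24 / 25 : ℝ) ^ 50)⁻¹ := by norm_num
        linarith
      calc ((24 / 25 : ℝ) ^ 50) ^ (nst S s + 1) ≤ ((S.b.1)⁻¹) ^ (nst S s + 1) :=
            pow_le_pow_left₀ (by positivity) h4 _
        _ = (S.b.1 ^ (nst S s + 1))⁻¹ := by rw [inv_pow]
        _ ≤ (s ^ 2)⁻¹ := by
            apply inv_anti₀ (by positivity)
            exact stage_lt_pow S s hs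
    exact (pow_le_pow_iff_left₀ (by positivity) (by positivity) (by norm_num)).1 h2
  have h5 : s ^ (2 - 1 / 25 : ℝ) = s ^ 2 * s ^ (-(1 / 25) : ℝ) := by
    rw [sub_eq_add_neg, Real.rpow_add hs0]
    congr 1
    exact_mod_cast Real.rpow_natCast s 2
  rw [h5]
  have h6 : (24 / 25 : ℝ) ^ (nst S s) = 25 / 24 * (24 / 25 : ℝ) ^ (nst S s + 1) := by
    rw [pow_succ]
    ring
  rw [h6]
  have h7 : 0 < s ^ 2 := by positivity
  nlinarith

theorem stage_part (S : Sys) (N : ℕ) (hN : 1 ≤ N) (s S3 : ℝ) (hs : 1 ≤ s) (hS3 : 1 ≤ S3)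
    (Y : Finset E) (w : List Bool) (n : ℕ) (hw : w.length = n) (hn : S.b.1 ^ n ≤ s ^ 2)
    (hY : ∀ y ∈ Y, G S N y ∧ ‖y.2.1‖ ≤ s ∧ ‖y.2.2‖ ≤ S3 ∧ s / 2 < ‖((T S N)^[n] y).2.1‖ ∧
      itin S N n y = w) :
    (Y.card : ℝ) ≤ 4 * (128 * N + 18) * S3 ^ 2 * (|(mul S w).1|⁻¹ *
      (‖(mul S w).2.1‖ * s + ‖(off S N w).2.1‖) ^ 2) := by
  have hm := mul_abs1_pos S w
  have hs0 : 0 < s := by linarith
  have hNr : (1 : ℝ) ≤ N := by exact_mod_cast hN
  rcases Y.eq_empty_or_nonempty with hE | ⟨y0, hy0⟩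
  · rw [hE, Finset.card_empty, Nat.cast_zero]
    positivity
  · have hm1 : |(mul S w).1| ≤ s ^ 2 := by
      rw [mul_abs1]
      have ha := a1_pos S
      have hab : S.a.1 ≤ S.b.1 := by linarith [S.a1_lt, S.b1_gt]
      calc S.a.1 ^ (w.count false) * S.b.1 ^ (w.count true)
          ≤ S.b.1 ^ (w.count false) * S.b.1 ^ (w.count true) := by
            apply mul_le_mul_of_nonneg_right _ (by have := b1_pos S; positivity)
            exact pow_le_pow_left₀ ha.le hab _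
        _ = S.b.1 ^ n := by rw [← pow_add, count_add, hw]
        _ ≤ s ^ 2 := hn
    have hbox := count_box S Y (((N : ℝ) / 2 - (off S N w).1) / (mul S w).1 -
        ((N : ℝ) / 2) / |(mul S w).1|) ((N : ℝ) / |(mul S w).1|) s S3 0 0 (by positivity) hs0
        (by linarith) (by
          intro y hy
          obtain ⟨hG, h2, h3, _, hit⟩ := hY y hy
          have hGn := G_iter S N hG n
          rw [iter_eq, hit] at hGn
          obtain ⟨_, h4, h5⟩ := hGn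
          rw [Prod.fst_add, Prod.fst_mul] at h4 h5
          have hm0 : (mul S w).1 ≠ 0 := abs_pos.1 hm
          have h6 : |y.1 - ((N : ℝ) / 2 - (off S N w).1) / (mul S w).1| ≤
              ((N : ℝ) / 2) / |(mul S w).1| := by
            rw [le_div_iff₀ hm, ← abs_mul]
            have h7 : (y.1 - ((N : ℝ) / 2 - (off S N w).1) / (mul S w).1) * (mul S w).1 =
                (mul S w).1 * y.1 + (off S N w).1 - (N : ℝ) / 2 := by
              field_simp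
              ring
            rw [h7, abs_le]
            constructor <;> linarith
          rw [abs_le] at h6
          refine ⟨hG.1, by linarith [h6.1], ?_, by simpa using h2, by simpa using h3⟩
          have h8 : (N : ℝ) / |(mul S w).1| = ((N : ℝ) / 2) / |(mul S w).1| +
              ((N : ℝ) / 2) / |(mul S w).1| := by ring
          linarith [h6.2])
    have hA : s / 2 < ‖(mul S w).2.1‖ * s + ‖(off S N w).2.1‖ := by
      obtain ⟨_, h2, _, h4, hit⟩ := hY y0 hy0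
      rw [iter_eq, hit] at h4
      rw [Prod.snd_add, Prod.fst_add, Prod.snd_mul, Prod.fst_mul] at h4
      refine h4.trans_le ((norm_add_le _ _).trans ?_)
      rw [norm_mul]
      have := mul_le_mul_of_nonneg_left h2 (norm_nonneg (mul S w).2.1)
      linarith
    have hA2 : s ^ 2 ≤ 4 * (‖(mul S w).2.1‖ * s + ‖(off S N w).2.1‖) ^ 2 := by
      nlinarith
    have h18 : (18 : ℝ) ≤ 18 * s ^ 2 * S3 ^ 2 * |(mul S w).1|⁻¹ := by
      have h9 : 1 ≤ s ^ 2 * |(mul S w).1|⁻¹ := by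
        rw [← div_eq_mul_inv, le_div_iff₀ hm]
        linarith
      have h10 : 1 ≤ S3 ^ 2 := by nlinarith
      have h11 : 18 * s ^ 2 * S3 ^ 2 * |(mul S w).1|⁻¹ =
          18 * ((s ^ 2 * |(mul S w).1|⁻¹) * S3 ^ 2) := by ring
      rw [h11]
      nlinarith
    calc (Y.card : ℝ) ≤ 128 * ((N : ℝ) / |(mul S w).1|) * s ^ 2 * S3 ^ 2 + 18 := hbox
      _ ≤ 128 * ((N : ℝ) / |(mul S w).1|) * s ^ 2 * S3 ^ 2 +
          18 * s ^ 2 * S3 ^ 2 * |(mul S w).1|⁻¹ := by linarith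
      _ = (128 * N + 18) * S3 ^ 2 * |(mul S w).1|⁻¹ * s ^ 2 := by
          rw [div_eq_mul_inv]; ring
      _ ≤ (128 * N + 18) * S3 ^ 2 * |(mul S w).1|⁻¹ *
          (4 * (‖(mul S w).2.1‖ * s + ‖(off S N w).2.1‖) ^ 2) := by
          apply mul_le_mul_of_nonneg_left hA2
          positivity
      _ = _ := by ring

theorem stage (S : Sys) (N : ℕ) (hN : 1 ≤ N) : ∃ C : ℝ, 0 < C ∧ ∀ s S3 : ℝ, 1 ≤ s → 1 ≤ S3 →
    ∀ Y : Finset E, (∀ y ∈ Y, G S N y ∧ ‖y.2.1‖ ≤ s ∧ ‖y.2.2‖ ≤ S3 ∧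
      ∀ i ≤ nst S s, s / 2 < ‖((T S N)^[i] y).2.1‖) →
    (Y.card : ℝ) ≤ C * s ^ (2 - 1 / 25 : ℝ) * S3 ^ 2 := by
  classical
  refine ⟨4 * (128 * N + 18) * (25 / 24 + 25 * N ^ 2), by positivity, ?_⟩
  intro s S3 hs hS3 Y hY
  have hs0 : 0 < s := by linarith
  rw [card_eq_wsum (nst S s) Y (itin S N (nst S s)) (fun y _ => itin_length S N _ y)]
  have h1 : wsum (nst S s) (fun w => ((Y.filter (fun x => itin S N (nst S s) x = w)).card : ℝ)) ≤
      wsum (nst S s) (fun w => (4 * (128 * N + 18) * S3 ^ 2) * (|(mul S w).1|⁻¹ *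
        (‖(mul S w).2.1‖ * s + ‖(off S N w).2.1‖) ^ 2)) := by
    apply wsum_mono
    intro w hw
    apply stage_part S N hN s S3 hs hS3 _ w (nst S s) hw (stage_pow_le S s hs)
    intro y hy
    rw [Finset.mem_filter] at hy
    obtain ⟨h2, h3, h4, h5⟩ := hY y hy.1
    exact ⟨h2, h3, h4, h5 _ le_rfl, hy.2⟩
  refine h1.trans ?_
  rw [wsum_const_mul]
  have h2 := second_moment S N (nst S s) s hs0.le
  have h3 := stage_decay S s hs
  have h4 : (1 : ℝ) ≤ s ^ (2 - 1 / 25 : ℝ) := Real.one_le_rpow hs (by norm_num)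
  have h5 : (25 : ℝ) * N ^ 2 ≤ 25 * N ^ 2 * s ^ (2 - 1 / 25 : ℝ) := by
    have : (0 : ℝ) ≤ 25 * N ^ 2 := by positivity
    nlinarith
  have h6 : 0 ≤ 4 * (128 * (N : ℝ) + 18) * S3 ^ 2 := by positivity
  calc _ ≤ 4 * (128 * (N : ℝ) + 18) * S3 ^ 2 *
        (25 / 24 * s ^ (2 - 1 / 25 : ℝ) + 25 * N ^ 2 * s ^ (2 - 1 / 25 : ℝ)) := by
        apply mul_le_mul_of_nonneg_left _ h6
        linarith
    _ = _ := by ring

end Pool.Agent.H67.Tent
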